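import Mathlib

/-! Congruent numbers: the basic family (helper56). -/

set_option autoImplicit false

namespace Pool.Agent.T2H56.CT

/-- `n` is the area of a right triangle with rational sides -/
def Cong (n : ℕ) : Prop :=
  ∃ a b c : ℚ, 0 < a ∧ 0 < b ∧ 0 < c ∧ a ^ 2 + b ^ 2 = c ^ 2 ∧ (n : ℚ) = a * b / 2

lemma cong_of {n A B t k : ℕ} (hA : 0 < A) (hB : 0 < B) (ht : 0 < t) (hk : 0 < k)
    (hlt : B * k ^ 2 < A * t ^ 2)
    (hn : (n : ℤ) = A * B * ((A * t ^ 2) ^ 2 - (B * k ^ 2) ^ 2)) : Cong n := by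
  have hAq : (0 : ℚ) < A := by exact_mod_cast hA
  have hBq : (0 : ℚ) < B := by exact_mod_cast hB
  have htq : (0 : ℚ) < t := by exact_mod_cast ht
  have hkq : (0 : ℚ) < k := by exact_mod_cast hk
  have hl : (B : ℚ) * k ^ 2 < A * t ^ 2 := by exact_mod_cast hlt
  have hn' : (n : ℚ) = A * B * ((A * t ^ 2) ^ 2 - (B * k ^ 2) ^ 2) := by exact_mod_cast hn
  have h0 : (0 : ℚ) ≤ B * k ^ 2 := by positivity
  have hd : 0 < ((A : ℚ) * t ^ 2) ^ 2 - (B * k ^ 2) ^ 2 := by nlinarith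
  refine ⟨(((A : ℚ) * t ^ 2) ^ 2 - (B * k ^ 2) ^ 2) / (t * k), 2 * A * B * t * k,
    (((A : ℚ) * t ^ 2) ^ 2 + (B * k ^ 2) ^ 2) / (t * k), ?_, ?_, ?_, ?_, ?_⟩
  · positivity
  · positivity
  · positivity
  · field_simp
    ring
  · rw [hn']
    field_simp

end Pool.Agent.T2H56.CT
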