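import Mathlib
import Pool.Agent.T2H56.CT.Cg

/-!
Dense clusters of squarefree congruent numbers (helper56): the sieve.
-/

set_option autoImplicit false
set_option maxHeartbeats 4000000

namespace Pool.Agent.T2H56.CT

open Finset

/-- few elements of one class in an interval -/
lemma class_card (q S : ℕ) (A : Finset ℕ) (hA : ∀ s ∈ A, S < s ∧ s ≤ 2 * S)
    (hc : ∀ s ∈ A, ∀ s' ∈ A, s % q = s' % q) : A.card ≤ S / q + 1 := by
  calc A.card ≤ (range (S / q + 1)).card := by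
        apply card_le_card_of_injOn (fun s => (s - S - 1) / q)
        · intro s hs
          have h0 := hA s hs
          have h1 : (s - S - 1) / q ≤ S / q := Nat.div_le_div_right (by omega)
          rw [mem_coe, mem_range]
          exact Nat.lt_succ_of_le h1
        · intro s hs s' hs' h
          have h1 := hA s hs
          have h2 := hA s' hs'
          have h3 : s ≡ s' [MOD q] := hc s hs s' hs'
          have h5 : (s - S - 1) + (S + 1) ≡ (s' - S - 1) + (S + 1) [MOD q] := by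
            rw [show s - S - 1 + (S + 1) = s by omega, show s' - S - 1 + (S + 1) = s' by omega]
            exact h3
          have h6 : (s - S - 1) % q = (s' - S - 1) % q := Nat.ModEq.add_right_cancel' (S + 1) h5
          have h7 := Nat.div_add_mod (s - S - 1) q
          have h8 := Nat.div_add_mod (s' - S - 1) q
          have h' : (s - S - 1) / q = (s' - S - 1) / q := h
          rw [h', h6, h8] at h7
          omega
    _ = _ := card_range _

lemma int_mod_eq {q s s' : ℕ} (h : (q : ℤ) ∣ (s : ℤ) - s') : s % q = s' % q := by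
  have h1 : s' ≡ s [MOD q] := Nat.modEq_iff_dvd.2 h
  exact h1.symm

lemma cop_of {p : ℕ} (hp : p.Prime) {x : ℤ} (h : ¬ (p : ℤ) ∣ x) (n : ℕ) :
    IsCoprime ((p : ℤ) ^ n) x := by
  apply IsCoprime.pow_left
  exact (Nat.prime_iff_prime_int.1 hp).irreducible.coprime_iff_not_dvd.2 h

/-- `p ∣ Q s + 1` -/
lemma lin_card {p Q S : ℕ} (hp : p.Prime) (hpQ : ¬ p ∣ Q) :
    ((Ioc S (2 * S)).filter (fun s : ℕ => p ∣ Q * s + 1)).card ≤ S / p + 1 := by
  apply class_card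
  · intro s hs
    rw [mem_filter, mem_Ioc] at hs
    exact hs.1
  · intro s hs s' hs'
    rw [mem_filter] at hs hs'
    apply int_mod_eq
    have h1 : (p : ℤ) ∣ ((Q * s + 1 : ℕ) : ℤ) := by exact_mod_cast hs.2
    have h2 : (p : ℤ) ∣ ((Q * s' + 1 : ℕ) : ℤ) := by exact_mod_cast hs'.2
    have h3 := dvd_sub h1 h2
    have h4 : ((Q * s + 1 : ℕ) : ℤ) - ((Q * s' + 1 : ℕ) : ℤ) = (Q : ℤ) * ((s : ℤ) - s') := by
      push_cast; ring
    rw [h4] at h3
    have h5 : ¬ (p : ℤ) ∣ (Q : ℤ) := by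
      intro h; exact hpQ (by exact_mod_cast h)
    have h6 := cop_of hp h5 1
    rw [pow_one] at h6
    exact h6.dvd_of_dvd_mul_left h3

lemma root_card {p Q S : ℕ} (hp : p.Prime) (hp2 : p ≠ 2) (hpQ : ¬ p ∣ Q) (E : ℤ)
    (hE : ¬ (p : ℤ) ∣ E) :
    ((Ioc S (2 * S)).filter (fun s : ℕ => (p : ℤ) ^ 2 ∣ ((Q : ℤ) * s + 1) ^ 2 - E)).card ≤
      2 * (S / p ^ 2 + 1) := by
  classical
  set F := (Ioc S (2 * S)).filter (fun s : ℕ => (p : ℤ) ^ 2 ∣ ((Q : ℤ) * s + 1) ^ 2 - E) with hF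
  rcases F.eq_empty_or_nonempty with h0 | ⟨s0, hs0⟩
  · rw [h0, card_empty]; exact Nat.zero_le _
  have hpz : Prime (p : ℤ) := Nat.prime_iff_prime_int.1 hp
  have h5 : ¬ (p : ℤ) ∣ (Q : ℤ) := by
    intro h; exact hpQ (by exact_mod_cast h)
  have hmem : ∀ s ∈ F, (S < s ∧ s ≤ 2 * S) ∧ (p : ℤ) ^ 2 ∣ ((Q : ℤ) * s + 1) ^ 2 - E := by
    intro s hs
    rw [hF, mem_filter, mem_Ioc] at hs
    exact hs
  have hps : (p : ℤ) ∣ (p : ℤ) ^ 2 := dvd_pow_self _ (by norm_num)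
  have hsplit : F ⊆ F.filter (fun s : ℕ => (p : ℤ) ^ 2 ∣ (Q : ℤ) * ((s : ℤ) - s0)) ∪
      F.filter (fun s : ℕ => (p : ℤ) ^ 2 ∣ ((Q : ℤ) * s + 1) + (Q * s0 + 1)) := by
    intro s hs
    have h1 := (hmem s hs).2
    have h2 := (hmem s0 hs0).2
    have h3 : (p : ℤ) ^ 2 ∣ ((Q : ℤ) * ((s : ℤ) - s0)) * (((Q : ℤ) * s + 1) + (Q * s0 + 1)) := by
      have := dvd_sub h1 h2
      refine this.trans (dvd_of_eq ?_)
      ring
    by_cases hd : (p : ℤ) ∣ (Q : ℤ) * ((s : ℤ) - s0)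
    · refine mem_union_left _ (mem_filter.2 ⟨hs, ?_⟩)
      have h4 : ¬ (p : ℤ) ∣ ((Q : ℤ) * s + 1) + (Q * s0 + 1) := by
        intro h4
        have h6 : (p : ℤ) ∣ 2 * ((Q : ℤ) * s0 + 1) := by
          have := dvd_sub h4 hd
          refine this.trans (dvd_of_eq ?_)
          ring
        rcases hpz.dvd_or_dvd h6 with h7 | h7
        · have : p ∣ 2 := by exact_mod_cast h7
          exact hp2 ((Nat.prime_dvd_prime_iff_eq hp Nat.prime_two).1 this)
        · apply hE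
          have h8 : E = ((Q : ℤ) * s0 + 1) ^ 2 - (((Q : ℤ) * s0 + 1) ^ 2 - E) := by ring
          rw [h8]
          exact dvd_sub (dvd_pow h7 (by norm_num)) (hps.trans h2)
      exact (cop_of hp h4 2).dvd_of_dvd_mul_right h3
    · exact mem_union_right _ (mem_filter.2 ⟨hs, (cop_of hp hd 2).dvd_of_dvd_mul_left h3⟩)
  have hA : (F.filter (fun s : ℕ => (p : ℤ) ^ 2 ∣ (Q : ℤ) * ((s : ℤ) - s0))).card ≤
      S / p ^ 2 + 1 := by
    apply class_card
    · intro s hs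
      rw [mem_filter] at hs
      exact (hmem s hs.1).1
    · intro s hs s' hs'
      rw [mem_filter] at hs hs'
      apply int_mod_eq
      have h3 := dvd_sub hs.2 hs'.2
      have h4 : (Q : ℤ) * ((s : ℤ) - s0) - (Q : ℤ) * ((s' : ℤ) - s0) = (Q : ℤ) * ((s : ℤ) - s') := by
        ring
      rw [h4] at h3
      push_cast
      exact (cop_of hp h5 2).dvd_of_dvd_mul_left h3
  have hB : (F.filter (fun s : ℕ => (p : ℤ) ^ 2 ∣ ((Q : ℤ) * s + 1) + (Q * s0 + 1))).card ≤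
      S / p ^ 2 + 1 := by
    apply class_card
    · intro s hs
      rw [mem_filter] at hs
      exact (hmem s hs.1).1
    · intro s hs s' hs'
      rw [mem_filter] at hs hs'
      apply int_mod_eq
      have h3 := dvd_sub hs.2 hs'.2
      have h4 : (Q : ℤ) * s + 1 + (Q * s0 + 1) - ((Q : ℤ) * s' + 1 + (Q * s0 + 1)) =
        (Q : ℤ) * ((s : ℤ) - s') := by
        ring
      rw [h4] at h3
      push_cast
      exact (cop_of hp h5 2).dvd_of_dvd_mul_left h3
  calc F.card ≤ _ := card_le_card hsplit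
    _ ≤ _ := card_union_le _ _
    _ ≤ (S / p ^ 2 + 1) + (S / p ^ 2 + 1) := Nat.add_le_add hA hB
    _ = _ := by ring

/-- the values -/
def val (b Q s k : ℕ) : ℕ :=
  b * (((Q * s + 1) ^ 2 - b * (Q * k) ^ 2) * ((Q * s + 1) ^ 2 + b * (Q * k) ^ 2))

/-- the exceptional pairs -/
def Bd (b Q y P : ℕ) (x : ℕ × ℕ) : Prop :=
  ∃ p : ℕ, p.Prime ∧ y < p ∧ ¬ p ∣ Q ∧ ((p ∣ Q * x.1 + 1 ∧ p ∣ x.2) ∨
    (¬ (p : ℤ) ∣ ((b * (Q * x.2) ^ 2 : ℕ) : ℤ) ∧ p ≤ P ∧
      ((p : ℤ) ^ 2 ∣ ((Q : ℤ) * x.1 + 1) ^ 2 - ((b * (Q * x.2) ^ 2 : ℕ) : ℤ) ∨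
        (p : ℤ) ^ 2 ∣ ((Q : ℤ) * x.1 + 1) ^ 2 - -((b * (Q * x.2) ^ 2 : ℕ) : ℤ))))

lemma sf_of_not_bd {b Q y S s k : ℕ} (hbs : Squarefree b) (hbQ : b ∣ Q)
    (hQ : 0 < Q) (hy2 : 2 ≤ y)
    (hsm : ∀ p : ℕ, p.Prime → p ≤ y → p ∣ Q) (hs : S < s ∧ s ≤ 2 * S)
    (hkS : b * k ≤ S) (hB : ¬ Bd b Q y (4 * Q * S) (s, k)) : Squarefree (val b Q s k) := by
  have hlt : b * (Q * k) ^ 2 < (Q * s + 1) ^ 2 := by
    have h1 : b * k < s := by omega
    calc b * (Q * k) ^ 2 ≤ b ^ 2 * (Q * k) ^ 2 :=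
          Nat.mul_le_mul_right _ (Nat.le_self_pow (by norm_num) _)
      _ = (Q * (b * k)) ^ 2 := by ring
      _ < (Q * s + 1) ^ 2 := by
          apply Nat.pow_lt_pow_left _ (by norm_num)
          have : Q * (b * k) ≤ Q * s := Nat.mul_le_mul_left _ h1.le
          omega
  obtain ⟨t, ht⟩ : ∃ t : ℕ, t = Q * s + 1 := ⟨_, rfl⟩
  obtain ⟨E, hE⟩ : ∃ E : ℕ, E = b * (Q * k) ^ 2 := ⟨_, rfl⟩
  obtain ⟨q1, hq1⟩ : ∃ q1 : ℕ, q1 = t ^ 2 - E := ⟨_, rfl⟩
  obtain ⟨q2, hq2⟩ : ∃ q2 : ℕ, q2 = t ^ 2 + E := ⟨_, rfl⟩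
  rw [← ht, ← hE] at hlt
  have hval : val b Q s k = b * (q1 * q2) := by
    unfold val
    rw [← ht, ← hE, ← hq1, ← hq2]
  have e1 : (q1 : ℤ) = (t : ℤ) ^ 2 - E := by
    rw [hq1]; push_cast [Nat.cast_sub hlt.le]; ring
  have e2 : (q2 : ℤ) = (t : ℤ) ^ 2 + E := by
    rw [hq2]; push_cast; ring
  have htz : (t : ℤ) = Q * s + 1 := by rw [ht]; push_cast; ring
  rw [hval, Nat.squarefree_iff_prime_squarefree]
  intro p hp hpp
  by_cases hpQ : p ∣ Q
  · -- small primes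
    have hQz : (p : ℤ) ∣ (Q : ℤ) := by exact_mod_cast hpQ
    have hEz : (p : ℤ) ∣ (E : ℤ) := by
      rw [hE]; push_cast
      exact (dvd_pow (hQz.mul_right _) two_ne_zero).mul_left _
    have hn : ∀ e : ℤ, (p : ℤ) ∣ e → ¬ (p : ℤ) ∣ (t : ℤ) ^ 2 + e := by
      intro e he h1
      have h5 : (p : ℤ) ∣ 1 := by
        have h6 : (1 : ℤ) = ((t : ℤ) ^ 2 + e) - e - Q * (Q * s ^ 2 + 2 * s) := by
          rw [htz]; ring
        rw [h6]
        exact dvd_sub (dvd_sub h1 he) (hQz.mul_right _)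
      have h7 : p ∣ 1 := by exact_mod_cast h5
      exact absurd (Nat.dvd_one.1 h7) hp.one_lt.ne'
    have hn1 : ¬ p ∣ q1 := by
      intro h
      have h' : (p : ℤ) ∣ (q1 : ℤ) := by exact_mod_cast h
      rw [e1, sub_eq_add_neg] at h'
      exact hn _ ((dvd_neg).2 hEz) h'
    have hn2 : ¬ p ∣ q2 := by
      intro h
      have h' : (p : ℤ) ∣ (q2 : ℤ) := by exact_mod_cast h
      rw [e2] at h'
      exact hn _ hEz h'
    have hc : Nat.Coprime (p * p) (q1 * q2) := by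
      have h1 := (Nat.Prime.coprime_iff_not_dvd hp).2 hn1
      have h2 := (Nat.Prime.coprime_iff_not_dvd hp).2 hn2
      exact Nat.Coprime.mul_left (h1.mul_right h2) (h1.mul_right h2)
    have h3 : p * p ∣ b := hc.dvd_of_dvd_mul_right hpp
    have h4 := hbs p h3
    rw [Nat.isUnit_iff] at h4
    exact hp.one_lt.ne' h4
  · have hyp : y < p := by
      by_contra h
      exact hpQ (hsm p hp (by omega))
    have hp2 : p ≠ 2 := by omega
    have hpb : ¬ p ∣ b := fun h => hpQ (h.trans hbQ)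
    have hpz : Prime (p : ℤ) := Nat.prime_iff_prime_int.1 hp
    by_cases h1 : p ∣ t ∧ p ∣ k
    · exact hB ⟨p, hp, hyp, hpQ, Or.inl ⟨by rw [← ht]; exact h1.1, h1.2⟩⟩
    -- `p` divides `q1` or `q2`
    have hEk : p ∣ E → p ∣ k := by
      intro h
      rw [hE] at h
      rcases (Nat.Prime.dvd_mul hp).1 h with h | h
      · exact absurd h hpb
      · rcases (Nat.Prime.dvd_mul hp).1 (hp.dvd_of_dvd_pow h) with h | h
        · exact absurd h hpQ
        · exact h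
    have hnE : (p ∣ q1 ∨ p ∣ q2) → ¬ p ∣ E := by
      rintro h hpE
      apply h1
      refine ⟨?_, hEk hpE⟩
      have hEz : (p : ℤ) ∣ (E : ℤ) := by exact_mod_cast hpE
      have h2 : (p : ℤ) ∣ (t : ℤ) ^ 2 := by
        rcases h with h | h
        · have h' : (p : ℤ) ∣ (q1 : ℤ) := by exact_mod_cast h
          rw [e1] at h'
          have := dvd_add h' hEz
          refine this.trans (dvd_of_eq (by ring))
        · have h' : (p : ℤ) ∣ (q2 : ℤ) := by exact_mod_cast h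
          rw [e2] at h'
          have := dvd_sub h' hEz
          refine this.trans (dvd_of_eq (by ring))
      have h3 := hpz.dvd_of_dvd_pow h2
      exact_mod_cast h3
    have hpp' : p ^ 2 ∣ q1 * q2 := by
      have hc : Nat.Coprime (p * p) b := by
        have h1 := (Nat.Prime.coprime_iff_not_dvd hp).2 hpb
        exact Nat.Coprime.mul_left h1 h1
      rw [pow_two]
      exact hc.dvd_of_dvd_mul_left hpp
    have hnot : ¬ (p ∣ q1 ∧ p ∣ q2) := by
      rintro ⟨h2, h3⟩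
      apply hnE (Or.inl h2)
      have h2' : (p : ℤ) ∣ (q1 : ℤ) := by exact_mod_cast h2
      have h3' : (p : ℤ) ∣ (q2 : ℤ) := by exact_mod_cast h3
      rw [e1] at h2'
      rw [e2] at h3'
      have h4 : (p : ℤ) ∣ 2 * (E : ℤ) := by
        have := dvd_sub h3' h2'
        refine this.trans (dvd_of_eq (by ring))
      rcases hpz.dvd_or_dvd h4 with h5 | h5
      · have : p ∣ 2 := by exact_mod_cast h5
        exact absurd ((Nat.prime_dvd_prime_iff_eq hp Nat.prime_two).1 this) hp2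
      · exact_mod_cast h5
    have hor : p ^ 2 ∣ q1 ∨ p ^ 2 ∣ q2 := by
      by_cases h2 : p ∣ q1
      · left
        have h3 : ¬ p ∣ q2 := fun h => hnot ⟨h2, h⟩
        have hc : Nat.Coprime (p ^ 2) q2 :=
          Nat.Coprime.pow_left 2 ((Nat.Prime.coprime_iff_not_dvd hp).2 h3)
        exact hc.dvd_of_dvd_mul_right hpp'
      · right
        have hc : Nat.Coprime (p ^ 2) q1 :=
          Nat.Coprime.pow_left 2 ((Nat.Prime.coprime_iff_not_dvd hp).2 h2)
        exact hc.dvd_of_dvd_mul_left hpp'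
    have hple : p ≤ 4 * Q * S := by
      have hq : p ^ 2 ≤ t ^ 2 + E := by
        rcases hor with h | h
        · have := Nat.le_of_dvd (by omega) h
          omega
        · have := Nat.le_of_dvd (by rw [hq2, ht]; positivity) h
          omega
      have ht3 : t ≤ 3 * Q * S := by
        rw [ht]
        have : Q * s ≤ Q * (2 * S) := Nat.mul_le_mul_left _ hs.2
        have h1 : 1 ≤ Q * S := Nat.mul_pos hQ (by omega)
        nlinarith
      have hEle : E ≤ (Q * S) ^ 2 := by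
        rw [hE]
        calc b * (Q * k) ^ 2 ≤ b ^ 2 * (Q * k) ^ 2 :=
              Nat.mul_le_mul_right _ (Nat.le_self_pow (by norm_num) _)
          _ = (Q * (b * k)) ^ 2 := by ring
          _ ≤ _ := Nat.pow_le_pow_left (Nat.mul_le_mul_left _ hkS) 2
      have h3 : p ^ 2 ≤ (4 * Q * S) ^ 2 := by
        calc p ^ 2 ≤ t ^ 2 + E := hq
          _ ≤ (3 * Q * S) ^ 2 + (Q * S) ^ 2 := Nat.add_le_add (Nat.pow_le_pow_left ht3 2) hEle
          _ ≤ _ := by nlinarith [Nat.zero_le ((Q * S) ^ 2)]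
      exact (Nat.pow_le_pow_iff_left (by norm_num)).1 h3
    have hnE' : ¬ p ∣ E := hnE (hor.imp (fun h => (dvd_pow_self p two_ne_zero).trans h)
      (fun h => (dvd_pow_self p two_ne_zero).trans h))
    apply hB
    refine ⟨p, hp, hyp, hpQ, Or.inr ⟨?_, hple, ?_⟩⟩
    · intro h
      apply hnE'
      rw [hE]
      exact_mod_cast h
    · have hEe : ((b * (Q * k) ^ 2 : ℕ) : ℤ) = (E : ℤ) := by rw [hE]
      show (p : ℤ) ^ 2 ∣ ((Q : ℤ) * s + 1) ^ 2 - ((b * (Q * k) ^ 2 : ℕ) : ℤ) ∨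
        (p : ℤ) ^ 2 ∣ ((Q : ℤ) * s + 1) ^ 2 - -((b * (Q * k) ^ 2 : ℕ) : ℤ)
      rw [hEe, ← htz, sub_neg_eq_add, ← e1, ← e2]
      rcases hor with h | h
      · left; exact_mod_cast h
      · right; exact_mod_cast h

end Pool.Agent.T2H56.CT
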