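import Mathlib
import Pool.Agent.T2H56.CT.DenseA

/-!
Dense clusters of squarefree congruent numbers (helper56): counting the exceptional pairs.
-/

set_option autoImplicit false
set_option maxHeartbeats 4000000

namespace Pool.Agent.T2H56.CT

open Finset

open Classical in
/-- the exceptional pairs in the box -/
noncomputable def BadSet (b Q y P S K0 : ℕ) : Finset (ℕ × ℕ) :=
  ((Ioc S (2 * S)) ×ˢ (Ioc 0 K0)).filter (fun x => Bd b Q y P x)

lemma sum_sq_le (y P : ℕ) (T : Finset ℕ) (hT : ∀ p ∈ T, y < p ∧ p ≤ P) :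
    ∑ p ∈ T, ((p : ℝ) ^ 2)⁻¹ ≤ 2 / (y + 1) := by
  have h1 : T ⊆ Ioo y (P + 1) := by
    intro p hp
    have := hT p hp
    rw [mem_Ioo]
    omega
  calc ∑ p ∈ T, ((p : ℝ) ^ 2)⁻¹ ≤ ∑ p ∈ Ioo y (P + 1), ((p : ℝ) ^ 2)⁻¹ := by
        apply sum_le_sum_of_subset_of_nonneg h1
        intro i _ _
        positivity
    _ ≤ 2 / (y + 1) := by exact_mod_cast sum_Ioo_inv_sq_le y (P + 1)

lemma bad_card (b Q y P S K0 : ℕ) (hy : 2 ≤ y) :
    ((BadSet b Q y P S K0).card : ℝ) ≤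
      S * K0 * (10 / (y + 1)) + K0 * (K0 / y) + 4 * K0 * (Nat.primeCounting P) := by
  classical
  set T1 := (Ioc y K0).filter (fun p => p.Prime ∧ ¬ p ∣ Q) with hT1
  set T2 := (Ioc y P).filter (fun p => p.Prime ∧ ¬ p ∣ Q) with hT2
  set U1 := T1.biUnion (fun p => ((Ioc S (2 * S)).filter (fun s => p ∣ Q * s + 1)) ×ˢ
    ((Ioc 0 K0).filter (fun k => p ∣ k))) with hU1
  set E : ℕ → ℤ := fun k => ((b * (Q * k) ^ 2 : ℕ) : ℤ) with hE
  set G : ℕ → ℕ → Finset ℕ := fun k p =>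
    ((Ioc S (2 * S)).filter (fun s : ℕ => (p : ℤ) ^ 2 ∣ ((Q : ℤ) * s + 1) ^ 2 - E k)) ∪
    ((Ioc S (2 * S)).filter (fun s : ℕ => (p : ℤ) ^ 2 ∣ ((Q : ℤ) * s + 1) ^ 2 - -E k)) with hG
  set U2 := (Ioc 0 K0).biUnion (fun k => (T2.filter (fun p : ℕ => ¬ (p : ℤ) ∣ E k)).biUnion
    (fun p => (G k p) ×ˢ {k})) with hU2
  have hsub : BadSet b Q y P S K0 ⊆ U1 ∪ U2 := by
    intro x hx
    unfold BadSet at hx
    rw [mem_filter, mem_product] at hx
    obtain ⟨⟨h1, h2⟩, p, hp, hyp, hpQ, h3⟩ := hx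
    rw [mem_union]
    rcases h3 with ⟨h3, h4⟩ | ⟨h3, h4, h5⟩
    · left
      rw [hU1, mem_biUnion]
      have h5 : p ≤ K0 := (Nat.le_of_dvd (mem_Ioc.1 h2).1 h4).trans (mem_Ioc.1 h2).2
      refine ⟨p, mem_filter.2 ⟨mem_Ioc.2 ⟨hyp, h5⟩, hp, hpQ⟩, ?_⟩
      exact mem_product.2 ⟨mem_filter.2 ⟨h1, h3⟩, mem_filter.2 ⟨h2, h4⟩⟩
    · right
      rw [hU2, mem_biUnion]
      refine ⟨x.2, h2, ?_⟩
      rw [mem_biUnion]
      refine ⟨p, mem_filter.2 ⟨mem_filter.2 ⟨mem_Ioc.2 ⟨hyp, h4⟩, hp, hpQ⟩, h3⟩, ?_⟩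
      refine mem_product.2 ⟨?_, mem_singleton.2 rfl⟩
      rcases h5 with h5 | h5
      · exact mem_union_left _ (mem_filter.2 ⟨h1, h5⟩)
      · exact mem_union_right _ (mem_filter.2 ⟨h1, h5⟩)
  have hyr : (0 : ℝ) < y := by exact_mod_cast (by omega : 0 < y)
  have hc1 : ((U1.card : ℕ) : ℝ) ≤ S * K0 * (2 / (y + 1)) + K0 * (K0 / y) := by
    have e1 : ((U1.card : ℕ) : ℝ) ≤ ∑ p ∈ T1, ((S : ℝ) * K0 * ((p : ℝ) ^ 2)⁻¹ + K0 / y) := by
      have e0 : U1.card ≤ ∑ p ∈ T1, (((Ioc S (2 * S)).filter (fun s => p ∣ Q * s + 1)) ×ˢ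
        ((Ioc 0 K0).filter (fun k => p ∣ k))).card := card_biUnion_le
      have e0' : ((U1.card : ℕ) : ℝ) ≤
          ((∑ p ∈ T1, (((Ioc S (2 * S)).filter (fun s => p ∣ Q * s + 1)) ×ˢ
        ((Ioc 0 K0).filter (fun k => p ∣ k))).card : ℕ) : ℝ) := by exact_mod_cast e0
      refine e0'.trans ?_
      push_cast
      apply sum_le_sum
      intro p hp
      rw [hT1, mem_filter, mem_Ioc] at hp
      obtain ⟨⟨hp1, hp2⟩, hpp, hpQ⟩ := hp
      rw [card_product, Nat.Ioc_filter_dvd_card_eq_div]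
      have hpr : (0 : ℝ) < p := by exact_mod_cast hpp.pos
      have e2 : (((((Ioc S (2 * S)).filter (fun s => p ∣ Q * s + 1)).card : ℕ)) : ℝ) ≤
          (S : ℝ) / p + 1 := by
        have h1 := lin_card (S := S) hpp hpQ
        have h2 : ((S / p : ℕ) : ℝ) ≤ (S : ℝ) / p := Nat.cast_div_le
        have h3 : (((((Ioc S (2 * S)).filter (fun s => p ∣ Q * s + 1)).card : ℕ)) : ℝ) ≤
          ((S / p + 1 : ℕ) : ℝ) := by exact_mod_cast h1
        push_cast at h3
        linarith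
      have e3 : ((K0 / p : ℕ) : ℝ) ≤ (K0 : ℝ) / p := Nat.cast_div_le
      push_cast
      calc (((((Ioc S (2 * S)).filter (fun s => p ∣ Q * s + 1)).card : ℕ)) : ℝ) * ((K0 / p : ℕ) : ℝ)
          ≤ ((S : ℝ) / p + 1) * ((K0 : ℝ) / p) := by
            apply mul_le_mul e2 e3 (Nat.cast_nonneg _) (by positivity)
        _ = (S : ℝ) * K0 * ((p : ℝ) ^ 2)⁻¹ + K0 / p := by
            field_simp
        _ ≤ (S : ℝ) * K0 * ((p : ℝ) ^ 2)⁻¹ + K0 / y := by
            apply add_le_add le_rfl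
            apply div_le_div_of_nonneg_left (Nat.cast_nonneg _) hyr
            exact_mod_cast hp1.le
    refine e1.trans ?_
    rw [sum_add_distrib, ← mul_sum, sum_const, nsmul_eq_mul]
    apply add_le_add
    · apply mul_le_mul_of_nonneg_left _ (by positivity)
      apply sum_sq_le y K0
      intro p hp
      rw [hT1, mem_filter, mem_Ioc] at hp
      exact hp.1
    · apply mul_le_mul_of_nonneg_right _ (by positivity)
      have : T1.card ≤ K0 := (card_filter_le _ _).trans (by rw [Nat.card_Ioc]; omega)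
      exact_mod_cast this
  have hT2c : (T2.card : ℝ) ≤ Nat.primeCounting P := by
    have : T2.card ≤ Nat.primeCounting P := by
      rw [Nat.primeCounting, Nat.primeCounting', Nat.count_eq_card_filter_range]
      apply card_le_card
      intro p hp
      rw [hT2, mem_filter, mem_Ioc] at hp
      rw [mem_filter, mem_range]
      exact ⟨by omega, hp.2.1⟩
    exact_mod_cast this
  have hc2 : ((U2.card : ℕ) : ℝ) ≤ S * K0 * (8 / (y + 1)) + 4 * K0 * (Nat.primeCounting P) := by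
    have e0 : U2.card ≤ ∑ k ∈ Ioc 0 K0, ∑ p ∈ T2.filter (fun p : ℕ => ¬ (p : ℤ) ∣ E k),
        ((G k p) ×ˢ ({k} : Finset ℕ)).card :=
      card_biUnion_le.trans (sum_le_sum fun k _ => card_biUnion_le)
    have e1 : ∀ k ∈ Ioc 0 K0, ((∑ p ∈ T2.filter (fun p : ℕ => ¬ (p : ℤ) ∣ E k),
        ((G k p) ×ˢ ({k} : Finset ℕ)).card : ℕ) : ℝ) ≤
        (S : ℝ) * (8 / (y + 1)) + 4 * (Nat.primeCounting P) := by
      intro k _
      push_cast
      calc ∑ p ∈ T2.filter (fun p : ℕ => ¬ (p : ℤ) ∣ E k), ((((G k p) ×ˢ ({k} : Finset ℕ)).card : ℕ) : ℝ)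
          ≤ ∑ p ∈ T2.filter (fun p : ℕ => ¬ (p : ℤ) ∣ E k), (4 * (S : ℝ) * ((p : ℝ) ^ 2)⁻¹ + 4) := by
            apply sum_le_sum
            intro p hp
            rw [mem_filter, hT2, mem_filter, mem_Ioc] at hp
            obtain ⟨⟨⟨hp1, hp2⟩, hpp, hpQ⟩, hpE⟩ := hp
            rw [card_product, card_singleton, mul_one]
            have h1 := root_card (S := S) hpp (by omega) hpQ (E k) hpE
            have h2 := root_card (S := S) hpp (by omega) hpQ (-E k) (by rwa [dvd_neg])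
            have h3 : (G k p).card ≤ 4 * (S / p ^ 2) + 4 := by
              refine (card_union_le _ _).trans ?_
              omega
            have h4 : ((S / p ^ 2 : ℕ) : ℝ) ≤ (S : ℝ) / ((p ^ 2 : ℕ) : ℝ) := Nat.cast_div_le
            have h5 : (((G k p).card : ℕ) : ℝ) ≤ ((4 * (S / p ^ 2) + 4 : ℕ) : ℝ) := by
              exact_mod_cast h3
            refine h5.trans ?_
            push_cast at h4 ⊢
            rw [div_eq_mul_inv] at h4
            linarith
        _ = 4 * (S : ℝ) * (∑ p ∈ T2.filter (fun p : ℕ => ¬ (p : ℤ) ∣ E k), ((p : ℝ) ^ 2)⁻¹) +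
            ((T2.filter (fun p : ℕ => ¬ (p : ℤ) ∣ E k)).card : ℝ) * 4 := by
            rw [sum_add_distrib, ← mul_sum, sum_const, nsmul_eq_mul]
        _ ≤ 4 * (S : ℝ) * (2 / (y + 1)) + (Nat.primeCounting P) * 4 := by
            apply add_le_add
            · apply mul_le_mul_of_nonneg_left _ (by positivity)
              apply sum_sq_le y P
              intro p hp
              rw [mem_filter, hT2, mem_filter, mem_Ioc] at hp
              exact hp.1.1
            · apply mul_le_mul_of_nonneg_right _ (by norm_num)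
              refine le_trans ?_ hT2c
              exact_mod_cast card_filter_le _ _
        _ = _ := by ring
    have e0' : ((U2.card : ℕ) : ℝ) ≤
        ((∑ k ∈ Ioc 0 K0, ∑ p ∈ T2.filter (fun p : ℕ => ¬ (p : ℤ) ∣ E k),
        ((G k p) ×ˢ ({k} : Finset ℕ)).card : ℕ) : ℝ) := by exact_mod_cast e0
    refine e0'.trans ?_
    rw [Nat.cast_sum]
    refine (sum_le_sum e1).trans ?_
    rw [sum_const, nsmul_eq_mul, Nat.card_Ioc, Nat.sub_zero]
    apply le_of_eq
    ring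
  have hc : ((BadSet b Q y P S K0).card : ℝ) ≤ U1.card + U2.card := by
    exact_mod_cast (card_le_card hsub).trans (card_union_le _ _)
  have e : (S : ℝ) * K0 * (10 / (y + 1)) = S * K0 * (2 / (y + 1)) + S * K0 * (8 / (y + 1)) := by
    ring
  linarith

end Pool.Agent.T2H56.CT
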