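import Mathlib
import Pool.Agent.T2H56.CT.DenseB

/-!
Dense clusters of squarefree congruent numbers (helper56): final form.
-/

set_option autoImplicit false
set_option maxHeartbeats 4000000

namespace Pool.Agent.T2H56.CT

open Finset Filter

lemma pi_small (A : ℕ) (hA : 0 < A) (ε : ℝ) (hε : 0 < ε) :
    ∀ᶠ S : ℕ in atTop, ((Nat.primeCounting (A * S) : ℕ) : ℝ) ≤ ε * S := by
  have hAr : (0 : ℝ) < A := by exact_mod_cast hA
  have t0 : Tendsto (fun x : ℝ => √x) atTop atTop := Real.tendsto_sqrt_atTop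
  have t1 : Tendsto (fun x : ℝ => Real.log 4 / Real.log √x) atTop (nhds 0) :=
    (Real.tendsto_log_atTop.comp t0).const_div_atTop _
  have t2 : Tendsto (fun x : ℝ => 1 / √x) atTop (nhds 0) := t0.const_div_atTop _
  have t3 : Tendsto (fun x : ℝ => Real.log 4 / Real.log √x + 1 / √x) atTop (nhds 0) := by
    simpa using t1.add t2
  have tS : Tendsto (fun S : ℕ => ((A * S : ℕ) : ℝ)) atTop atTop := by
    have h1 : Tendsto (fun S : ℕ => (A : ℝ) * (S : ℝ)) atTop atTop :=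
      tendsto_natCast_atTop_atTop.const_mul_atTop hAr
    refine h1.congr fun S => ?_
    push_cast; rfl
  have t4 := (t3.comp tS).eventually_lt_const (show (0 : ℝ) < ε / A by positivity)
  filter_upwards [t4, tS.eventually_gt_atTop 1] with S h1 h2
  simp only [Function.comp_apply] at h1
  have h3 := Chebyshev.pi_le_log4_mul_div h2
  rw [Nat.floor_natCast] at h3
  set x : ℝ := ((A * S : ℕ) : ℝ) with hx
  have hx0 : 0 < x := by linarith
  have h4 : Real.log 4 * x / Real.log √x + √x = x * (Real.log 4 / Real.log √x + 1 / √x) := by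
    have h5 : x * (1 / √x) = √x := by
      rw [mul_one_div, Real.div_sqrt]
    rw [mul_add, h5]
    ring
  rw [h4] at h3
  refine h3.trans ?_
  calc x * (Real.log 4 / Real.log √x + 1 / √x) ≤ x * (ε / A) :=
        mul_le_mul_of_nonneg_left h1.le hx0.le
    _ = ε * S := by
        rw [hx]; push_cast; field_simp

/-- many good `s` -/
lemma good_s (b Q S K0 : ℕ) (hK0 : K0 ≤ S)
    (hpi : ((Nat.primeCounting (4 * Q * S) : ℕ) : ℝ) ≤ 1 / 128 * S) :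
    ∃ 𝒮 : Finset ℕ, 𝒮 ⊆ Ioc S (2 * S) ∧ S ≤ 2 * 𝒮.card ∧ ∀ s ∈ 𝒮, ∃ T : Finset ℕ,
      T ⊆ Ioc 0 K0 ∧ K0 ≤ 2 * T.card ∧ ∀ k ∈ T, ¬ Bd b Q 200 (4 * Q * S) (s, k) := by
  classical
  rcases Nat.eq_zero_or_pos K0 with h0 | hKpos
  · refine ⟨Ioc S (2 * S), subset_rfl, by rw [Nat.card_Ioc]; omega, fun s _ => ⟨∅, by simp, by
      rw [h0]; simp, by simp⟩⟩
  have hb := bad_card b Q 200 (4 * Q * S) S K0 (by norm_num)
  set B := BadSet b Q 200 (4 * Q * S) S K0 with hB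
  have hKr : (K0 : ℝ) ≤ S := by exact_mod_cast hK0
  have hK0r : (0 : ℝ) < K0 := by exact_mod_cast hKpos
  have hb2 : (B.card : ℝ) ≤ K0 * S / 8 := by
    have h1 : (K0 : ℝ) * (K0 / (200 : ℕ)) ≤ K0 * (S / 200) := by
      push_cast
      apply mul_le_mul_of_nonneg_left _ hK0r.le
      linarith
    have h2 : 4 * (K0 : ℝ) * (Nat.primeCounting (4 * Q * S)) ≤ 4 * K0 * (1 / 128 * S) :=
      mul_le_mul_of_nonneg_left hpi (by positivity)
    have h3 : (0 : ℝ) ≤ S * K0 := by positivity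
    push_cast at hb h1
    have h4 : (S : ℝ) * K0 * (10 / (200 + 1)) ≤ S * K0 * (1 / 20) := by
      apply mul_le_mul_of_nonneg_left _ h3
      norm_num
    nlinarith
  set bs : ℕ → Finset ℕ := fun s => (Ioc 0 K0).filter (fun k => Bd b Q 200 (4 * Q * S) (s, k))
    with hbs
  have hsum : B.card = ∑ s ∈ Ioc S (2 * S), (bs s).card := by
    rw [hB]
    unfold BadSet
    rw [card_filter, sum_product]
    apply sum_congr rfl
    intro s _
    rw [hbs, card_filter]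
  set 𝒮 := (Ioc S (2 * S)).filter (fun s => 2 * (bs s).card ≤ K0) with h𝒮
  refine ⟨𝒮, filter_subset _ _, ?_, ?_⟩
  · set 𝒞 := (Ioc S (2 * S)).filter (fun s => ¬ 2 * (bs s).card ≤ K0) with h𝒞
    have h1 : 𝒮.card + 𝒞.card = S := by
      rw [h𝒮, h𝒞, card_filter_add_card_filter_not, Nat.card_Ioc]; omega
    have h2 : 𝒞.card * K0 ≤ 2 * B.card := by
      rw [hsum]
      calc 𝒞.card * K0 = ∑ _s ∈ 𝒞, K0 := by rw [sum_const, smul_eq_mul]
        _ ≤ ∑ s ∈ 𝒞, 2 * (bs s).card := by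
            apply sum_le_sum
            intro s hs
            rw [h𝒞, mem_filter] at hs
            omega
        _ ≤ ∑ s ∈ Ioc S (2 * S), 2 * (bs s).card :=
            sum_le_sum_of_subset (filter_subset _ _)
        _ = _ := by rw [mul_sum]
    have h3 : (𝒞.card : ℝ) * K0 ≤ 2 * (K0 * S / 8) := by
      have : (𝒞.card : ℝ) * K0 ≤ 2 * B.card := by exact_mod_cast h2
      linarith
    have h4 : (𝒞.card : ℝ) ≤ S / 4 := by
      have : (𝒞.card : ℝ) * K0 ≤ (S / 4) * K0 := by linarith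
      exact le_of_mul_le_mul_right this hK0r
    have h5 : 4 * 𝒞.card ≤ S := by
      have : 4 * (𝒞.card : ℝ) ≤ S := by linarith
      exact_mod_cast this
    omega
  · intro s hs
    rw [h𝒮, mem_filter] at hs
    refine ⟨(Ioc 0 K0).filter (fun k => ¬ Bd b Q 200 (4 * Q * S) (s, k)), filter_subset _ _, ?_, ?_⟩
    · have h1 := card_filter_add_card_filter_not (s := Ioc 0 K0)
        (fun k => Bd b Q 200 (4 * Q * S) (s, k))
      rw [Nat.card_Ioc] at h1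
      have h2 : ((Ioc 0 K0).filter (fun k => Bd b Q 200 (4 * Q * S) (s, k))).card =
        (bs s).card := rfl
      omega
    · intro k hk
      exact (mem_filter.1 hk).2

lemma val_cast {b Q s k : ℕ} (hlt : b * k < s) :
    ((val b Q s k : ℕ) : ℤ) = b * ((Q * s + 1 : ℤ) ^ 4 - b ^ 2 * (Q * k : ℤ) ^ 4) := by
  have h1 : b * (Q * k) ^ 2 ≤ (Q * s + 1) ^ 2 := by
    calc b * (Q * k) ^ 2 ≤ b ^ 2 * (Q * k) ^ 2 :=
          Nat.mul_le_mul_right _ (Nat.le_self_pow (by norm_num) _)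
      _ = (Q * (b * k)) ^ 2 := by ring
      _ ≤ (Q * s + 1) ^ 2 := by
          apply Nat.pow_le_pow_left
          have : Q * (b * k) ≤ Q * s := Nat.mul_le_mul_left _ hlt.le
          omega
  unfold val
  push_cast [Nat.cast_sub h1]
  ring

lemma val_cong {b Q s k : ℕ} (hb : 0 < b) (hQ : 0 < Q) (hk : 0 < k) (hlt : b * k < s) :
    Cong (val b Q s k) := by
  have h1 : b * (Q * k) ^ 2 < (Q * s + 1) ^ 2 := by
    calc b * (Q * k) ^ 2 ≤ b ^ 2 * (Q * k) ^ 2 :=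
          Nat.mul_le_mul_right _ (Nat.le_self_pow (by norm_num) _)
      _ = (Q * (b * k)) ^ 2 := by ring
      _ < (Q * s + 1) ^ 2 := by
          apply Nat.pow_lt_pow_left _ (by norm_num)
          have : Q * (b * k) ≤ Q * s := Nat.mul_le_mul_left _ hlt.le
          omega
  apply cong_of (A := 1) (B := b) (t := Q * s + 1) (k := Q * k) one_pos hb (Nat.succ_pos _)
    (Nat.mul_pos hQ hk) (by simpa using h1)
  rw [val_cast hlt]
  push_cast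
  ring

lemma val_mod {b Q M s k : ℕ} (hMQ : M ∣ Q) (hlt : b * k < s) : val b Q s k ≡ b [MOD M] := by
  have h1 : (M : ℤ) ∣ (b : ℤ) - ((val b Q s k : ℕ) : ℤ) := by
    rw [val_cast hlt]
    have h2 : (Q : ℤ) ∣ (b : ℤ) - b * ((Q * s + 1 : ℤ) ^ 4 - b ^ 2 * (Q * k : ℤ) ^ 4) := by
      refine ⟨-(b * (Q ^ 3 * s ^ 4 + 4 * Q ^ 2 * s ^ 3 + 6 * Q * s ^ 2 + 4 * s)) +
        b ^ 3 * Q ^ 3 * (k : ℤ) ^ 4, ?_⟩
      ring
    exact (Int.natCast_dvd_natCast.2 hMQ).trans h2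
  exact Nat.modEq_iff_dvd.2 h1

/-- the numbers of the cluster -/
def Clu (b M N : ℕ) (H : ℝ) : Set ℕ :=
  {n : ℕ | N ≤ n ∧ (n : ℝ) ≤ N + H ∧ n ≡ b [MOD M] ∧ Squarefree n ∧ Cong n}

lemma ex_fac : ∃ F : ℕ, 129 ≤ F ∧ ∀ p : ℕ, p.Prime → p ≤ 200 → p ∣ F := by
  refine ⟨(200).factorial, le_trans (by norm_num) (Nat.self_le_factorial 200), fun p hp hpk => ?_⟩
  exact (Nat.Prime.dvd_factorial hp).2 hpk

/-- the base point -/
def base (b Q K0 s : ℕ) : ℕ := b * (Q * s + 1) ^ 4 - b ^ 3 * (Q * K0) ^ 4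

lemma base_cast {b Q K0 s : ℕ} (hb : 0 < b) (h : b * K0 < s) :
    ((base b Q K0 s : ℕ) : ℤ) = b * (Q * s + 1) ^ 4 - b ^ 3 * (Q * K0) ^ 4 := by
  have hle : b ^ 3 * (Q * K0) ^ 4 ≤ b * (Q * s + 1) ^ 4 := by
    have h1 : Q * (b * K0) ≤ Q * s + 1 := by
      have : Q * (b * K0) ≤ Q * s := Nat.mul_le_mul_left _ h.le
      omega
    calc b ^ 3 * (Q * K0) ^ 4 ≤ b ^ 5 * (Q * K0) ^ 4 := by
          apply Nat.mul_le_mul_right
          exact Nat.pow_le_pow_right hb (by norm_num)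
      _ = b * (Q * (b * K0)) ^ 4 := by ring
      _ ≤ _ := Nat.mul_le_mul_left _ (Nat.pow_le_pow_left h1 4)
  unfold base
  push_cast [Nat.cast_sub hle]
  ring

lemma base_sep {b Q K0 S s s' : ℕ} {H x : ℝ} (hb : 0 < b) (hS : 0 < S)
    (hQbig : 129 * b ^ 2 ≤ Q) (hx0 : 0 < x)
    (hxS : x / (2 * (4 * Q * b : ℕ)) ≤ S) (hH : H ≤ x ^ 3) (h : b * K0 < s) (h' : b * K0 < s')
    (hSs : S ≤ s) (hss : s < s') : (base b Q K0 s : ℝ) + H < base b Q K0 s' := by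
  have hbr : (1 : ℝ) ≤ b := by exact_mod_cast hb
  have hQ : 0 < Q := lt_of_lt_of_le (by positivity) hQbig
  have hQr : (1 : ℝ) ≤ Q := by exact_mod_cast hQ
  have h1' : ((base b Q K0 s : ℕ) : ℝ) = b * (Q * s + 1) ^ 4 - b ^ 3 * (Q * K0) ^ 4 := by
    exact_mod_cast base_cast hb h
  have h2' : ((base b Q K0 s' : ℕ) : ℝ) = b * (Q * s' + 1) ^ 4 - b ^ 3 * (Q * K0) ^ 4 := by
    exact_mod_cast base_cast hb h'
  rw [h1', h2']
  have h3 : (s : ℝ) + 1 ≤ s' := by exact_mod_cast hss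
  have h4 : (S : ℝ) ≤ s := by exact_mod_cast hSs
  set u : ℝ := Q * s + 1 with hu
  have hu1 : (Q : ℝ) * S ≤ u := by
    have : (Q : ℝ) * S ≤ Q * s := mul_le_mul_of_nonneg_left h4 (by linarith)
    linarith
  have hS0 : (0 : ℝ) < S := by exact_mod_cast hS
  have hQS : 0 < (Q : ℝ) * S := by positivity
  have hu0 : 0 < u := by linarith
  have h5 : u + Q ≤ Q * s' + 1 := by
    have : (Q : ℝ) * (s + 1) ≤ Q * s' := mul_le_mul_of_nonneg_left h3 (by linarith)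
    rw [hu]; linarith
  have h6 : (u + Q) ^ 4 ≤ ((Q : ℝ) * s' + 1) ^ 4 := pow_le_pow_left₀ (by linarith) h5 4
  have h7 : u ^ 4 + 4 * u ^ 3 * Q ≤ (u + Q) ^ 4 := by
    have e : (u + Q) ^ 4 = u ^ 4 + 4 * u ^ 3 * Q + (6 * u ^ 2 * Q ^ 2 + 4 * u * Q ^ 3 + Q ^ 4) := by
      ring
    rw [e]
    have : (0 : ℝ) ≤ 6 * u ^ 2 * Q ^ 2 + 4 * u * Q ^ 3 + Q ^ 4 := by positivity
    linarith
  have h8 : ((Q : ℝ) * S) ^ 3 ≤ u ^ 3 := pow_le_pow_left₀ (by positivity) hu1 3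
  have h9 : H < b * (4 * ((Q : ℝ) * S) ^ 3 * Q) := by
    have g1 : (x / (2 * (4 * Q * b : ℕ))) ^ 3 ≤ (S : ℝ) ^ 3 :=
      pow_le_pow_left₀ (by positivity) hxS 3
    have g2 : (x / (2 * (4 * Q * b : ℕ))) ^ 3 = x ^ 3 / (512 * (Q ^ 3 * b ^ 3)) := by
      push_cast; field_simp; ring
    rw [g2, div_le_iff₀ (by positivity)] at g1
    have g3 : (129 : ℝ) * b ^ 2 ≤ Q := by exact_mod_cast hQbig
    have hS3 : (0 : ℝ) < (S : ℝ) ^ 3 * Q ^ 3 * b := by positivity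
    have g7 : (512 : ℝ) * b ^ 2 < 4 * Q := by nlinarith
    calc H ≤ x ^ 3 := hH
      _ ≤ (S : ℝ) ^ 3 * (512 * (Q ^ 3 * b ^ 3)) := g1
      _ = ((S : ℝ) ^ 3 * Q ^ 3 * b) * (512 * b ^ 2) := by ring
      _ < ((S : ℝ) ^ 3 * Q ^ 3 * b) * (4 * Q) := mul_lt_mul_of_pos_left g7 hS3
      _ = _ := by ring
  have h10 : (b : ℝ) * (4 * ((Q : ℝ) * S) ^ 3 * Q) ≤ b * (4 * u ^ 3 * Q) := by gcongr
  have h11 : (b : ℝ) * (u ^ 4 + 4 * u ^ 3 * Q) ≤ b * ((Q : ℝ) * s' + 1) ^ 4 :=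
    mul_le_mul_of_nonneg_left (h7.trans h6) (by linarith)
  have h12 : (b : ℝ) * (u ^ 4 + 4 * u ^ 3 * Q) = b * u ^ 4 + b * (4 * u ^ 3 * Q) := by ring
  linarith

/-- the count of one cluster -/
lemma clu_count {b M Q K0 S s : ℕ} {H : ℝ} (hb : 0 < b) (hbs : Squarefree b) (hbQ : b ∣ Q)
    (hMQ : M ∣ Q) (hQ : 0 < Q) (hsm : ∀ p : ℕ, p.Prime → p ≤ 200 → p ∣ Q)
    (hs : S < s ∧ s ≤ 2 * S) (hbK : b * K0 ≤ S) (T : Finset ℕ) (hT : T ⊆ Ioc 0 K0)
    (hTB : ∀ k ∈ T, ¬ Bd b Q 200 (4 * Q * S) (s, k))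
    (hH : ((b ^ 3 * Q ^ 4 : ℕ) : ℝ) * ((K0 : ℝ) ^ 4 - 1) ≤ H) :
    T.card ≤ (Clu b M (base b Q K0 s) H).ncard := by
  classical
  have hTk : ∀ k ∈ T, 0 < k ∧ k ≤ K0 := fun k hk => mem_Ioc.1 (hT hk)
  have hbk : ∀ k ∈ T, b * k ≤ S := fun k hk =>
    (Nat.mul_le_mul_left _ (hTk k hk).2).trans hbK
  have hbase := base_cast (Q := Q) hb (show b * K0 < s by omega)
  have hinj : Set.InjOn (fun k => val b Q s k) (T : Set ℕ) := by
    intro k hk k' hk' h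
    rw [mem_coe] at hk hk'
    have h0 : val b Q s k = val b Q s k' := h
    have h1 := val_cast (Q := Q) (show b * k < s by have := hbk k hk; omega)
    have h2 := val_cast (Q := Q) (show b * k' < s by have := hbk k' hk'; omega)
    rw [h0, h2] at h1
    have hb0 : (b : ℤ) ≠ 0 := by exact_mod_cast hb.ne'
    have hQ0 : (Q : ℤ) ≠ 0 := by exact_mod_cast hQ.ne'
    have h3 : (b : ℤ) ^ 3 * (Q : ℤ) ^ 4 * (k : ℤ) ^ 4 = b ^ 3 * Q ^ 4 * (k' : ℤ) ^ 4 := by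
      linear_combination h1
    have h4 : (k : ℤ) ^ 4 = (k' : ℤ) ^ 4 := mul_left_cancel₀ (by positivity) h3
    have h5 : k ^ 4 = k' ^ 4 := by exact_mod_cast h4
    exact Nat.pow_left_injective (n := 4) (by norm_num) h5
  rw [← card_image_of_injOn hinj, ← Set.ncard_coe_finset]
  apply Set.ncard_le_ncard
  · intro n hn
    rw [mem_coe, mem_image] at hn
    obtain ⟨k, hk, rfl⟩ := hn
    have hks : b * k < s := by have := hbk k hk; omega
    have h1 := val_cast (Q := Q) hks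
    have hkK := hTk k hk
    have hk4 : (k : ℤ) ^ 4 ≤ (K0 : ℤ) ^ 4 := by
      exact_mod_cast Nat.pow_le_pow_left hkK.2 4
    have hk1 : (1 : ℝ) ≤ (k : ℝ) ^ 4 := by
      have : 1 ≤ k ^ 4 := Nat.one_le_pow _ _ hkK.1
      exact_mod_cast this
    refine ⟨?_, ?_, val_mod hMQ hks, ?_, val_cong hb hQ hkK.1 hks⟩
    · have h2 : ((base b Q K0 s : ℕ) : ℤ) ≤ ((val b Q s k : ℕ) : ℤ) := by
        rw [hbase, h1]
        have h3 : (0 : ℤ) ≤ (b : ℤ) ^ 3 * Q ^ 4 * ((K0 : ℤ) ^ 4 - k ^ 4) :=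
          mul_nonneg (by positivity) (by linarith)
        nlinarith
      exact_mod_cast h2
    · have h1' : ((val b Q s k : ℕ) : ℝ) = b * ((Q * s + 1) ^ 4 - b ^ 2 * (Q * k) ^ 4) := by
        exact_mod_cast h1
      have h2' : ((base b Q K0 s : ℕ) : ℝ) = b * (Q * s + 1) ^ 4 - b ^ 3 * (Q * K0) ^ 4 := by
        exact_mod_cast hbase
      show ((val b Q s k : ℕ) : ℝ) ≤ (base b Q K0 s : ℕ) + H
      rw [h1', h2']
      push_cast at hH
      have h3 : (b : ℝ) ^ 3 * Q ^ 4 * 1 ≤ b ^ 3 * Q ^ 4 * (k : ℝ) ^ 4 :=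
        mul_le_mul_of_nonneg_left hk1 (by positivity)
      have h4 : (b : ℝ) * ((Q * s + 1) ^ 4 - b ^ 2 * (Q * k) ^ 4) =
        b * (Q * s + 1) ^ 4 - b ^ 3 * Q ^ 4 * (k : ℝ) ^ 4 := by ring
      have h5 : (b : ℝ) * (Q * s + 1) ^ 4 - b ^ 3 * (Q * K0) ^ 4 =
        b * (Q * s + 1) ^ 4 - b ^ 3 * Q ^ 4 * (K0 : ℝ) ^ 4 := by ring
      rw [h4, h5]
      linarith
    · exact sf_of_not_bd hbs hbQ hQ (by norm_num) hsm hs (hbk k hk) (hTB k hk)
  · apply (Set.finite_Iic ⌊((base b Q K0 s : ℕ) : ℝ) + H⌋₊).subset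
    intro n hn
    exact Nat.le_floor hn.2.1

/-- the number of admissible `k` -/
lemma ex_K0 {b S D : ℕ} {H : ℝ} (hS : b ≤ S) (hD : 1 ≤ D) (hH0 : 0 ≤ H)
    (hbz : (b : ℝ) * (H / D) ^ (1 / 4 : ℝ) ≤ S) :
    ∃ K0 : ℕ, 1 ≤ K0 ∧ (H / D) ^ (1 / 4 : ℝ) / 2 ≤ K0 ∧ (D : ℝ) * ((K0 : ℝ) ^ 4 - 1) ≤ H ∧
      b * K0 ≤ S := by
  have hDr : (1 : ℝ) ≤ D := by exact_mod_cast hD
  set z : ℝ := (H / D) ^ (1 / 4 : ℝ) with hz
  have hz0 : 0 ≤ z := by positivity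
  have hz4 : z ^ 4 = H / D := by
    rw [hz, ← Real.rpow_natCast, ← Real.rpow_mul (by positivity)]; norm_num
  rcases Nat.lt_or_ge ⌊z⌋₊ 1 with h | h
  · refine ⟨1, le_rfl, ?_, by norm_num; exact hH0, by rw [mul_one]; exact hS⟩
    have h1 : z < ⌊z⌋₊ + 1 := Nat.lt_floor_add_one _
    have h2 : ⌊z⌋₊ = 0 := by omega
    rw [h2] at h1
    push_cast at h1 ⊢
    linarith
  · refine ⟨⌊z⌋₊, h, ?_, ?_, ?_⟩
    · have h1 : z < ⌊z⌋₊ + 1 := Nat.lt_floor_add_one _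
      have h2 : (1 : ℝ) ≤ ⌊z⌋₊ := by exact_mod_cast h
      linarith
    · have h2 : ((⌊z⌋₊ : ℕ) : ℝ) ≤ z := Nat.floor_le hz0
      have h3 : ((⌊z⌋₊ : ℕ) : ℝ) ^ 4 ≤ H / D := by
        rw [← hz4]; exact pow_le_pow_left₀ (by positivity) h2 4
      rw [le_div_iff₀ (by linarith)] at h3
      linarith
    · have h2 : ((⌊z⌋₊ : ℕ) : ℝ) ≤ z := Nat.floor_le hz0
      have h3 : ((b * ⌊z⌋₊ : ℕ) : ℝ) ≤ S := by
        push_cast
        exact (mul_le_mul_of_nonneg_left h2 (Nat.cast_nonneg _)).trans hbz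
      exact_mod_cast h3

theorem dense (b M : ℕ) (hb : 0 < b) (hbs : Squarefree b) (hM : 0 < M) :
    ∃ c : ℝ, 0 < c ∧ ∃ X₀ : ℝ, ∀ X : ℝ, X₀ ≤ X → ∀ H : ℝ, 0 ≤ H → H ≤ X ^ (3 / 4 : ℝ) →
      ∃ 𝒩 : Finset ℕ, c * X ^ (1 / 4 : ℝ) ≤ (𝒩.card : ℝ) ∧ (∀ N ∈ 𝒩, (N : ℝ) + H ≤ X) ∧
        (∀ N ∈ 𝒩, ∀ N' ∈ 𝒩, N < N' → (N : ℝ) + H < N') ∧
        ∀ N ∈ 𝒩, max 1 (c * H ^ (1 / 4 : ℝ)) ≤ ((Clu b M N H).ncard : ℝ) := by
  classical
  obtain ⟨F, hF, hFp⟩ := ex_fac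
  obtain ⟨Q, hQd⟩ : ∃ Q : ℕ, Q = b ^ 3 * M * F := ⟨_, rfl⟩
  have hQ : 0 < Q := by rw [hQd]; exact Nat.mul_pos (by positivity) (by omega)
  have hbQ : b ∣ Q := ⟨b ^ 2 * M * F, by rw [hQd]; ring⟩
  have hMQ : M ∣ Q := ⟨b ^ 3 * F, by rw [hQd]; ring⟩
  have hQbig : 129 * b ^ 2 ≤ Q := by
    rw [hQd]
    calc 129 * b ^ 2 = b ^ 2 * 1 * 129 := by ring
      _ ≤ b ^ 3 * M * F := by
          apply Nat.mul_le_mul _ hF
          exact Nat.mul_le_mul (Nat.pow_le_pow_right hb (by norm_num)) hM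
  have hsm : ∀ p : ℕ, p.Prime → p ≤ 200 → p ∣ Q := fun p hp hpk =>
    (hFp p hp hpk).trans ⟨b ^ 3 * M, by rw [hQd]; ring⟩
  clear hQd
  obtain ⟨A, hA⟩ : ∃ A : ℕ, A = 4 * Q * b := ⟨_, rfl⟩
  obtain ⟨D, hD⟩ : ∃ D : ℕ, D = b ^ 3 * Q ^ 4 := ⟨_, rfl⟩
  have hA0 : 0 < A := by rw [hA]; positivity
  have hD0 : 0 < D := by rw [hD]; positivity
  have hAr : (1 : ℝ) ≤ A := by exact_mod_cast hA0
  have hDr : (1 : ℝ) ≤ D := by exact_mod_cast hD0
  have hbr : (1 : ℝ) ≤ b := by exact_mod_cast hb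
  have hQr : (1 : ℝ) ≤ Q := by exact_mod_cast hQ
  obtain ⟨S1, hS1⟩ := eventually_atTop.1 (pi_small (4 * Q) (by positivity) (1 / 128) (by norm_num))
  have e1 : Tendsto (fun X : ℝ => X ^ (1 / 4 : ℝ)) atTop atTop := tendsto_rpow_atTop (by norm_num)
  have e2 : Tendsto (fun X : ℝ => X ^ (1 / 16 : ℝ)) atTop atTop := tendsto_rpow_atTop (by norm_num)
  obtain ⟨X₀, hX₀⟩ := eventually_atTop.1 ((eventually_ge_atTop (1 : ℝ)).and
    ((e1.eventually_ge_atTop (A * (S1 + 2 + b) : ℝ)).and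
      ((e2.eventually_ge_atTop (2 * A * b : ℝ)).and (e1.eventually_ge_atTop (2 : ℝ)))))
  refine ⟨min (1 / (4 * D)) (1 / (4 * A)), by positivity, X₀, ?_⟩
  intro X hX H hH0 hHX
  obtain ⟨hX1, hXa, hXb, hXc⟩ := hX₀ X hX
  have hX0 : (0 : ℝ) < X := by linarith
  set x : ℝ := X ^ (1 / 4 : ℝ) with hx
  have hx0 : 0 < x := by positivity
  have hx4 : x ^ 4 = X := by
    rw [hx, ← Real.rpow_natCast, ← Real.rpow_mul hX0.le]; norm_num
  have hx3 : X ^ (3 / 4 : ℝ) = x ^ 3 := by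
    rw [hx, ← Real.rpow_natCast, ← Real.rpow_mul hX0.le]; norm_num
  obtain ⟨S, hS⟩ : ∃ S : ℕ, S = ⌊x / A⌋₊ := ⟨_, rfl⟩
  have hSle : (S : ℝ) ≤ x / A := by rw [hS]; exact Nat.floor_le (by positivity)
  have hSgt : x / A < S + 1 := by rw [hS]; exact Nat.lt_floor_add_one _
  have hS1r : (0 : ℝ) ≤ S1 := Nat.cast_nonneg _
  have hxA : (S1 : ℝ) + 2 + b ≤ x / A := by
    rw [le_div_iff₀ (by linarith)]; linarith
  have hShalf : x / (2 * A) ≤ S := by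
    have h : x / (2 * A) = (x / A) / 2 := by field_simp
    rw [h]
    linarith
  have hS1S : S1 ≤ S ∧ b ≤ S := by
    constructor
    · have : (S1 : ℝ) ≤ S := by linarith
      exact_mod_cast this
    · have : (b : ℝ) ≤ S := by linarith
      exact_mod_cast this
  have hS0 : 0 < S := lt_of_lt_of_le hb hS1S.2
  have hbz : (b : ℝ) * (H / D) ^ (1 / 4 : ℝ) ≤ S := by
    have h4 : (H / D) ^ (1 / 4 : ℝ) ≤ X ^ (3 / 16 : ℝ) := by
      calc (H / D) ^ (1 / 4 : ℝ) ≤ (X ^ (3 / 4 : ℝ)) ^ (1 / 4 : ℝ) := by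
            apply Real.rpow_le_rpow (by positivity) _ (by norm_num)
            exact (div_le_self hH0 hDr).trans hHX
        _ = X ^ (3 / 16 : ℝ) := by rw [← Real.rpow_mul hX0.le]; norm_num
    have h5 : x = X ^ (3 / 16 : ℝ) * X ^ (1 / 16 : ℝ) := by
      rw [hx, ← Real.rpow_add hX0]; norm_num
    have h6 : (b : ℝ) * X ^ (3 / 16 : ℝ) ≤ x / (2 * A) := by
      rw [le_div_iff₀ (by positivity), h5]
      have h7 : (0 : ℝ) ≤ X ^ (3 / 16 : ℝ) := by positivity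
      nlinarith [mul_le_mul_of_nonneg_left hXb h7]
    have h8 : (b : ℝ) * (H / D) ^ (1 / 4 : ℝ) ≤ b * X ^ (3 / 16 : ℝ) :=
      mul_le_mul_of_nonneg_left h4 (by linarith)
    linarith
  obtain ⟨K0, hK1, hKz, hKH, hbK⟩ := ex_K0 hS1S.2 hD0 hH0 hbz
  have hKS : K0 ≤ S := (Nat.le_mul_of_pos_left _ hb).trans hbK
  obtain ⟨𝒮, h𝒮, h𝒮c, hgood⟩ := good_s b Q S K0 hKS (hS1 S hS1S.1)
  have hsS : ∀ s ∈ 𝒮, S < s ∧ s ≤ 2 * S := fun s hs => mem_Ioc.1 (h𝒮 hs)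
  have hsep : ∀ s ∈ 𝒮, ∀ s' ∈ 𝒮, s < s' → (base b Q K0 s : ℝ) + H < base b Q K0 s' := by
    intro s hs s' hs' hss
    have g1 := hsS s hs
    have g2 := hsS s' hs'
    exact base_sep hb hS0 hQbig hx0 (by rw [← hA]; exact hShalf) (by rw [← hx3]; exact hHX)
      (by omega) (by omega) g1.1.le hss
  have hinj : Set.InjOn (base b Q K0) (𝒮 : Set ℕ) := by
    intro s hs s' hs' h
    rcases lt_trichotomy s s' with h1 | h1 | h1
    · have := hsep s hs s' hs' h1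
      rw [h] at this
      linarith
    · exact h1
    · have := hsep s' hs' s hs h1
      rw [h] at this
      linarith
  refine ⟨𝒮.image (base b Q K0), ?_, ?_, ?_, ?_⟩
  · rw [card_image_of_injOn hinj]
    have h1 : (S : ℝ) ≤ 2 * 𝒮.card := by exact_mod_cast h𝒮c
    have h2 : min (1 / (4 * (D : ℝ))) (1 / (4 * A)) * x ≤ 1 / (4 * A) * x :=
      mul_le_mul_of_nonneg_right (min_le_right _ _) hx0.le
    have h3 : 1 / (4 * (A : ℝ)) * x = x / (2 * A) / 2 := by field_simp; norm_num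
    linarith
  · intro N hN
    rw [mem_image] at hN
    obtain ⟨s, hs, rfl⟩ := hN
    have g1 := hsS s hs
    have h1 : ((base b Q K0 s : ℕ) : ℝ) ≤ b * (3 * Q * S) ^ 4 := by
      have h2 : base b Q K0 s ≤ b * (3 * Q * S) ^ 4 := by
        refine (Nat.sub_le _ _).trans (Nat.mul_le_mul_left _ (Nat.pow_le_pow_left ?_ 4))
        have h3 : Q * s ≤ Q * (2 * S) := Nat.mul_le_mul_left _ g1.2
        have h4 : 1 ≤ Q * S := Nat.mul_pos hQ hS0
        nlinarith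
      exact_mod_cast h2
    have h2 : (b : ℝ) * (3 * Q * S) ^ 4 ≤ 81 / 256 * x ^ 4 := by
      have h3 : (S : ℝ) ^ 4 ≤ (x / A) ^ 4 := pow_le_pow_left₀ (by positivity) hSle 4
      have h4 : (x / A) ^ 4 = x ^ 4 / (256 * Q ^ 4 * b ^ 4) := by
        rw [hA]; push_cast; field_simp; ring
      rw [h4, le_div_iff₀ (by positivity)] at h3
      have h5 : (b : ℝ) ≤ b ^ 4 := le_self_pow₀ hbr (by norm_num)
      have h6 : (0 : ℝ) ≤ (S : ℝ) ^ 4 * Q ^ 4 := by positivity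
      calc (b : ℝ) * (3 * Q * S) ^ 4 = 81 * ((S : ℝ) ^ 4 * Q ^ 4 * b) := by ring
        _ ≤ 81 * ((S : ℝ) ^ 4 * Q ^ 4 * b ^ 4) := by
            apply mul_le_mul_of_nonneg_left _ (by norm_num)
            exact mul_le_mul_of_nonneg_left h5 h6
        _ = 81 / 256 * (S ^ 4 * (256 * Q ^ 4 * b ^ 4)) := by ring
        _ ≤ _ := mul_le_mul_of_nonneg_left h3 (by norm_num)
    have h3 : x ^ 3 ≤ x ^ 4 / 2 := by
      have : x ^ 4 = x ^ 3 * x := by ring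
      rw [this]
      have h5 : 0 < x ^ 3 := by positivity
      nlinarith
    rw [hx3] at hHX
    rw [← hx4]
    have h6 : 0 < x ^ 4 := by positivity
    linarith
  · intro N hN N' hN' hlt
    rw [mem_image] at hN hN'
    obtain ⟨s, hs, rfl⟩ := hN
    obtain ⟨s', hs', rfl⟩ := hN'
    apply hsep s hs s' hs'
    by_contra h
    rcases lt_or_eq_of_le (not_lt.1 h) with h1 | h1
    · have h2 := hsep s' hs' s hs h1
      have h3 : ((base b Q K0 s : ℕ) : ℝ) < base b Q K0 s' := by exact_mod_cast hlt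
      linarith
    · rw [h1] at hlt
      exact lt_irrefl _ hlt
  · intro N hN
    rw [mem_image] at hN
    obtain ⟨s, hs, rfl⟩ := hN
    obtain ⟨T, hT, hTc, hTB⟩ := hgood s hs
    have h1 := clu_count (M := M) hb hbs hbQ hMQ hQ hsm (hsS s hs) hbK T hT hTB
      (H := H) (by rw [← hD]; exact hKH)
    have h2 : ((T.card : ℕ) : ℝ) ≤ ((Clu b M (base b Q K0 s) H).ncard : ℝ) := by exact_mod_cast h1
    refine le_trans ?_ h2
    apply max_le
    · have : 1 ≤ T.card := by omega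
      exact_mod_cast this
    · have h3 : (K0 : ℝ) ≤ 2 * T.card := by exact_mod_cast hTc
      have h4 : H ^ (1 / 4 : ℝ) ≤ D * (H / D) ^ (1 / 4 : ℝ) := by
        have h5 : H = H / D * D := by field_simp
        calc H ^ (1 / 4 : ℝ) = (H / D * D) ^ (1 / 4 : ℝ) := by rw [← h5]
          _ = (H / D) ^ (1 / 4 : ℝ) * (D : ℝ) ^ (1 / 4 : ℝ) :=
              Real.mul_rpow (by positivity) (by positivity)
          _ ≤ (H / D) ^ (1 / 4 : ℝ) * D := by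
              apply mul_le_mul_of_nonneg_left _ (by positivity)
              calc (D : ℝ) ^ (1 / 4 : ℝ) ≤ (D : ℝ) ^ (1 : ℝ) :=
                    Real.rpow_le_rpow_of_exponent_le hDr (by norm_num)
                _ = D := Real.rpow_one _
          _ = _ := mul_comm _ _
      have h6 : min (1 / (4 * (D : ℝ))) (1 / (4 * A)) * H ^ (1 / 4 : ℝ) ≤
          1 / (4 * D) * H ^ (1 / 4 : ℝ) :=
        mul_le_mul_of_nonneg_right (min_le_left _ _) (by positivity)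
      have h7 : 1 / (4 * (D : ℝ)) * H ^ (1 / 4 : ℝ) ≤
          1 / (4 * D) * (D * (H / D) ^ (1 / 4 : ℝ)) :=
        mul_le_mul_of_nonneg_left h4 (by positivity)
      have h8 : 1 / (4 * (D : ℝ)) * (D * (H / D) ^ (1 / 4 : ℝ)) =
          (H / D) ^ (1 / 4 : ℝ) / 2 / 2 := by
        field_simp
        norm_num
        ring
      linarith

end Pool.Agent.T2H56.CT
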