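import Mathlib
import Pool.Agent.Y887.QE.QSv
import Pool.Agent.T2H56.CT.Cg

/-!
Pairs of squarefree congruent numbers with difference 7 (helper56): the sieve for two linear forms
and two quadratic polynomials.
-/

set_option autoImplicit false
set_option maxHeartbeats 4000000

namespace Pool.Agent.T2H56.CT

open Finset Filter Pool.Agent.Y887.QE

open Classical in
/-- few values of `n` are divisible by the square of a large prime -/
lemma lin_few (C K A : ℕ) (hK : 1 ≤ K) : ∀ᶠ X : ℕ in atTop,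
    (((Ioc 0 (C * X)).filter (fun n : ℕ => ∃ p : ℕ, p.Prime ∧ X < p ^ K ∧ p ^ 2 ∣ n)).card : ℝ) ≤
      X / Real.log X ^ A := by
  have hKr : (0 : ℝ) < 1 / K := by
    have : (0 : ℝ) < K := by exact_mod_cast hK
    positivity
  have h1 : (fun x : ℝ => Real.log x ^ A) =o[atTop] fun x => x ^ (1 / K : ℝ) :=
    (isLittleO_log_rpow_rpow_atTop ((A : ℕ) : ℝ) hKr).congr_left
      fun x => Real.rpow_natCast _ _
  have h2 := h1.bound (show (0 : ℝ) < 1 / (2 * (C + 1)) by positivity)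
  have h3 : ∀ᶠ X : ℕ in atTop, ‖Real.log (X : ℝ) ^ A‖ ≤ 1 / (2 * (C + 1)) * ‖(X : ℝ) ^ (1 / K : ℝ)‖ :=
    tendsto_natCast_atTop_atTop.eventually h2
  filter_upwards [h3, eventually_ge_atTop 3] with X hX hX3
  have hX0 : (0 : ℝ) < X := by exact_mod_cast (by omega : 0 < X)
  have hlog : 0 < Real.log X := Real.log_pos (by exact_mod_cast (by omega : 1 < X))
  set z : ℝ := (X : ℝ) ^ (1 / K : ℝ) with hz
  have hz0 : 0 < z := by positivity
  rw [Real.norm_of_nonneg (by positivity), Real.norm_of_nonneg hz0.le] at hX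
  have hzK : z ^ K = X := by
    rw [hz, ← Real.rpow_natCast, ← Real.rpow_mul hX0.le]
    have : (1 / K : ℝ) * ((K : ℕ) : ℝ) = 1 := by
      have : (0 : ℝ) < K := by exact_mod_cast hK
      field_simp
    rw [this, Real.rpow_one]
  set w : ℕ := ⌊z⌋₊ with hw
  have hwz : z < w + 1 := Nat.lt_floor_add_one _
  have hsub : (Ioc 0 (C * X)).filter (fun n : ℕ => ∃ p : ℕ, p.Prime ∧ X < p ^ K ∧ p ^ 2 ∣ n) ⊆
      (Ioo w (C * X + 1)).biUnion (fun p => (Ioc 0 (C * X)).filter (fun n => p ^ 2 ∣ n)) := by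
    intro n hn
    rw [mem_filter, mem_Ioc] at hn
    obtain ⟨⟨hn0, hnX⟩, p, hp, hpX, hpn⟩ := hn
    rw [mem_biUnion]
    refine ⟨p, mem_Ioo.2 ⟨?_, ?_⟩, mem_filter.2 ⟨mem_Ioc.2 ⟨hn0, hnX⟩, hpn⟩⟩
    · have h4 : z < p := by
        by_contra hle
        push Not at hle
        have h5 : (p : ℝ) ^ K ≤ z ^ K := pow_le_pow_left₀ (by positivity) hle K
        rw [hzK] at h5
        have h6 : p ^ K ≤ X := by exact_mod_cast h5
        omega
      have h7 : (w : ℝ) ≤ z := Nat.floor_le hz0.le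
      exact_mod_cast h7.trans_lt h4
    · have h4 := Nat.le_of_dvd hn0 hpn
      have h5 : p ≤ p ^ 2 := Nat.le_self_pow (by norm_num) p
      omega
  have hcard : (((Ioc 0 (C * X)).filter
      (fun n : ℕ => ∃ p : ℕ, p.Prime ∧ X < p ^ K ∧ p ^ 2 ∣ n)).card : ℝ) ≤
      ∑ p ∈ Ioo w (C * X + 1), (C * X : ℝ) * ((p : ℝ) ^ 2)⁻¹ := by
    have h4 := (card_le_card hsub).trans card_biUnion_le
    have h5 : (((Ioc 0 (C * X)).filter
      (fun n : ℕ => ∃ p : ℕ, p.Prime ∧ X < p ^ K ∧ p ^ 2 ∣ n)).card : ℝ) ≤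
      ((∑ p ∈ Ioo w (C * X + 1), ((Ioc 0 (C * X)).filter (fun n => p ^ 2 ∣ n)).card : ℕ) : ℝ) := by
      exact_mod_cast h4
    refine h5.trans ?_
    push_cast
    apply sum_le_sum
    intro p _
    rw [Nat.Ioc_filter_dvd_card_eq_div]
    have h6 : ((C * X / p ^ 2 : ℕ) : ℝ) ≤ ((C * X : ℕ) : ℝ) / ((p ^ 2 : ℕ) : ℝ) := Nat.cast_div_le
    refine h6.trans (le_of_eq ?_)
    push_cast
    rw [div_eq_mul_inv]
  refine hcard.trans ?_
  rw [← mul_sum]
  have h8 : ∑ p ∈ Ioo w (C * X + 1), ((p : ℝ) ^ 2)⁻¹ ≤ 2 / (w + 1) := by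
    exact_mod_cast sum_Ioo_inv_sq_le w (C * X + 1)
  calc (C * X : ℝ) * ∑ p ∈ Ioo w (C * X + 1), ((p : ℝ) ^ 2)⁻¹ ≤ (C * X : ℝ) * (2 / (w + 1)) :=
        mul_le_mul_of_nonneg_left h8 (by positivity)
    _ ≤ (C * X : ℝ) * (2 / z) := by
        apply mul_le_mul_of_nonneg_left _ (by positivity)
        exact div_le_div_of_nonneg_left (by norm_num) hz0 hwz.le
    _ ≤ X / Real.log X ^ A := by
        rw [le_div_iff₀ (by positivity)]
        have e1 : (C * X : ℝ) * (2 / z) * Real.log X ^ A ≤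
            (C * X : ℝ) * (2 / z) * (1 / (2 * (C + 1)) * z) :=
          mul_le_mul_of_nonneg_left hX (by positivity)
        have e2 : (C * X : ℝ) * (2 / z) * (1 / (2 * (C + 1)) * z) = X * (C / (C + 1)) := by
          field_simp
        have e3 : (C : ℝ) / (C + 1) ≤ 1 := by
          rw [div_le_one (by positivity)]; linarith
        have e4 : (X : ℝ) * (C / (C + 1)) ≤ X * 1 := mul_le_mul_of_nonneg_left e3 hX0.le
        linarith

open Classical in
/-- a linear form which is prime to `Q` -/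
lemma lin_good {Q α β : ℕ} {v : ℕ → ℕ}
    (hv' : (∀ m, ((v m : ℕ) : ℤ) = α * m + (β : ℤ)) ∨ (∀ m, ((v m : ℕ) : ℤ) = α * m - (β : ℤ)))
    (hα : ∀ p : ℕ, p.Prime → p ∣ α → p ∣ Q) (hn : ∀ m p, p.Prime → p ∣ Q → ¬ p ∣ v m) :
    (∀ p n, p.Prime → (p ∣ v n ↔ p ∣ v (n % p))) ∧
      ∀ p, p.Prime → ((range p).filter (fun r => p ∣ v r)).card ≤ 2 := by
  have hdiff : ∀ m m' : ℕ, ((v m : ℕ) : ℤ) - ((v m' : ℕ) : ℤ) = α * ((m : ℤ) - m') := by
    intro m m'
    rcases hv' with h | h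
    · rw [h m, h m']; ring
    · rw [h m, h m']; ring
  constructor
  · intro p n hp
    have h1 : (p : ℤ) ∣ ((v n : ℕ) : ℤ) - ((v (n % p) : ℕ) : ℤ) := by
      rw [hdiff]
      have : (p : ℤ) ∣ (n : ℤ) - ((n % p : ℕ) : ℤ) :=
        (Nat.modEq_iff_dvd.1 (Nat.mod_modEq n p))
      exact this.mul_left _
    constructor
    · intro h2
      have h3 : (p : ℤ) ∣ ((v n : ℕ) : ℤ) := by exact_mod_cast h2
      have h4 := dvd_sub h3 h1
      rw [sub_sub_cancel] at h4
      exact_mod_cast h4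
    · intro h2
      have h3 : (p : ℤ) ∣ ((v (n % p) : ℕ) : ℤ) := by exact_mod_cast h2
      have h4 := dvd_add h1 h3
      rw [sub_add_cancel] at h4
      exact_mod_cast h4
  · intro p hp
    by_cases hpQ : p ∣ Q
    · have : (range p).filter (fun r => p ∣ v r) = ∅ := by
        rw [filter_eq_empty_iff]
        intro r _
        exact hn r p hp hpQ
      rw [this]
      simp
    · have hpα : ¬ (p : ℤ) ∣ (α : ℤ) := fun h => hpQ (hα p hp (by exact_mod_cast h))
      have hpp : Prime (p : ℤ) := Nat.prime_iff_prime_int.1 hp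
      refine le_trans ?_ (by norm_num : 1 ≤ 2)
      rw [card_le_one]
      intro a ha b hb
      rw [mem_filter, mem_range] at ha hb
      have h1 : (p : ℤ) ∣ ((v a : ℕ) : ℤ) := by exact_mod_cast ha.2
      have h2 : (p : ℤ) ∣ ((v b : ℕ) : ℤ) := by exact_mod_cast hb.2
      have h3 := dvd_sub h1 h2
      rw [hdiff] at h3
      rcases hpp.dvd_or_dvd h3 with h4 | h4
      · exact absurd h4 hpα
      · have h5 : a ≡ b [MOD p] := ((Nat.modEq_iff_dvd).2 h4).symm
        have h6 : a % p = b % p := h5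
        rwa [Nat.mod_eq_of_lt ha.1, Nat.mod_eq_of_lt hb.1] at h6

end Pool.Agent.T2H56.CT
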