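import Mathlib
import Pool.Agent.T2H56.CT.SevA

/-!
Pairs of squarefree congruent numbers with difference 7 (helper56): the local conditions.
-/

set_option autoImplicit false
set_option maxHeartbeats 4000000

namespace Pool.Agent.T2H56.CT

open Finset Filter Pool.Agent.Y887.QE

lemma prime_dvd_Q {p : ℕ} (hp : p.Prime) (h : p ∣ 120120) :
    p = 2 ∨ p = 3 ∨ p = 5 ∨ p = 7 ∨ p = 11 ∨ p = 13 := by
  have h1 : p ∣ 2 * 2 * 2 * 3 * 5 * 7 * 11 * 13 := h.trans (dvd_of_eq (by norm_num))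
  have e : ∀ q : ℕ, q.Prime → p ∣ q → p = q := fun q hq hd =>
    (Nat.prime_dvd_prime_iff_eq hp hq).1 hd
  rcases (hp.dvd_mul).1 h1 with h1 | h1
  swap; · have := e 13 (by norm_num) h1; omega
  rcases (hp.dvd_mul).1 h1 with h1 | h1
  swap; · have := e 11 (by norm_num) h1; omega
  rcases (hp.dvd_mul).1 h1 with h1 | h1
  swap; · have := e 7 (by norm_num) h1; omega
  rcases (hp.dvd_mul).1 h1 with h1 | h1
  swap; · have := e 5 (by norm_num) h1; omega
  rcases (hp.dvd_mul).1 h1 with h1 | h1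
  swap; · have := e 3 (by norm_num) h1; omega
  rcases (hp.dvd_mul).1 h1 with h1 | h1
  swap; · have := e 2 (by norm_num) h1; omega
  rcases (hp.dvd_mul).1 h1 with h1 | h1
  · have := e 2 (by norm_num) h1; omega
  · have := e 2 (by norm_num) h1; omega

lemma small_dvd_Q {p : ℕ} (hp : p.Prime) (h : p ≤ 4 * 4) : p ∣ 120120 := by
  interval_cases p <;> first | (norm_num; done) | (exfalso; revert hp; norm_num)

lemma red_vq {d w m : ℕ} (hd : d ∣ 120120) (h : d ∣ vq 2 (120120 * m + w)) :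
    (d : ℤ) ∣ (w : ℤ) ^ 2 - 2 := by
  rw [dvd_vq] at h
  have h1 : (d : ℤ) ∣ 120120 := by exact_mod_cast hd
  have h2 : (w : ℤ) ^ 2 - 2 = (((120120 * m + w : ℕ) : ℤ) ^ 2 - 2) -
      120120 * (m * (120120 * m + 2 * w)) := by push_cast; ring
  rw [h2]
  exact dvd_sub h (h1.mul_right _)

/-- the quadratic `(120120 m + w) ^ 2 - 2`, divided by `c`, has no prime factor of `120120` -/
structure OkQ (w c : ℕ) : Prop where
  dv : ∀ m, c ∣ vq 2 (120120 * m + w)
  cQ : ∀ p, p.Prime → p ∣ c → p ∣ 120120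
  c0 : 0 < c
  nd : ∀ m p, p.Prime → p ∣ 120120 → ¬ p ∣ vq 2 (120120 * m + w) / c

lemma okQ {w c : ℕ} (hc : c = 1 ∨ c = 2) (h0 : (c : ℤ) ∣ (w : ℤ) ^ 2 - 2)
    (h2 : ¬ ((c * 2 : ℕ) : ℤ) ∣ (w : ℤ) ^ 2 - 2) (h3 : ¬ ((c * 3 : ℕ) : ℤ) ∣ (w : ℤ) ^ 2 - 2)
    (h5 : ¬ ((c * 5 : ℕ) : ℤ) ∣ (w : ℤ) ^ 2 - 2) (h7 : ¬ ((c * 7 : ℕ) : ℤ) ∣ (w : ℤ) ^ 2 - 2)
    (h11 : ¬ ((c * 11 : ℕ) : ℤ) ∣ (w : ℤ) ^ 2 - 2)
    (h13 : ¬ ((c * 13 : ℕ) : ℤ) ∣ (w : ℤ) ^ 2 - 2) : OkQ w c := by
  have hc0 : 0 < c := by omega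
  have hdv : ∀ m, c ∣ vq 2 (120120 * m + w) := by
    intro m
    rw [dvd_vq]
    have h1 : (c : ℤ) ∣ 120120 := by
      rcases hc with rfl | rfl
      · exact one_dvd _
      · norm_num
    have e : (((120120 * m + w : ℕ) : ℤ) ^ 2 - 2) = ((w : ℤ) ^ 2 - 2) +
        120120 * (m * (120120 * m + 2 * w)) := by push_cast; ring
    rw [e]
    exact dvd_add h0 (h1.mul_right _)
  refine ⟨hdv, ?_, hc0, ?_⟩
  · intro p hp hpc
    rcases hc with rfl | rfl
    · exact absurd (Nat.dvd_one.1 hpc) hp.one_lt.ne'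
    · have := (Nat.prime_dvd_prime_iff_eq hp Nat.prime_two).1 hpc
      rw [this]; norm_num
  · intro m p hp hpQ hd
    have h1 : c * p ∣ vq 2 (120120 * m + w) := by
      obtain ⟨k, hk⟩ := hd
      refine ⟨k, ?_⟩
      rw [← Nat.mul_div_cancel' (hdv m), hk]
      ring
    have hcp : c * p ∣ 120120 := by
      rcases hc with rfl | rfl
      · rw [one_mul]; exact hpQ
      · rcases prime_dvd_Q hp hpQ with rfl | rfl | rfl | rfl | rfl | rfl <;> norm_num
    have h4 := red_vq hcp h1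
    rcases prime_dvd_Q hp hpQ with rfl | rfl | rfl | rfl | rfl | rfl
    · exact h2 h4
    · exact h3 h4
    · exact h5 h4
    · exact h7 h4
    · exact h11 h4
    · exact h13 h4

/-- the linear form `240240 m + w` has no prime factor of `120120` -/
lemma okL {w : ℕ} (h2 : ¬ 2 ∣ w) (h3 : ¬ 3 ∣ w) (h5 : ¬ 5 ∣ w) (h7 : ¬ 7 ∣ w) (h11 : ¬ 11 ∣ w)
    (h13 : ¬ 13 ∣ w) : ∀ m p, p.Prime → p ∣ 120120 → ¬ p ∣ 240240 * m + w := by
  intro m p hp hpQ hd
  have h1 : p ∣ w := by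
    have h4 : p ∣ 240240 * m := (hpQ.mul_left 2).mul_right m
    exact (Nat.dvd_add_right h4).1 hd
  rcases prime_dvd_Q hp hpQ with rfl | rfl | rfl | rfl | rfl | rfl
  · exact h2 h1
  · exact h3 h1
  · exact h5 h1
  · exact h7 h1
  · exact h11 h1
  · exact h13 h1

/-- the local data of one class -/
structure Cls (u c1 c3 r : ℕ) : Prop where
  q1 : OkQ (u - 1) c1
  q3 : OkQ u c3
  l0 : ∀ m p, p.Prime → p ∣ 120120 → ¬ p ∣ 240240 * m + (2 * u + 1)
  l2 : ∀ m p, p.Prime → p ∣ 120120 → ¬ p ∣ 240240 * m + (2 * u - 3)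
  c1c : c1 = 1 ∨ c1 = 2
  c3c : c3 = 1 ∨ c3 = 2
  u3 : 3 ≤ u
  u1 : u < 120120
  md : ∀ m : ℕ, ((2 * (120120 * m + u : ℤ) + 1) * (((120120 * m + u : ℤ) - 1) ^ 2 - 2)) % 8 = r

lemma md_aux (u r : ℕ) (h : ((2 * (u : ℤ) + 1) * (((u : ℤ) - 1) ^ 2 - 2)) % 8 = r) :
    ∀ m : ℕ, ((2 * (120120 * m + u : ℤ) + 1) * (((120120 * m + u : ℤ) - 1) ^ 2 - 2)) % 8 = r := by
  intro m
  rw [← h]
  have e : (2 * (120120 * m + u : ℤ) + 1) * (((120120 * m + u : ℤ) - 1) ^ 2 - 2) =
      (2 * (u : ℤ) + 1) * (((u : ℤ) - 1) ^ 2 - 2) + 8 * (15015 * m * (2 * (120120 * m + u - 1) ^ 2 - 4 +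
        (2 * u + 1) * (120120 * m + 2 * u - 2))) := by
    ring
  rw [e, Int.add_mul_emod_self_left]

lemma cls7 : Cls 40040 1 2 7 where
  q1 := okQ (Or.inl rfl) (by norm_num) (by norm_num) (by norm_num) (by norm_num) (by norm_num)
    (by norm_num) (by norm_num)
  q3 := okQ (Or.inr rfl) (by norm_num) (by norm_num) (by norm_num) (by norm_num) (by norm_num)
    (by norm_num) (by norm_num)
  l0 := okL (by norm_num) (by norm_num) (by norm_num) (by norm_num) (by norm_num) (by norm_num)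
  l2 := okL (by norm_num) (by norm_num) (by norm_num) (by norm_num) (by norm_num) (by norm_num)
  c1c := Or.inl rfl
  c3c := Or.inr rfl
  u3 := by norm_num
  u1 := by norm_num
  md := md_aux _ _ (by norm_num)

lemma cls2 : Cls 25025 2 1 2 where
  q1 := okQ (Or.inr rfl) (by norm_num) (by norm_num) (by norm_num) (by norm_num) (by norm_num)
    (by norm_num) (by norm_num)
  q3 := okQ (Or.inl rfl) (by norm_num) (by norm_num) (by norm_num) (by norm_num) (by norm_num)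
    (by norm_num) (by norm_num)
  l0 := okL (by norm_num) (by norm_num) (by norm_num) (by norm_num) (by norm_num) (by norm_num)
  l2 := okL (by norm_num) (by norm_num) (by norm_num) (by norm_num) (by norm_num) (by norm_num)
  c1c := Or.inr rfl
  c3c := Or.inl rfl
  u3 := by norm_num
  u1 := by norm_num
  md := md_aux _ _ (by norm_num)

lemma cls3 : Cls 10010 1 2 3 where
  q1 := okQ (Or.inl rfl) (by norm_num) (by norm_num) (by norm_num) (by norm_num) (by norm_num)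
    (by norm_num) (by norm_num)
  q3 := okQ (Or.inr rfl) (by norm_num) (by norm_num) (by norm_num) (by norm_num) (by norm_num)
    (by norm_num) (by norm_num)
  l0 := okL (by norm_num) (by norm_num) (by norm_num) (by norm_num) (by norm_num) (by norm_num)
  l2 := okL (by norm_num) (by norm_num) (by norm_num) (by norm_num) (by norm_num) (by norm_num)
  c1c := Or.inl rfl
  c3c := Or.inr rfl
  u3 := by norm_num
  u1 := by norm_num
  md := md_aux _ _ (by norm_num)

lemma cls6 : Cls 55055 2 1 6 where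
  q1 := okQ (Or.inr rfl) (by norm_num) (by norm_num) (by norm_num) (by norm_num) (by norm_num)
    (by norm_num) (by norm_num)
  q3 := okQ (Or.inl rfl) (by norm_num) (by norm_num) (by norm_num) (by norm_num) (by norm_num)
    (by norm_num) (by norm_num)
  l0 := okL (by norm_num) (by norm_num) (by norm_num) (by norm_num) (by norm_num) (by norm_num)
  l2 := okL (by norm_num) (by norm_num) (by norm_num) (by norm_num) (by norm_num) (by norm_num)
  c1c := Or.inr rfl
  c3c := Or.inl rfl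
  u3 := by norm_num
  u1 := by norm_num
  md := md_aux _ _ (by norm_num)

end Pool.Agent.T2H56.CT
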