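import Mathlib
import Pool.Agent.T2H56.CT.SevB

/-!
Pairs of squarefree congruent numbers with difference 7 (helper56): final form.
-/

set_option autoImplicit false
set_option maxHeartbeats 4000000

namespace Pool.Agent.T2H56.CT

open Finset Filter Pool.Agent.Y887.QE

/-- elementary asymptotics -/
lemma asymk (k A m0 K1 : ℕ) (hk : 1 ≤ k) (hA : 1 ≤ A) : ∀ᶠ X : ℕ in atTop,
    ∀ Y : ℕ, Y = ⌊(X : ℝ) ^ (1 / k : ℝ) / A⌋₊ →
      (X : ℝ) ^ (1 / k : ℝ) / Real.log X ^ (K1 + 1) + m0 ≤ (Y : ℝ) / Real.log Y ^ K1 ∧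
      X ≤ Y ^ (k + 1) ∧ (A * Y) ^ k ≤ X ∧ m0 ≤ Y := by
  have hA0 : (0 : ℝ) < A := by exact_mod_cast hA
  have hk0 : (0 : ℝ) < k := by exact_mod_cast hk
  have hk1 : (0 : ℝ) < 1 / k := by positivity
  have tX : Tendsto (fun X : ℕ => (X : ℝ)) atTop atTop := tendsto_natCast_atTop_atTop
  have t1 : Tendsto (fun X : ℕ => (X : ℝ) ^ (1 / k : ℝ)) atTop atTop :=
    (tendsto_rpow_atTop hk1).comp tX
  have t2 : Tendsto (fun X : ℕ => (X : ℝ) ^ (1 / k : ℝ) / A) atTop atTop :=
    t1.atTop_div_const hA0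
  have t3 : Tendsto (fun X : ℕ => Real.log X) atTop atTop := Real.tendsto_log_atTop.comp tX
  have t4 : Tendsto (fun X : ℕ => (X : ℝ) ^ (1 / k : ℝ) / Real.log X ^ (K1 + 1)) atTop atTop := by
    have h1 : (fun x : ℝ => Real.log x ^ (K1 + 1)) =o[atTop] fun x => x ^ (1 / k : ℝ) :=
      (isLittleO_log_rpow_rpow_atTop ((K1 + 1 : ℕ) : ℝ) hk1).congr_left
        fun x => Real.rpow_natCast _ _
    have h2 : Tendsto (fun x : ℝ => Real.log x ^ (K1 + 1) / x ^ (1 / k : ℝ)) atTop (nhds 0) :=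
      h1.tendsto_div_nhds_zero
    have h3 : Tendsto (fun x : ℝ => (Real.log x ^ (K1 + 1) / x ^ (1 / k : ℝ))⁻¹) atTop atTop := by
      apply Tendsto.inv_tendsto_nhdsGT_zero
      rw [tendsto_nhdsWithin_iff]
      refine ⟨h2, ?_⟩
      filter_upwards [eventually_gt_atTop 1] with x hx
      have : 0 < Real.log x := Real.log_pos hx
      show 0 < Real.log x ^ (K1 + 1) / x ^ (1 / k : ℝ)
      positivity
    refine (h3.comp tX).congr fun X => ?_
    simp only [Function.comp_apply, inv_div]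
  filter_upwards [t2.eventually_ge_atTop (max 4 (m0 + 1)), t3.eventually_ge_atTop (4 * A + 4 : ℝ),
    t4.eventually_ge_atTop (m0 : ℝ), t1.eventually_ge_atTop ((2 * (A : ℝ)) ^ (k + 1)),
    eventually_ge_atTop 3] with X h2 h3 h4 h1 hX3
  intro Y hY
  have hX0 : (0 : ℝ) < X := by exact_mod_cast (by omega : 0 < X)
  set x : ℝ := (X : ℝ) ^ (1 / k : ℝ) with hx
  have hx0 : 0 < x := by positivity
  have hxk : x ^ k = X := by
    rw [hx, ← Real.rpow_natCast, ← Real.rpow_mul hX0.le]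
    have : (1 / k : ℝ) * ((k : ℕ) : ℝ) = 1 := by field_simp
    rw [this, Real.rpow_one]
  have hYle : (Y : ℝ) ≤ x / A := by rw [hY]; exact Nat.floor_le (by positivity)
  have hYgt : x / A < Y + 1 := by rw [hY]; exact Nat.lt_floor_add_one _
  have h2a : (4 : ℝ) ≤ x / A := (le_max_left _ _).trans h2
  have h2b : (m0 + 1 : ℝ) ≤ x / A := (le_max_right _ _).trans h2
  have hYhalf : x / (2 * A) ≤ Y := by
    have : x / (2 * A) = (x / A) / 2 := by field_simp
    rw [this]
    linarith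
  have hY3 : (3 : ℝ) ≤ Y := by linarith
  have hm0Y : m0 ≤ Y := by
    have : (m0 : ℝ) ≤ Y := by linarith
    exact_mod_cast this
  have hA1 : (1 : ℝ) ≤ A := by exact_mod_cast hA
  have hYX : (Y : ℝ) ≤ X := by
    have h5 : x / A ≤ x := div_le_self hx0.le hA1
    have hx1 : 1 ≤ x := by linarith
    have h6 : x ≤ x ^ k := le_self_pow₀ hx1 (by omega)
    linarith
  have hlogY : 1 ≤ Real.log Y := by
    have : Real.exp 1 ≤ Y := by
      have := Real.exp_one_lt_d9
      linarith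
    rw [Real.le_log_iff_exp_le (by linarith)]
    exact this
  have hlogle : Real.log Y ≤ Real.log X := Real.log_le_log (by linarith) hYX
  refine ⟨?_, ?_, ?_, hm0Y⟩
  · have hL : 0 < Real.log X := by linarith
    have e1 : (Y : ℝ) / Real.log X ^ K1 ≤ (Y : ℝ) / Real.log Y ^ K1 := by
      apply div_le_div_of_nonneg_left (by linarith) (by positivity)
      exact pow_le_pow_left₀ (by linarith) hlogle _
    have e2 : 2 * (x / Real.log X ^ (K1 + 1)) ≤ (Y : ℝ) / Real.log X ^ K1 := by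
      have e3 : 2 * (x / Real.log X ^ (K1 + 1)) = (2 * x / Real.log X) / Real.log X ^ K1 := by
        rw [pow_succ]
        field_simp
      rw [e3]
      apply div_le_div_of_nonneg_right _ (by positivity)
      refine le_trans ?_ hYhalf
      rw [div_le_div_iff₀ hL (by positivity)]
      nlinarith
    linarith
  · have e1 : (X : ℝ) ≤ (Y : ℝ) ^ (k + 1) := by
      have e2 : (X : ℝ) ≤ (x / (2 * A)) ^ (k + 1) := by
        rw [← hxk, div_pow, le_div_iff₀ (by positivity), pow_succ x k]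
        exact mul_le_mul_of_nonneg_left h1 (by positivity)
      exact e2.trans (pow_le_pow_left₀ (by positivity) hYhalf (k + 1))
    exact_mod_cast e1
  · have e1 : ((A : ℝ) * Y) ^ k ≤ X := by
      rw [← hxk]
      apply pow_le_pow_left₀ (by positivity)
      rw [mul_comm]
      exact (le_div_iff₀ hA0).1 hYle
    exact_mod_cast e1

/-- the four forms -/
def vv (u c1 c3 : ℕ) : Fin 4 → ℕ → ℕ :=
  ![fun m => 240240 * m + (2 * u + 1), fun m => vq 2 (120120 * m + (u - 1)) / c1,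
    fun m => 240240 * m + (2 * u - 3), fun m => vq 2 (120120 * m + u) / c3]

lemma okQ_good {w c : ℕ} (h : OkQ w c) : (∀ p n, p.Prime →
    (p ∣ vq 2 (120120 * n + w) / c ↔ p ∣ vq 2 (120120 * (n % p) + w) / c)) ∧
      ∀ p, p.Prime → ((range p).filter (fun r => p ∣ vq 2 (120120 * r + w) / c)).card ≤ 2 := by
  have hg := good_quad (ι := Unit) (fun _ => (2 : ℤ)) 120120 (fun _ => w) (fun _ => c)
    (by norm_num) (fun _ => h.dv) (fun _ => h.cQ) (fun _ => h.c0) (fun _ => h.nd)
  refine ⟨fun p n hp => hg.per () p n hp, fun p hp => ?_⟩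
  have := hg.few () p hp
  convert this

lemma vv_good {u c1 c3 r : ℕ} (h : Cls u c1 c3 r) : Good (vv u c1 c3) := by
  classical
  have g0 := lin_good (Q := 120120) (α := 240240) (β := 2 * u + 1)
    (v := fun m => 240240 * m + (2 * u + 1)) (Or.inl fun m => by push_cast; ring)
    (by
      intro p hp hd
      have : p ∣ 2 * 120120 := hd.trans (dvd_of_eq (by norm_num))
      rcases (hp.dvd_mul).1 this with h1 | h1
      · have := (Nat.prime_dvd_prime_iff_eq hp Nat.prime_two).1 h1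
        rw [this]; norm_num
      · exact h1) h.l0
  have g2 := lin_good (Q := 120120) (α := 240240) (β := 2 * u - 3)
    (v := fun m => 240240 * m + (2 * u - 3)) (Or.inl fun m => by push_cast; ring)
    (by
      intro p hp hd
      have : p ∣ 2 * 120120 := hd.trans (dvd_of_eq (by norm_num))
      rcases (hp.dvd_mul).1 this with h1 | h1
      · have := (Nat.prime_dvd_prime_iff_eq hp Nat.prime_two).1 h1
        rw [this]; norm_num
      · exact h1) h.l2
  have g1 := okQ_good h.q1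
  have g3 := okQ_good h.q3
  constructor
  · intro i p n hp
    fin_cases i
    · exact g0.1 p n hp
    · exact g1.1 p n hp
    · exact g2.1 p n hp
    · exact g3.1 p n hp
  · intro i p hp
    fin_cases i
    · exact g0.2 p hp
    · exact g1.2 p hp
    · exact g2.2 p hp
    · exact g3.2 p hp

lemma two_ns : ¬ IsSquare (2 : ℤ) := by
  rintro ⟨r, hr⟩
  have h1 : r < 2 := by nlinarith
  have h2 : -2 < r := by nlinarith
  interval_cases r <;> omega

lemma vv_small {u c1 c3 r : ℕ} (h : Cls u c1 c3 r) {p : ℕ} (hp : p.Prime) (hpQ : p ∣ 120120)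
    (i : Fin 4) (n : ℕ) : ¬ p ∣ vv u c1 c3 i n := by
  fin_cases i
  · exact h.l0 n p hp hpQ
  · exact h.q1.nd n p hp hpQ
  · exact h.l2 n p hp hpQ
  · exact h.q3.nd n p hp hpQ

lemma vv_pos {u c1 c3 r : ℕ} (h : Cls u c1 c3 r) (i : Fin 4) (n : ℕ) : 0 < vv u c1 c3 i n := by
  apply Nat.pos_of_ne_zero
  intro h0
  apply vv_small h Nat.prime_two (by norm_num) i n
  rw [h0]
  exact dvd_zero _

lemma vv_size {u c1 c3 r : ℕ} (h : Cls u c1 c3 r) (i : Fin 4) {m X : ℕ} (hm : m ≤ X)
    (hX : 10 ^ 12 ≤ X) : vv u c1 c3 i m ≤ X ^ 3 := by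
  have hu := h.u1
  have hX3 : 10 ^ 12 * X ^ 2 ≤ X ^ 3 := by
    calc 10 ^ 12 * X ^ 2 ≤ X * X ^ 2 := Nat.mul_le_mul_right _ hX
      _ = X ^ 3 := by ring
  have hXX : X ≤ X ^ 2 := Nat.le_self_pow (by norm_num) X
  have hq : ∀ w c : ℕ, w < 120120 → vq 2 (120120 * m + w) / c ≤ X ^ 3 := by
    intro w c hw
    calc vq 2 (120120 * m + w) / c ≤ vq 2 (120120 * m + w) := Nat.div_le_self _ _
      _ ≤ (120120 * m + w) ^ 2 + (2 : ℤ).natAbs := vq_le _ _
      _ ≤ (240240 * X) ^ 2 + 2 * X ^ 2 := by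
          apply Nat.add_le_add
          · apply Nat.pow_le_pow_left
            omega
          · show 2 ≤ 2 * X ^ 2
            have : 1 ≤ X ^ 2 := Nat.one_le_pow _ _ (by omega)
            omega
      _ = 57715257602 * X ^ 2 := by ring
      _ ≤ 10 ^ 12 * X ^ 2 := Nat.mul_le_mul_right _ (by norm_num)
      _ ≤ _ := hX3
  fin_cases i
  · show 240240 * m + (2 * u + 1) ≤ X ^ 3
    omega
  · exact hq _ _ (by omega)
  · show 240240 * m + (2 * u - 3) ≤ X ^ 3
    omega
  · exact hq _ _ hu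

end Pool.Agent.T2H56.CT
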