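import Mathlib
import Pool.Agent.T2H56.CT.SevC

/-!
Pairs of squarefree congruent numbers with difference 7 (helper56): final form.
-/

set_option autoImplicit false
set_option maxHeartbeats 4000000

namespace Pool.Agent.T2H56.CT

open Finset Filter Pool.Agent.Y887.QE

/-- the number `n` of the pair -/
def nn (V : ℕ) : ℕ := (2 * V + 1) * ((V - 1) ^ 2 - 2)

lemma cong_a {V n : ℕ} (hV : 3 ≤ V) (hn : (n : ℤ) = (2 * V + 1) * ((V - 1) ^ 2 - 2)) : Cong n := by
  have hVq : (3 : ℚ) ≤ V := by exact_mod_cast hV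
  have hn' : (n : ℚ) = (2 * V + 1) * ((V - 1) ^ 2 - 2) := by exact_mod_cast hn
  have h0 : (0 : ℚ) < V := by linarith
  have h1 : (0 : ℚ) < V + 1 := by linarith
  have h2 : (0 : ℚ) < (V - 1) ^ 2 - 2 := by nlinarith
  refine ⟨(V + 1) * ((V - 1) ^ 2 - 2) / V, 2 * V * (2 * V + 1) / (V + 1),
    ((V : ℚ) ^ 4 + (2 * V + 1) ^ 2) / (V * (V + 1)), by positivity, by positivity, by positivity,
    ?_, ?_⟩
  · field_simp
    ring
  · rw [hn']
    field_simp

lemma cong_b {V n : ℕ} (hV : 3 ≤ V) (hn : (n : ℤ) = (2 * V - 3) * (V ^ 2 - 2)) : Cong n := by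
  have hVq : (3 : ℚ) ≤ V := by exact_mod_cast hV
  have hn' : (n : ℚ) = (2 * V - 3) * (V ^ 2 - 2) := by exact_mod_cast hn
  have h0 : (0 : ℚ) < V - 1 := by linarith
  have h1 : (0 : ℚ) < V - 2 := by linarith
  have h2 : (0 : ℚ) < V ^ 2 - 2 := by nlinarith
  have h3 : (0 : ℚ) < 2 * V - 3 := by linarith
  refine ⟨(V ^ 2 - 2) * (V - 2) / (V - 1), 2 * (V - 1) * (2 * V - 3) / (V - 2),
    (((V : ℚ) - 1) ^ 4 + (2 * V - 3) ^ 2) / ((V - 1) * (V - 2)), by positivity, by positivity,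
    by positivity, ?_, ?_⟩
  · field_simp
    ring
  · rw [hn']
    field_simp

/-- the conditions on a pair -/
def PairAt (r R X n : ℕ) : Prop :=
  n ≤ X ∧ n % 8 = r ∧ Squarefree n ∧ Squarefree (n + 7) ∧ Cong n ∧ Cong (n + 7) ∧
    n.primeFactors.card ≤ R ∧ (n + 7).primeFactors.card ≤ R ∧
    ∀ p : ℕ, p.Prime → p ≠ 2 → (p ∣ n ∨ p ∣ n + 7) → X < p ^ R

/-- the facts for one argument -/
lemma pair_facts {u c1 c3 r : ℕ} (h : Cls u c1 c3 r) {m R0 : ℕ}
    (hsq : ∀ i, Squarefree (vv u c1 c3 i m))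
    (hsum : ∑ i, (vv u c1 c3 i m).primeFactors.card ≤ R0) :
    let n := nn (120120 * m + u)
    n % 8 = r ∧ Squarefree n ∧ Squarefree (n + 7) ∧ Cong n ∧ Cong (n + 7) ∧
    n.primeFactors.card ≤ R0 + 1 ∧ (n + 7).primeFactors.card ≤ R0 + 1 ∧
    ∀ p : ℕ, p.Prime → p ≠ 2 → (p ∣ n ∨ p ∣ n + 7) → ∃ i, p ∣ vv u c1 c3 i m := by
  intro n
  obtain ⟨V, hV⟩ : ∃ V : ℕ, V = 120120 * m + u := ⟨_, rfl⟩
  have hu := h.u3
  have hV3 : 3 ≤ V := by omega
  obtain ⟨a0, ha0⟩ : ∃ a0, a0 = vv u c1 c3 0 m := ⟨_, rfl⟩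
  obtain ⟨a1, ha1⟩ : ∃ a1, a1 = vv u c1 c3 1 m := ⟨_, rfl⟩
  obtain ⟨a2, ha2⟩ : ∃ a2, a2 = vv u c1 c3 2 m := ⟨_, rfl⟩
  obtain ⟨a3, ha3⟩ : ∃ a3, a3 = vv u c1 c3 3 m := ⟨_, rfl⟩
  have e0 : (a0 : ℤ) = 2 * V + 1 := by
    rw [ha0, hV]
    show ((240240 * m + (2 * u + 1) : ℕ) : ℤ) = _
    push_cast; ring
  have e2 : (a2 : ℤ) = 2 * V - 3 := by
    rw [ha2, hV]
    show ((240240 * m + (2 * u - 3) : ℕ) : ℤ) = _
    have : 3 ≤ 2 * u := by omega
    push_cast [Nat.cast_sub this]; ring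
  have e1 : ((c1 * a1 : ℕ) : ℤ) = (V - 1) ^ 2 - 2 := by
    have : c1 * a1 = vq 2 (120120 * m + (u - 1)) := by
      rw [ha1]; exact Nat.mul_div_cancel' (h.q1.dv m)
    rw [this]
    unfold vq
    have hw : ((120120 * m + (u - 1) : ℕ) : ℤ) = V - 1 := by
      rw [hV]; push_cast [Nat.cast_sub (show 1 ≤ u by omega)]; ring
    rw [hw, Int.natAbs_of_nonneg]
    have : (3 : ℤ) ≤ V := by exact_mod_cast hV3
    nlinarith
  have e3 : ((c3 * a3 : ℕ) : ℤ) = V ^ 2 - 2 := by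
    have : c3 * a3 = vq 2 (120120 * m + u) := by
      rw [ha3]; exact Nat.mul_div_cancel' (h.q3.dv m)
    rw [this, ← hV]
    unfold vq
    rw [Int.natAbs_of_nonneg]
    have : (3 : ℤ) ≤ V := by exact_mod_cast hV3
    nlinarith
  have hnz : (n : ℤ) = (2 * V + 1) * ((V - 1) ^ 2 - 2) := by
    show ((nn (120120 * m + u) : ℕ) : ℤ) = _
    rw [← hV]
    unfold nn
    have h1 : 2 ≤ (V - 1) ^ 2 := by
      have : 2 ≤ V - 1 := by omega
      nlinarith
    push_cast [Nat.cast_sub h1, Nat.cast_sub (show 1 ≤ V by omega)]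
    ring
  have hn7z : ((n + 7 : ℕ) : ℤ) = (2 * V - 3) * (V ^ 2 - 2) := by
    push_cast
    rw [hnz]; ring
  have hn : n = a0 * (c1 * a1) := by
    have : (n : ℤ) = ((a0 * (c1 * a1) : ℕ) : ℤ) := by
      rw [Nat.cast_mul, e0, e1, hnz]
    exact_mod_cast this
  have hn7 : n + 7 = a2 * (c3 * a3) := by
    have : ((n + 7 : ℕ) : ℤ) = ((a2 * (c3 * a3) : ℕ) : ℤ) := by
      rw [Nat.cast_mul, e2, e3, hn7z]
    exact_mod_cast this
  have n2 : ∀ i, ¬ 2 ∣ vv u c1 c3 i m := fun i => vv_small h Nat.prime_two (by norm_num) i m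
  have p0 : ∀ i, vv u c1 c3 i m ≠ 0 := fun i => (vv_pos h i m).ne'
  have hc1 := h.c1c
  have hc3 := h.c3c
  have sf1 : Squarefree (c1 * a1) := by
    rcases hc1 with h1 | h1
    · rw [h1, one_mul, ha1]; exact hsq 1
    · rw [h1]
      rw [Nat.squarefree_mul ((Nat.Prime.coprime_iff_not_dvd Nat.prime_two).2 (by
        rw [ha1]; exact n2 1))]
      exact ⟨Nat.prime_two.squarefree, by rw [ha1]; exact hsq 1⟩
  have sf3 : Squarefree (c3 * a3) := by
    rcases hc3 with h1 | h1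
    · rw [h1, one_mul, ha3]; exact hsq 3
    · rw [h1]
      rw [Nat.squarefree_mul ((Nat.Prime.coprime_iff_not_dvd Nat.prime_two).2 (by
        rw [ha3]; exact n2 3))]
      exact ⟨Nat.prime_two.squarefree, by rw [ha3]; exact hsq 3⟩
  have cop1 : Nat.Coprime a0 (c1 * a1) := by
    apply Nat.coprime_of_dvd
    intro p hp h1 h2
    have h3 : (p : ℤ) ∣ (a0 : ℤ) := by exact_mod_cast h1
    have h4 : (p : ℤ) ∣ ((c1 * a1 : ℕ) : ℤ) := by exact_mod_cast h2
    rw [e0] at h3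
    rw [e1] at h4
    have h5 : (p : ℤ) ∣ 1 := by
      have e : (1 : ℤ) = 4 * (((V : ℤ) - 1) ^ 2 - 2) - (2 * V + 1) * (2 * V - 5) := by ring
      rw [e]
      exact dvd_sub (h4.mul_left _) (h3.mul_right _)
    have h6 : p ∣ 1 := by exact_mod_cast h5
    exact absurd (Nat.dvd_one.1 h6) hp.one_lt.ne'
  have cop3 : Nat.Coprime a2 (c3 * a3) := by
    apply Nat.coprime_of_dvd
    intro p hp h1 h2
    have h3 : (p : ℤ) ∣ (a2 : ℤ) := by exact_mod_cast h1
    have h4 : (p : ℤ) ∣ ((c3 * a3 : ℕ) : ℤ) := by exact_mod_cast h2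
    rw [e2] at h3
    rw [e3] at h4
    have h5 : (p : ℤ) ∣ 1 := by
      have e : (1 : ℤ) = 4 * ((V : ℤ) ^ 2 - 2) - (2 * V - 3) * (2 * V + 3) := by ring
      rw [e]
      exact dvd_sub (h4.mul_left _) (h3.mul_right _)
    have h6 : p ∣ 1 := by exact_mod_cast h5
    exact absurd (Nat.dvd_one.1 h6) hp.one_lt.ne'
  have hsum' : a0.primeFactors.card + a1.primeFactors.card + a2.primeFactors.card +
      a3.primeFactors.card ≤ R0 := by
    rw [Fin.sum_univ_four] at hsum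
    rw [ha0, ha1, ha2, ha3]
    exact hsum
  have hcpf : ∀ c : ℕ, (c = 1 ∨ c = 2) → c.primeFactors.card ≤ 1 := by
    rintro c (rfl | rfl)
    · simp
    · rw [Nat.Prime.primeFactors Nat.prime_two]; simp
  have hmulpf : ∀ c a : ℕ, (c = 1 ∨ c = 2) → a ≠ 0 →
      (c * a).primeFactors.card ≤ a.primeFactors.card + 1 := by
    intro c a hc ha
    rw [Nat.primeFactors_mul (by omega) ha]
    have := card_union_le c.primeFactors a.primeFactors
    have := hcpf c hc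
    omega
  refine ⟨?_, ?_, ?_, ?_, ?_, ?_, ?_, ?_⟩
  · have := h.md m
    have h1 : (n : ℤ) % 8 = r := by
      rw [hnz, hV]
      push_cast
      exact this
    exact_mod_cast h1
  · rw [hn, Nat.squarefree_mul cop1]
    exact ⟨by rw [ha0]; exact hsq 0, sf1⟩
  · rw [hn7, Nat.squarefree_mul cop3]
    exact ⟨by rw [ha2]; exact hsq 2, sf3⟩
  · exact cong_a hV3 hnz
  · exact cong_b hV3 hn7z
  · have hne : c1 * a1 ≠ 0 := Nat.mul_ne_zero (by omega) (by rw [ha1]; exact p0 1)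
    rw [hn, Nat.primeFactors_mul (by rw [ha0]; exact p0 0) hne]
    have g1 := card_union_le a0.primeFactors (c1 * a1).primeFactors
    have g2 := hmulpf c1 a1 hc1 (by rw [ha1]; exact p0 1)
    omega
  · have hne : c3 * a3 ≠ 0 := Nat.mul_ne_zero (by omega) (by rw [ha3]; exact p0 3)
    rw [hn7, Nat.primeFactors_mul (by rw [ha2]; exact p0 2) hne]
    have g1 := card_union_le a2.primeFactors (c3 * a3).primeFactors
    have g2 := hmulpf c3 a3 hc3 (by rw [ha3]; exact p0 3)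
    omega
  · intro p hp hp2 hd
    have hpc : ∀ c, (c = 1 ∨ c = 2) → ¬ p ∣ c := by
      rintro c (rfl | rfl) hpc
      · exact absurd (Nat.dvd_one.1 hpc) hp.one_lt.ne'
      · exact hp2 ((Nat.prime_dvd_prime_iff_eq hp Nat.prime_two).1 hpc)
    rcases hd with hd | hd
    · rw [hn] at hd
      rcases (hp.dvd_mul).1 hd with h1 | h1
      · exact ⟨0, by rw [← ha0]; exact h1⟩
      · rcases (hp.dvd_mul).1 h1 with h2 | h2
        · exact absurd h2 (hpc c1 hc1)
        · exact ⟨1, by rw [← ha1]; exact h2⟩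
    · rw [hn7] at hd
      rcases (hp.dvd_mul).1 hd with h1 | h1
      · exact ⟨2, by rw [← ha2]; exact h1⟩
      · rcases (hp.dvd_mul).1 h1 with h2 | h2
        · exact absurd h2 (hpc c3 hc3)
        · exact ⟨3, by rw [← ha3]; exact h2⟩

open Classical in
/-- the sieved arguments -/
theorem sev_sieve : ∃ K R0 : ℕ, 1 ≤ K ∧ ∀ u c1 c3 r : ℕ, Cls u c1 c3 r →
    ∀ᶠ X : ℕ in atTop, (X : ℝ) / Real.log X ^ K ≤
      (((Icc 1 X).filter (fun m => (∀ i, Squarefree (vv u c1 c3 i m)) ∧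
        ∑ i, (vv u c1 c3 i m).primeFactors.card ≤ R0 ∧
        ∀ i, ∀ p : ℕ, p.Prime → p ∣ vv u c1 c3 i m → X < p ^ K)).card : ℝ) := by
  obtain ⟨C1, hC1, hS⟩ := sieveV
  obtain ⟨K, X0, hS⟩ := hS 4 (by norm_num)
  refine ⟨K + 2, 4 * (C1 * (Nat.log 2 4 + 1)), by omega, ?_⟩
  intro u c1 c3 r h
  have hlogX : Tendsto (fun X : ℕ => Real.log (X : ℝ)) atTop atTop :=
    Real.tendsto_log_atTop.comp tendsto_natCast_atTop_atTop
  have hq := sqf_few two_ns 400000 (K + 2) (K + 1) (by norm_num) (by omega)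
  have hl := lin_few 400000 (K + 2) (K + 1) (by omega)
  filter_upwards [eventually_ge_atTop X0, eventually_ge_atTop (10 ^ 12), hq, hl,
    hlogX.eventually_ge_atTop 5] with X hX0 hX12 hXq hXl hXlog
  have hmain := hS X hX0 (Fin 4) (by simp) (vv u c1 c3) (vv_good h)
    (fun p hp hp4 i n => vv_small h hp (small_dvd_Q hp hp4) i n)
    (fun i m hm => ⟨vv_pos h i m, vv_size h i hm hX12⟩)
  have hu := h.u1
  have hu3 := h.u3
  -- the exceptional arguments
  have hexq : ∀ w c : ℕ, w < 120120 → OkQ w c →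
      (((Icc 1 X).filter (fun m => ∃ p : ℕ, p.Prime ∧ X < p ^ (K + 2) ∧
      p ^ 2 ∣ vq 2 (120120 * m + w) / c)).card : ℝ) ≤ X / Real.log X ^ (K + 1) := by
    intro w c hw hok
    refine le_trans ?_ hXq
    have : ((Icc 1 X).filter (fun m => ∃ p : ℕ, p.Prime ∧ X < p ^ (K + 2) ∧
      p ^ 2 ∣ vq 2 (120120 * m + w) / c)).card ≤
      ((range (400000 * X + 1)).filter (fun n : ℕ => ∃ p : ℕ, p.Prime ∧ X < p ^ (K + 2) ∧
        (p : ℤ) ^ 2 ∣ (n : ℤ) ^ 2 - 2)).card := by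
      apply card_le_card_of_injOn (fun m => 120120 * m + w)
      · intro m hm
        rw [mem_coe, mem_filter, mem_Icc] at hm
        obtain ⟨hm1, p, hp, hpX, hpd⟩ := hm
        rw [mem_coe, mem_filter, mem_range]
        refine ⟨by
          show 120120 * m + w < 400000 * X + 1
          omega, p, hp, hpX, ?_⟩
        have h1 : p ^ 2 ∣ vq 2 (120120 * m + w) :=
          hpd.trans (Nat.div_dvd_of_dvd (hok.dv m))
        rw [dvd_vq] at h1
        push_cast at h1 ⊢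
        exact h1
      · intro m _ m' _ hmm
        have : 120120 * m + w = 120120 * m' + w := hmm
        omega
    exact_mod_cast this
  have hexl : ∀ w : ℕ, w < 240241 → 
      (((Icc 1 X).filter (fun m => ∃ p : ℕ, p.Prime ∧ X < p ^ (K + 2) ∧
      p ^ 2 ∣ 240240 * m + w)).card : ℝ) ≤ X / Real.log X ^ (K + 1) := by
    intro w hw
    refine le_trans ?_ hXl
    have : ((Icc 1 X).filter (fun m => ∃ p : ℕ, p.Prime ∧ X < p ^ (K + 2) ∧
      p ^ 2 ∣ 240240 * m + w)).card ≤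
      ((Ioc 0 (400000 * X)).filter (fun n : ℕ => ∃ p : ℕ, p.Prime ∧ X < p ^ (K + 2) ∧
        p ^ 2 ∣ n)).card := by
      apply card_le_card_of_injOn (fun m => 240240 * m + w)
      · intro m hm
        rw [mem_coe, mem_filter, mem_Icc] at hm
        obtain ⟨hm1, p, hp, hpX, hpd⟩ := hm
        rw [mem_coe, mem_filter, mem_Ioc]
        refine ⟨⟨?_, ?_⟩, p, hp, hpX, hpd⟩
        · show 0 < 240240 * m + w
          omega
        · show 240240 * m + w ≤ 400000 * X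
          omega
      · intro m _ m' _ hmm
        have : 240240 * m + w = 240240 * m' + w := hmm
        omega
    exact_mod_cast this
  have hexc : ∀ i : Fin 4, (((Icc 1 X).filter (fun m => ∃ p : ℕ, p.Prime ∧ X < p ^ (K + 2) ∧
      p ^ 2 ∣ vv u c1 c3 i m)).card : ℝ) ≤ X / Real.log X ^ (K + 1) := by
    intro i
    fin_cases i
    · exact hexl (2 * u + 1) (by omega)
    · exact hexq (u - 1) c1 (by omega) h.q1
    · exact hexl (2 * u - 3) (by omega)
    · exact hexq u c3 hu h.q3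
  set G := (Icc 1 X).filter (fun m => (∀ i, Squarefree (vv u c1 c3 i m)) ∧
        ∑ i, (vv u c1 c3 i m).primeFactors.card ≤ 4 * (C1 * (Nat.log 2 4 + 1)) ∧
        ∀ i, ∀ p : ℕ, p.Prime → p ∣ vv u c1 c3 i m → X < p ^ (K + 2)) with hG
  have hsub : (Icc 1 X).filter (fun m =>
        ∑ i, (vv u c1 c3 i m).primeFactors.card ≤ 4 * (C1 * (Nat.log 2 4 + 1)) ∧
        ∀ i, ∀ p : ℕ, p.Prime → p ∣ vv u c1 c3 i m → X < p ^ K) ⊆
      G ∪ (univ : Finset (Fin 4)).biUnion (fun i => (Icc 1 X).filter (fun m => ∃ p : ℕ, p.Prime ∧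
        X < p ^ (K + 2) ∧ p ^ 2 ∣ vv u c1 c3 i m)) := by
    intro m hm
    rw [mem_filter] at hm
    obtain ⟨hm1, hm2, hm3⟩ := hm
    have hm4 : ∀ i, ∀ p : ℕ, p.Prime → p ∣ vv u c1 c3 i m → X < p ^ (K + 2) :=
      fun i p hp hpd => (hm3 i p hp hpd).trans_le (Nat.pow_le_pow_right hp.pos (by omega))
    rw [mem_union]
    by_cases hs : ∀ i, Squarefree (vv u c1 c3 i m)
    · left
      rw [hG, mem_filter]
      exact ⟨hm1, hs, hm2, hm4⟩
    · right
      push Not at hs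
      obtain ⟨i, hi⟩ := hs
      rw [Nat.squarefree_iff_prime_squarefree] at hi
      push Not at hi
      obtain ⟨p, hp, hpp⟩ := hi
      rw [mem_biUnion]
      refine ⟨i, mem_univ _, mem_filter.2 ⟨hm1, p, hp, hm4 i p hp ((dvd_mul_right p p).trans hpp),
        ?_⟩⟩
      rw [pow_two]
      exact hpp
  have hcardle := (card_le_card hsub).trans ((card_union_le _ _).trans
    (Nat.add_le_add_left card_biUnion_le _))
  have hcardr : (((Icc 1 X).filter (fun m =>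
        ∑ i, (vv u c1 c3 i m).primeFactors.card ≤ 4 * (C1 * (Nat.log 2 4 + 1)) ∧
        ∀ i, ∀ p : ℕ, p.Prime → p ∣ vv u c1 c3 i m → X < p ^ K)).card : ℝ) ≤
      (G.card : ℝ) + ∑ i : Fin 4, (((Icc 1 X).filter (fun m => ∃ p : ℕ, p.Prime ∧
        X < p ^ (K + 2) ∧ p ^ 2 ∣ vv u c1 c3 i m)).card : ℝ) := by
    exact_mod_cast hcardle
  have hsumexc : ∑ i : Fin 4, (((Icc 1 X).filter (fun m => ∃ p : ℕ, p.Prime ∧
        X < p ^ (K + 2) ∧ p ^ 2 ∣ vv u c1 c3 i m)).card : ℝ) ≤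
      4 * (X / Real.log X ^ (K + 1)) := by
    refine (sum_le_sum fun i _ => hexc i).trans ?_
    rw [sum_const, card_univ, Fintype.card_fin, nsmul_eq_mul]
    norm_num
  have hXr : (0 : ℝ) ≤ X := Nat.cast_nonneg _
  have e1 : (X : ℝ) / Real.log X ^ K = Real.log X * (X / Real.log X ^ (K + 1)) := by
    have h1 : Real.log X ≠ 0 := by linarith
    rw [pow_succ]
    field_simp
  have e2 : (X : ℝ) / Real.log X ^ (K + 2) ≤ X / Real.log X ^ (K + 1) := by
    apply div_le_div_of_nonneg_left hXr (by positivity)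
    exact pow_le_pow_right₀ (by linarith) (by omega)
  have hpos : 0 ≤ (X : ℝ) / Real.log X ^ (K + 1) := by positivity
  have h9 : 5 * ((X : ℝ) / Real.log X ^ (K + 1)) ≤
      Real.log X * (X / Real.log X ^ (K + 1)) :=
    mul_le_mul_of_nonneg_right hXlog hpos
  rw [e1] at hmain
  have hG1 : Real.log X * (X / Real.log X ^ (K + 1)) ≤
      (G.card : ℝ) + 4 * (X / Real.log X ^ (K + 1)) := by
    refine hmain.trans ?_
    refine le_trans ?_ (add_le_add (le_refl (G.card : ℝ)) hsumexc)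
    refine le_trans (le_of_eq ?_) hcardr
    congr!
  have hfinal : (X : ℝ) / Real.log X ^ (K + 2) ≤ (G.card : ℝ) := by
    linarith
  convert hfinal

/-- **Pairs with difference 7** -/
theorem seven : ∃ R : ℕ, 1 ≤ R ∧ ∀ r : ℕ, (r = 2 ∨ r = 3 ∨ r = 6 ∨ r = 7) →
    ∀ᶠ X : ℕ in atTop, (X : ℝ) ^ (1 / 3 : ℝ) / Real.log X ^ R ≤
      (({n : ℕ | PairAt r R X n}.ncard : ℕ) : ℝ) := by
  classical
  obtain ⟨K, R0, hK, hmain⟩ := sev_sieve
  refine ⟨4 * K + R0 + 1, by omega, ?_⟩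
  intro r hr
  obtain ⟨u, c1, c3, h⟩ : ∃ u c1 c3, Cls u c1 c3 r := by
    rcases hr with rfl | rfl | rfl | rfl
    · exact ⟨_, _, _, cls2⟩
    · exact ⟨_, _, _, cls3⟩
    · exact ⟨_, _, _, cls6⟩
    · exact ⟨_, _, _, cls7⟩
  obtain ⟨Y0, hY0⟩ := eventually_atTop.1 (hmain u c1 c3 r h)
  filter_upwards [asymk 3 720720 Y0 K (by norm_num) (by norm_num), eventually_ge_atTop 3]
    with X hX hX3
  obtain ⟨Y, hY⟩ : ∃ Y : ℕ, Y = ⌊(X : ℝ) ^ (1 / (3 : ℕ) : ℝ) / (720720 : ℕ)⌋₊ := ⟨_, rfl⟩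
  obtain ⟨hX1, hX2, hX3', hX4⟩ := hX Y hY
  have hcnt := hY0 Y hX4
  set S := (Icc 1 Y).filter (fun m => (∀ i, Squarefree (vv u c1 c3 i m)) ∧
        ∑ i, (vv u c1 c3 i m).primeFactors.card ≤ R0 ∧
        ∀ i, ∀ p : ℕ, p.Prime → p ∣ vv u c1 c3 i m → Y < p ^ K) with hS
  have hu := h.u1
  have hu3 := h.u3
  have hmono : ∀ V V' : ℕ, 3 ≤ V → V < V' → nn V < nn V' := by
    intro V V' hV hVV
    unfold nn
    have h1 : (V - 1) ^ 2 < (V' - 1) ^ 2 := Nat.pow_lt_pow_left (by omega) (by norm_num)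
    have h2 : 4 ≤ (V - 1) ^ 2 := by
      have : 2 ≤ V - 1 := by omega
      nlinarith
    exact Nat.mul_lt_mul'' (by omega) (by omega)
  have hsub : (S.image (fun m => nn (120120 * m + u)) : Set ℕ) ⊆
      {n : ℕ | PairAt r (4 * K + R0 + 1) X n} := by
    intro n hn
    rw [mem_coe, mem_image] at hn
    obtain ⟨m, hm, rfl⟩ := hn
    rw [hS, mem_filter, mem_Icc] at hm
    obtain ⟨⟨hm1, hmY⟩, hsq, hsum, hrough⟩ := hm
    obtain ⟨f1, f2, f3, f4, f5, f6, f7, f8⟩ := pair_facts h hsq hsum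
    refine ⟨?_, f1, f2, f3, f4, f5, by omega, by omega, ?_⟩
    · unfold nn
      have hV : 120120 * m + u ≤ 240240 * Y := by omega
      calc (2 * (120120 * m + u) + 1) * ((120120 * m + u - 1) ^ 2 - 2)
          ≤ (3 * (240240 * Y)) * (240240 * Y) ^ 2 := by
            apply Nat.mul_le_mul
            · omega
            · exact (Nat.sub_le _ _).trans (Nat.pow_le_pow_left (by omega) 2)
        _ ≤ (720720 * Y) ^ 3 := by
            have : (3 * (240240 * Y)) * (240240 * Y) ^ 2 = 3 * (240240 * Y) ^ 3 := by ring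
            rw [this]
            have : (720720 * Y) ^ 3 = 27 * (240240 * Y) ^ 3 := by ring
            rw [this]
            exact Nat.mul_le_mul_right _ (by norm_num)
        _ ≤ X := hX3'
    · intro p hp hp2 hd
      obtain ⟨i, hi⟩ := f8 p hp hp2 hd
      have h1 := hrough i p hp hi
      calc X ≤ Y ^ 4 := hX2
        _ < (p ^ K) ^ 4 := Nat.pow_lt_pow_left h1 (by norm_num)
        _ = p ^ (4 * K) := by rw [← pow_mul, mul_comm]
        _ ≤ p ^ (4 * K + R0 + 1) := Nat.pow_le_pow_right hp.pos (by omega)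
  have hinj : Set.InjOn (fun m => nn (120120 * m + u)) (S : Set ℕ) := by
    intro m _ m' _ hmm
    have hmm' : nn (120120 * m + u) = nn (120120 * m' + u) := hmm
    rcases lt_trichotomy m m' with h1 | h1 | h1
    · have := hmono (120120 * m + u) (120120 * m' + u) (by omega) (by omega)
      omega
    · exact h1
    · have := hmono (120120 * m' + u) (120120 * m + u) (by omega) (by omega)
      omega
  have hfin : {n : ℕ | PairAt r (4 * K + R0 + 1) X n}.Finite :=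
    (Set.finite_Iic X).subset fun n hn => hn.1
  have hc1 : S.card ≤ {n : ℕ | PairAt r (4 * K + R0 + 1) X n}.ncard := by
    rw [← card_image_of_injOn hinj, ← Set.ncard_coe_finset]
    exact Set.ncard_le_ncard hsub hfin
  have hc3 : ((S.card : ℕ) : ℝ) ≤
      (({n : ℕ | PairAt r (4 * K + R0 + 1) X n}.ncard : ℕ) : ℝ) := by
    exact_mod_cast hc1
  have hlog : (1 : ℝ) ≤ Real.log X := by
    rw [Real.le_log_iff_exp_le (by exact_mod_cast (by omega : 0 < X))]
    have h1 := Real.exp_one_lt_d9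
    have : (3 : ℝ) ≤ X := by exact_mod_cast hX3
    linarith
  have hfin2 : (X : ℝ) ^ (1 / 3 : ℝ) / Real.log X ^ (4 * K + R0 + 1) ≤
      (X : ℝ) ^ (1 / 3 : ℝ) / Real.log X ^ (K + 1) := by
    apply div_le_div_of_nonneg_left (by positivity) (by positivity)
    exact pow_le_pow_right₀ hlog (by omega)
  have hY0r : (0 : ℝ) ≤ Y0 := Nat.cast_nonneg _
  push_cast at hX1
  linarith

end Pool.Agent.T2H56.CT
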