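import Mathlib
import Pool.Agent.T2H56.CT.DenseA

/-!
The quartic form `x ^ 4 + 6 x ^ 2 y ^ 2 + y ^ 4` (helper56): local lemmas.
-/

set_option autoImplicit false
set_option maxHeartbeats 4000000

namespace Pool.Agent.T2H56.CT

open Finset

/-- the form -/
def FF (x y : ℤ) : ℤ := x ^ 4 + 6 * x ^ 2 * y ^ 2 + y ^ 4

lemma FF_lift {p : ℕ} (hp : p.Prime) (hp2 : p ≠ 2) {x1 x2 y : ℤ} (hy : ¬ (p : ℤ) ∣ y)
    (h1 : (p : ℤ) ^ 2 ∣ FF x1 y) (h2 : (p : ℤ) ^ 2 ∣ FF x2 y) (h : (p : ℤ) ∣ x1 - x2) :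
    (p : ℤ) ^ 2 ∣ x1 - x2 := by
  have hpz : Prime (p : ℤ) := Nat.prime_iff_prime_int.1 hp
  have h2p : ¬ (p : ℤ) ∣ 2 := by
    intro h
    have : p ∣ 2 := by exact_mod_cast h
    exact hp2 ((Nat.prime_dvd_prime_iff_eq hp Nat.prime_two).1 this)
  have hps : (p : ℤ) ∣ (p : ℤ) ^ 2 := dvd_pow_self _ (by norm_num)
  have h1p : (p : ℤ) ∣ FF x1 y := hps.trans h1
  set G : ℤ := x1 ^ 3 + x1 ^ 2 * x2 + x1 * x2 ^ 2 + x2 ^ 3 + 6 * y ^ 2 * (x1 + x2) with hG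
  have hG0 : ¬ (p : ℤ) ∣ G := by
    intro h3
    have h4 : (p : ℤ) ∣ 2 * (2 * (x1 * (x1 ^ 2 + 3 * y ^ 2))) := by
      have e : 2 * (2 * (x1 * (x1 ^ 2 + 3 * y ^ 2))) = G + (x1 - x2) *
          (x1 ^ 2 + x1 * (x1 + x2) + (x1 ^ 2 + x1 * x2 + x2 ^ 2) + 6 * y ^ 2) := by
        rw [hG]; ring
      rw [e]
      exact dvd_add h3 (h.mul_right _)
    rcases hpz.dvd_or_dvd h4 with h5 | h5
    · exact h2p h5
    rcases hpz.dvd_or_dvd h5 with h5 | h5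
    · exact h2p h5
    rcases hpz.dvd_or_dvd h5 with h5 | h5
    · apply hy
      have h6 : (p : ℤ) ∣ y ^ 4 := by
        have e : y ^ 4 = FF x1 y - x1 * (x1 ^ 3 + 6 * x1 * y ^ 2) := by unfold FF; ring
        rw [e]
        exact dvd_sub h1p (h5.mul_right _)
      exact hpz.dvd_of_dvd_pow h6
    · apply hy
      have h6 : (p : ℤ) ∣ 2 * (2 * (2 * y ^ 4)) := by
        have e : 2 * (2 * (2 * y ^ 4)) = (x1 ^ 2 + 3 * y ^ 2) * (x1 ^ 2 + 3 * y ^ 2) - FF x1 y := by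
          unfold FF; ring
        rw [e]
        exact dvd_sub (h5.mul_right _) h1p
      rcases hpz.dvd_or_dvd h6 with h7 | h7
      · exact absurd h7 h2p
      rcases hpz.dvd_or_dvd h7 with h7 | h7
      · exact absurd h7 h2p
      rcases hpz.dvd_or_dvd h7 with h7 | h7
      · exact absurd h7 h2p
      exact hpz.dvd_of_dvd_pow h7
  have h3 : (p : ℤ) ^ 2 ∣ (x1 - x2) * G := by
    have := dvd_sub h1 h2
    refine this.trans (dvd_of_eq ?_)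
    rw [hG]; unfold FF; ring
  exact (cop_of hp hG0 2).dvd_of_dvd_mul_right h3

lemma FF_lift2 {p : ℕ} (hp : p.Prime) (hp2 : p ≠ 2) {x1 x2 y1 y2 : ℤ} (hy1 : ¬ (p : ℤ) ∣ y1)
    (hy2 : ¬ (p : ℤ) ∣ y2) (h1 : (p : ℤ) ^ 2 ∣ FF x1 y1) (h2 : (p : ℤ) ^ 2 ∣ FF x2 y2)
    (h : (p : ℤ) ∣ x1 * y2 - x2 * y1) : (p : ℤ) ^ 2 ∣ x1 * y2 - x2 * y1 := by
  have hpz : Prime (p : ℤ) := Nat.prime_iff_prime_int.1 hp
  apply FF_lift hp hp2 (y := y1 * y2)
  · intro h3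
    rcases hpz.dvd_or_dvd h3 with h4 | h4
    · exact hy1 h4
    · exact hy2 h4
  · have e : FF (x1 * y2) (y1 * y2) = FF x1 y1 * y2 ^ 4 := by unfold FF; ring
    rw [e]; exact h1.mul_right _
  · have e : FF (x2 * y1) (y1 * y2) = FF x2 y2 * y1 ^ 4 := by unfold FF; ring
    rw [e]; exact h2.mul_right _
  · exact h

section Roots

variable (p : ℕ) [Fact p.Prime]

open Polynomial in
lemma card_Zr : (univ.filter (fun z : ZMod p => z ^ 4 + 6 * z ^ 2 + 1 = 0)).card ≤ 4 := by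
  classical
  set P : (ZMod p)[X] := X ^ 4 + C 6 * X ^ 2 + C 1 with hP
  have hdeg : P.natDegree = 4 := by rw [hP]; compute_degree!
  have hP0 : P ≠ 0 := by
    intro h
    rw [h, natDegree_zero] at hdeg
    omega
  have hsub : univ.filter (fun z : ZMod p => z ^ 4 + 6 * z ^ 2 + 1 = 0) ⊆ P.roots.toFinset := by
    intro z hz
    rw [mem_filter] at hz
    rw [Multiset.mem_toFinset, mem_roots hP0, IsRoot.def, hP]
    simp only [eval_add, eval_pow, eval_X, eval_mul, eval_C]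
    exact hz.2
  calc _ ≤ P.roots.toFinset.card := card_le_card hsub
    _ ≤ Multiset.card P.roots := Multiset.toFinset_card_le _
    _ ≤ P.natDegree := card_roots' P
    _ = 4 := hdeg

/-- the ratio -/
noncomputable def rat (x y : ℤ) : ZMod p := (x : ZMod p) / (y : ZMod p)

lemma rat_mem {x y : ℤ} (hy : ¬ (p : ℤ) ∣ y) (h : (p : ℤ) ∣ FF x y) :
    rat p x y ∈ univ.filter (fun z : ZMod p => z ^ 4 + 6 * z ^ 2 + 1 = 0) := by
  rw [mem_filter]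
  refine ⟨mem_univ _, ?_⟩
  have hy0 : (y : ZMod p) ≠ 0 := by
    intro h0
    exact hy ((ZMod.intCast_zmod_eq_zero_iff_dvd y p).1 h0)
  have h1 : ((FF x y : ℤ) : ZMod p) = 0 := (ZMod.intCast_zmod_eq_zero_iff_dvd _ p).2 h
  unfold FF at h1
  push_cast at h1
  unfold rat
  field_simp
  linear_combination h1

lemma rat_eq {x1 x2 y1 y2 : ℤ} (hy1 : ¬ (p : ℤ) ∣ y1) (hy2 : ¬ (p : ℤ) ∣ y2)
    (h : rat p x1 y1 = rat p x2 y2) : (p : ℤ) ∣ x1 * y2 - x2 * y1 := by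
  have hy10 : (y1 : ZMod p) ≠ 0 := by
    intro h0
    exact hy1 ((ZMod.intCast_zmod_eq_zero_iff_dvd y1 p).1 h0)
  have hy20 : (y2 : ZMod p) ≠ 0 := by
    intro h0
    exact hy2 ((ZMod.intCast_zmod_eq_zero_iff_dvd y2 p).1 h0)
  unfold rat at h
  rw [div_eq_div_iff hy10 hy20] at h
  apply (ZMod.intCast_zmod_eq_zero_iff_dvd _ p).1
  push_cast
  rw [h]
  ring

end Roots

/-- small primes, for fixed `y` -/
lemma small_card {p Q S : ℕ} (hp : p.Prime) (hp2 : p ≠ 2) (hpQ : ¬ p ∣ Q) (y : ℤ)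
    (hy : ¬ (p : ℤ) ∣ y) :
    ((Ioc S (2 * S)).filter (fun s : ℕ => (p : ℤ) ^ 2 ∣ FF ((Q : ℤ) * s + 1) y)).card ≤
      4 * (S / p ^ 2 + 1) := by
  classical
  have : Fact p.Prime := ⟨hp⟩
  have h5 : ¬ (p : ℤ) ∣ (Q : ℤ) := by
    intro h; exact hpQ (by exact_mod_cast h)
  have hps : (p : ℤ) ∣ (p : ℤ) ^ 2 := dvd_pow_self _ (by norm_num)
  set F := (Ioc S (2 * S)).filter (fun s : ℕ => (p : ℤ) ^ 2 ∣ FF ((Q : ℤ) * s + 1) y) with hF
  have hmem : ∀ s ∈ F, (S < s ∧ s ≤ 2 * S) ∧ (p : ℤ) ^ 2 ∣ FF ((Q : ℤ) * s + 1) y := by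
    intro s hs
    rw [hF, mem_filter, mem_Ioc] at hs
    exact hs
  have h1 : F.card ≤ (S / p ^ 2 + 1) * (F.image (fun s : ℕ => rat p ((Q : ℤ) * s + 1) y)).card := by
    apply card_le_mul_card_image
    intro z _
    apply class_card
    · intro s hs
      rw [mem_filter] at hs
      exact (hmem s hs.1).1
    · intro s hs s' hs'
      rw [mem_filter] at hs hs'
      apply int_mod_eq
      have h2 := rat_eq p hy hy (hs.2.trans hs'.2.symm)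
      have hpz : Prime (p : ℤ) := Nat.prime_iff_prime_int.1 hp
      have h3 : (p : ℤ) ∣ ((Q : ℤ) * s + 1) - ((Q : ℤ) * s' + 1) := by
        have e : ((Q : ℤ) * s + 1) * y - ((Q : ℤ) * s' + 1) * y =
          (((Q : ℤ) * s + 1) - ((Q : ℤ) * s' + 1)) * y := by ring
        rw [e] at h2
        rcases hpz.dvd_or_dvd h2 with h4 | h4
        · exact h4
        · exact absurd h4 hy
      have h4 := FF_lift hp hp2 hy (hmem s hs.1).2 (hmem s' hs'.1).2 h3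
      have e : ((Q : ℤ) * s + 1) - ((Q : ℤ) * s' + 1) = (Q : ℤ) * ((s : ℤ) - s') := by ring
      rw [e] at h4
      push_cast
      exact (cop_of hp h5 2).dvd_of_dvd_mul_left h4
  have h2 : (F.image (fun s : ℕ => rat p ((Q : ℤ) * s + 1) y)).card ≤ 4 := by
    refine le_trans (card_le_card ?_) (card_Zr p)
    intro z hz
    rw [mem_image] at hz
    obtain ⟨s, hs, rfl⟩ := hz
    exact rat_mem p hy (hps.trans (hmem s hs).2)
  calc F.card ≤ _ := h1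
    _ ≤ (S / p ^ 2 + 1) * 4 := Nat.mul_le_mul_left _ h2
    _ = _ := by ring

/-- large primes -/
lemma large_card {p Q S : ℕ} (hp : p.Prime) (hp2 : p ≠ 2) (hbig : 3 * Q ^ 2 * S ^ 2 < p ^ 2)
    (A : Finset (ℕ × ℕ)) (hA : ∀ a ∈ A, (S < a.1 ∧ a.1 ≤ 2 * S) ∧ (0 < a.2 ∧ a.2 ≤ S) ∧
      ¬ p ∣ Q * a.2 ∧ Nat.Coprime (Q * a.1 + 1) (Q * a.2) ∧
      (p : ℤ) ^ 2 ∣ FF ((Q : ℤ) * a.1 + 1) ((Q : ℤ) * a.2)) (hQ : 0 < Q) : A.card ≤ 4 := by
  classical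
  have : Fact p.Prime := ⟨hp⟩
  have hps : (p : ℤ) ∣ (p : ℤ) ^ 2 := dvd_pow_self _ (by norm_num)
  have hnd : ∀ a ∈ A, ¬ (p : ℤ) ∣ (Q : ℤ) * a.2 := by
    intro a ha h
    exact (hA a ha).2.2.1 (by exact_mod_cast h)
  have hinj : Set.InjOn (fun a : ℕ × ℕ => rat p ((Q : ℤ) * a.1 + 1) ((Q : ℤ) * a.2)) (A : Set (ℕ × ℕ)) := by
    intro a ha b hb hab
    rw [mem_coe] at ha hb
    obtain ⟨⟨a1, a2⟩, ⟨a3, a4⟩, a5, a6, a7⟩ := hA a ha
    obtain ⟨⟨b1, b2⟩, ⟨b3, b4⟩, b5, b6, b7⟩ := hA b hb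
    have h1 := rat_eq p (hnd a ha) (hnd b hb) hab
    have h2 := FF_lift2 hp hp2 (hnd a ha) (hnd b hb) a7 b7 h1
    have hx : ∀ s k : ℕ, s ≤ 2 * S → k ≤ S → (Q * s + 1) * (Q * k) ≤ 3 * Q ^ 2 * S ^ 2 := by
      intro s k hs hk
      rcases Nat.eq_zero_or_pos S with h0 | h0
      · subst h0
        have : k = 0 := by omega
        subst this; simp
      · have g1 : Q * s + 1 ≤ 3 * (Q * S) := by
          have g2 : Q * s ≤ Q * (2 * S) := Nat.mul_le_mul_left _ hs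
          have g3 : 1 ≤ Q * S := Nat.mul_pos hQ h0
          nlinarith
        have g4 : Q * k ≤ Q * S := Nat.mul_le_mul_left _ hk
        calc (Q * s + 1) * (Q * k) ≤ (3 * (Q * S)) * (Q * S) := Nat.mul_le_mul g1 g4
          _ = _ := by ring
    have hE : (Q * a.1 + 1) * (Q * b.2) = (Q * b.1 + 1) * (Q * a.2) := by
      have u1 : (((Q * a.1 + 1) * (Q * b.2) : ℕ) : ℤ) ≤ ((3 * Q ^ 2 * S ^ 2 : ℕ) : ℤ) := by
        exact_mod_cast hx a.1 b.2 a2 b4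
      have u2 : (((Q * b.1 + 1) * (Q * a.2) : ℕ) : ℤ) ≤ ((3 * Q ^ 2 * S ^ 2 : ℕ) : ℤ) := by
        exact_mod_cast hx b.1 a.2 b2 a4
      have u3 : ((3 * Q ^ 2 * S ^ 2 : ℕ) : ℤ) < (p : ℤ) ^ 2 := by exact_mod_cast hbig
      have u4 : (0 : ℤ) ≤ (((Q * a.1 + 1) * (Q * b.2) : ℕ) : ℤ) := Int.natCast_nonneg _
      have u5 : (0 : ℤ) ≤ (((Q * b.1 + 1) * (Q * a.2) : ℕ) : ℤ) := Int.natCast_nonneg _
      have h3 : (p : ℤ) ^ 2 ∣ (((Q * a.1 + 1) * (Q * b.2) : ℕ) : ℤ) -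
          (((Q * b.1 + 1) * (Q * a.2) : ℕ) : ℤ) := by
        refine h2.trans (dvd_of_eq ?_)
        push_cast; ring
      have h4 : (((Q * a.1 + 1) * (Q * b.2) : ℕ) : ℤ) - (((Q * b.1 + 1) * (Q * a.2) : ℕ) : ℤ) = 0 := by
        apply Int.eq_zero_of_abs_lt_dvd h3
        rw [abs_lt]
        constructor
        · linarith
        · linarith
      have h5 : (((Q * a.1 + 1) * (Q * b.2) : ℕ) : ℤ) = (((Q * b.1 + 1) * (Q * a.2) : ℕ) : ℤ) := by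
        linarith
      exact_mod_cast h5
    have hd1 : Q * a.1 + 1 ∣ Q * b.1 + 1 := by
      have : Q * a.1 + 1 ∣ (Q * b.1 + 1) * (Q * a.2) := ⟨_, hE.symm⟩
      exact a6.dvd_of_dvd_mul_right this
    have hd2 : Q * b.1 + 1 ∣ Q * a.1 + 1 := by
      have : Q * b.1 + 1 ∣ (Q * a.1 + 1) * (Q * b.2) := ⟨_, hE⟩
      exact b6.dvd_of_dvd_mul_right this
    have hx1 : Q * a.1 + 1 = Q * b.1 + 1 := Nat.dvd_antisymm hd1 hd2
    rw [hx1] at hE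
    have hy1 : Q * b.2 = Q * a.2 := Nat.eq_of_mul_eq_mul_left (Nat.succ_pos _) hE
    have e1 : a.1 = b.1 := Nat.eq_of_mul_eq_mul_left hQ (by omega)
    have e2 : a.2 = b.2 := Nat.eq_of_mul_eq_mul_left hQ hy1.symm
    exact Prod.ext e1 e2
  rw [← card_image_of_injOn hinj]
  refine le_trans (card_le_card ?_) (card_Zr p)
  intro z hz
  rw [mem_image] at hz
  obtain ⟨a, ha, rfl⟩ := hz
  exact rat_mem p (hnd a ha) (hps.trans (hA a ha).2.2.2.2)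

end Pool.Agent.T2H56.CT
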