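import Mathlib
import Pool.Agent.T2H56.CT.QrA
import Pool.Agent.T2H56.CT.DenseC

/-!
The quartic form `x ^ 4 + 6 x ^ 2 y ^ 2 + y ^ 4` (helper56): squarefree values.
-/

set_option autoImplicit false
set_option maxHeartbeats 4000000

namespace Pool.Agent.T2H56.CT

open Finset Filter

/-- the exceptional pairs -/
def B4 (Q y P1 P2 : ℕ) (x : ℕ × ℕ) : Prop :=
  ∃ p : ℕ, p.Prime ∧ y < p ∧ ¬ p ∣ Q ∧ ((p ∣ Q * x.1 + 1 ∧ p ∣ x.2) ∨
    (¬ p ∣ Q * x.2 ∧ (p : ℤ) ^ 2 ∣ FF ((Q : ℤ) * x.1 + 1) ((Q : ℤ) * x.2) ∧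
      (p ≤ P1 ∨ (P1 < p ∧ p ≤ P2 ∧ Nat.Coprime (Q * x.1 + 1) (Q * x.2)))))

open Classical in
noncomputable def BadQ (Q y P1 P2 S : ℕ) : Finset (ℕ × ℕ) :=
  ((Ioc S (2 * S)) ×ˢ (Ioc 0 S)).filter (fun x => B4 Q y P1 P2 x)

lemma pc_card (P : ℕ) (T : Finset ℕ) (hT : ∀ p ∈ T, p.Prime ∧ p ≤ P) :
    (T.card : ℝ) ≤ Nat.primeCounting P := by
  classical
  have : T.card ≤ Nat.primeCounting P := by
    rw [Nat.primeCounting, Nat.primeCounting', Nat.count_eq_card_filter_range]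
    apply card_le_card
    intro p hp
    have := hT p hp
    rw [mem_filter, mem_range]
    exact ⟨by omega, this.1⟩
  exact_mod_cast this

lemma badQ_card (Q y S : ℕ) (hy : 2 ≤ y) (hQ : 0 < Q) :
    ((BadQ Q y (4 * Q * S) (12 * Q ^ 2 * S ^ 2) S).card : ℝ) ≤
      S * S * (10 / (y + 1)) + S * (S / y) + 4 * S * (Nat.primeCounting (4 * Q * S)) +
        4 * (Nat.primeCounting (12 * Q ^ 2 * S ^ 2)) := by
  classical
  obtain ⟨P1, hP1⟩ : ∃ P1, P1 = 4 * Q * S := ⟨_, rfl⟩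
  obtain ⟨P2, hP2⟩ : ∃ P2, P2 = 12 * Q ^ 2 * S ^ 2 := ⟨_, rfl⟩
  rw [← hP1, ← hP2]
  set T1 := (Ioc y S).filter (fun p => p.Prime ∧ ¬ p ∣ Q) with hT1
  set T2 := (Ioc y P1).filter (fun p => p.Prime ∧ ¬ p ∣ Q) with hT2
  set T3 := (Ioc P1 P2).filter (fun p => p.Prime ∧ y < p) with hT3
  set U1 := T1.biUnion (fun p => ((Ioc S (2 * S)).filter (fun s => p ∣ Q * s + 1)) ×ˢ
    ((Ioc 0 S).filter (fun k => p ∣ k))) with hU1
  set G : ℕ → ℕ → Finset ℕ := fun k p =>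
    (Ioc S (2 * S)).filter (fun s : ℕ => (p : ℤ) ^ 2 ∣ FF ((Q : ℤ) * s + 1) ((Q : ℤ) * k)) with hG
  set U2 := (Ioc 0 S).biUnion (fun k => (T2.filter (fun p : ℕ => ¬ p ∣ Q * k)).biUnion
    (fun p => (G k p) ×ˢ {k})) with hU2
  set A : ℕ → Finset (ℕ × ℕ) := fun p => ((Ioc S (2 * S)) ×ˢ (Ioc 0 S)).filter (fun x =>
    ¬ p ∣ Q * x.2 ∧ Nat.Coprime (Q * x.1 + 1) (Q * x.2) ∧
      (p : ℤ) ^ 2 ∣ FF ((Q : ℤ) * x.1 + 1) ((Q : ℤ) * x.2)) with hA
  set U3 := T3.biUnion A with hU3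
  have hsub : BadQ Q y P1 P2 S ⊆ U1 ∪ (U2 ∪ U3) := by
    intro x hx
    unfold BadQ at hx
    rw [mem_filter, mem_product] at hx
    obtain ⟨⟨h1, h2⟩, p, hp, hyp, hpQ, h3⟩ := hx
    rcases h3 with ⟨h3, h4⟩ | ⟨h3, h4, h5⟩
    · apply mem_union_left
      rw [hU1, mem_biUnion]
      have h5 : p ≤ S := (Nat.le_of_dvd (mem_Ioc.1 h2).1 h4).trans (mem_Ioc.1 h2).2
      refine ⟨p, mem_filter.2 ⟨mem_Ioc.2 ⟨hyp, h5⟩, hp, hpQ⟩, ?_⟩
      exact mem_product.2 ⟨mem_filter.2 ⟨h1, h3⟩, mem_filter.2 ⟨h2, h4⟩⟩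
    · apply mem_union_right
      rcases h5 with h5 | ⟨h5, h6, h7⟩
      · apply mem_union_left
        rw [hU2, mem_biUnion]
        refine ⟨x.2, h2, ?_⟩
        rw [mem_biUnion]
        refine ⟨p, mem_filter.2 ⟨mem_filter.2 ⟨mem_Ioc.2 ⟨hyp, h5⟩, hp, hpQ⟩, h3⟩, ?_⟩
        exact mem_product.2 ⟨mem_filter.2 ⟨h1, h4⟩, mem_singleton.2 rfl⟩
      · apply mem_union_right
        rw [hU3, mem_biUnion]
        refine ⟨p, mem_filter.2 ⟨mem_Ioc.2 ⟨h5, h6⟩, hp, hyp⟩, ?_⟩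
        exact mem_filter.2 ⟨mem_product.2 ⟨h1, h2⟩, h3, h7, h4⟩
  have hyr : (0 : ℝ) < y := by exact_mod_cast (by omega : 0 < y)
  have hc1 : ((U1.card : ℕ) : ℝ) ≤ S * S * (2 / (y + 1)) + S * (S / y) := by
    have e1 : ((U1.card : ℕ) : ℝ) ≤ ∑ p ∈ T1, ((S : ℝ) * S * ((p : ℝ) ^ 2)⁻¹ + S / y) := by
      have e0 : U1.card ≤ ∑ p ∈ T1, (((Ioc S (2 * S)).filter (fun s => p ∣ Q * s + 1)) ×ˢ
        ((Ioc 0 S).filter (fun k => p ∣ k))).card := card_biUnion_le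
      have e0' : ((U1.card : ℕ) : ℝ) ≤
          ((∑ p ∈ T1, (((Ioc S (2 * S)).filter (fun s => p ∣ Q * s + 1)) ×ˢ
        ((Ioc 0 S).filter (fun k => p ∣ k))).card : ℕ) : ℝ) := by exact_mod_cast e0
      refine e0'.trans ?_
      push_cast
      apply sum_le_sum
      intro p hp
      rw [hT1, mem_filter, mem_Ioc] at hp
      obtain ⟨⟨hp1, hp2⟩, hpp, hpQ⟩ := hp
      rw [card_product, Nat.Ioc_filter_dvd_card_eq_div]
      have hpr : (0 : ℝ) < p := by exact_mod_cast hpp.pos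
      have e2 : (((((Ioc S (2 * S)).filter (fun s => p ∣ Q * s + 1)).card : ℕ)) : ℝ) ≤
          (S : ℝ) / p + 1 := by
        have h1 := lin_card (S := S) hpp hpQ
        have h2 : ((S / p : ℕ) : ℝ) ≤ (S : ℝ) / p := Nat.cast_div_le
        have h3 : (((((Ioc S (2 * S)).filter (fun s => p ∣ Q * s + 1)).card : ℕ)) : ℝ) ≤
          ((S / p + 1 : ℕ) : ℝ) := by exact_mod_cast h1
        push_cast at h3
        linarith
      have e3 : ((S / p : ℕ) : ℝ) ≤ (S : ℝ) / p := Nat.cast_div_le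
      push_cast
      calc (((((Ioc S (2 * S)).filter (fun s => p ∣ Q * s + 1)).card : ℕ)) : ℝ) * ((S / p : ℕ) : ℝ)
          ≤ ((S : ℝ) / p + 1) * ((S : ℝ) / p) := by
            apply mul_le_mul e2 e3 (Nat.cast_nonneg _) (by positivity)
        _ = (S : ℝ) * S * ((p : ℝ) ^ 2)⁻¹ + S / p := by
            field_simp
        _ ≤ (S : ℝ) * S * ((p : ℝ) ^ 2)⁻¹ + S / y := by
            apply add_le_add le_rfl
            apply div_le_div_of_nonneg_left (Nat.cast_nonneg _) hyr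
            exact_mod_cast hp1.le
    refine e1.trans ?_
    rw [sum_add_distrib, ← mul_sum, sum_const, nsmul_eq_mul]
    apply add_le_add
    · apply mul_le_mul_of_nonneg_left _ (by positivity)
      apply sum_sq_le y S
      intro p hp
      rw [hT1, mem_filter, mem_Ioc] at hp
      exact hp.1
    · apply mul_le_mul_of_nonneg_right _ (by positivity)
      have : T1.card ≤ S := (card_filter_le _ _).trans (by rw [Nat.card_Ioc]; omega)
      exact_mod_cast this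
  have hT2c : (T2.card : ℝ) ≤ Nat.primeCounting P1 := by
    apply pc_card
    intro p hp
    rw [hT2, mem_filter, mem_Ioc] at hp
    exact ⟨hp.2.1, hp.1.2⟩
  have hT3c : (T3.card : ℝ) ≤ Nat.primeCounting P2 := by
    apply pc_card
    intro p hp
    rw [hT3, mem_filter, mem_Ioc] at hp
    exact ⟨hp.2.1, hp.1.2⟩
  have hc2 : ((U2.card : ℕ) : ℝ) ≤ S * S * (8 / (y + 1)) + 4 * S * (Nat.primeCounting P1) := by
    have e0 : U2.card ≤ ∑ k ∈ Ioc 0 S, ∑ p ∈ T2.filter (fun p : ℕ => ¬ p ∣ Q * k),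
        ((G k p) ×ˢ ({k} : Finset ℕ)).card :=
      card_biUnion_le.trans (sum_le_sum fun k _ => card_biUnion_le)
    have e1 : ∀ k ∈ Ioc 0 S, ((∑ p ∈ T2.filter (fun p : ℕ => ¬ p ∣ Q * k),
        ((G k p) ×ˢ ({k} : Finset ℕ)).card : ℕ) : ℝ) ≤
        (S : ℝ) * (8 / (y + 1)) + 4 * (Nat.primeCounting P1) := by
      intro k _
      push_cast
      calc ∑ p ∈ T2.filter (fun p : ℕ => ¬ p ∣ Q * k), ((((G k p) ×ˢ ({k} : Finset ℕ)).card : ℕ) : ℝ)
          ≤ ∑ p ∈ T2.filter (fun p : ℕ => ¬ p ∣ Q * k), (4 * (S : ℝ) * ((p : ℝ) ^ 2)⁻¹ + 4) := by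
            apply sum_le_sum
            intro p hp
            rw [mem_filter, hT2, mem_filter, mem_Ioc] at hp
            obtain ⟨⟨⟨hp1, hp2⟩, hpp, hpQ⟩, hpE⟩ := hp
            rw [card_product, card_singleton, mul_one]
            have hpE' : ¬ (p : ℤ) ∣ (Q : ℤ) * k := by
              intro h; exact hpE (by exact_mod_cast h)
            have h1 := small_card (S := S) hpp (by omega) hpQ ((Q : ℤ) * k) hpE'
            have h3 : (G k p).card ≤ 4 * (S / p ^ 2) + 4 := by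
              refine h1.trans ?_
              omega
            have h4 : ((S / p ^ 2 : ℕ) : ℝ) ≤ (S : ℝ) / ((p ^ 2 : ℕ) : ℝ) := Nat.cast_div_le
            have h5 : (((G k p).card : ℕ) : ℝ) ≤ ((4 * (S / p ^ 2) + 4 : ℕ) : ℝ) := by
              exact_mod_cast h3
            refine h5.trans ?_
            push_cast at h4 ⊢
            rw [div_eq_mul_inv] at h4
            linarith
        _ = 4 * (S : ℝ) * (∑ p ∈ T2.filter (fun p : ℕ => ¬ p ∣ Q * k), ((p : ℝ) ^ 2)⁻¹) +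
            ((T2.filter (fun p : ℕ => ¬ p ∣ Q * k)).card : ℝ) * 4 := by
            rw [sum_add_distrib, ← mul_sum, sum_const, nsmul_eq_mul]
        _ ≤ 4 * (S : ℝ) * (2 / (y + 1)) + (Nat.primeCounting P1) * 4 := by
            apply add_le_add
            · apply mul_le_mul_of_nonneg_left _ (by positivity)
              apply sum_sq_le y P1
              intro p hp
              rw [mem_filter, hT2, mem_filter, mem_Ioc] at hp
              exact hp.1.1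
            · apply mul_le_mul_of_nonneg_right _ (by norm_num)
              refine le_trans ?_ hT2c
              exact_mod_cast card_filter_le _ _
        _ = _ := by ring
    have e0' : ((U2.card : ℕ) : ℝ) ≤
        ((∑ k ∈ Ioc 0 S, ∑ p ∈ T2.filter (fun p : ℕ => ¬ p ∣ Q * k),
        ((G k p) ×ˢ ({k} : Finset ℕ)).card : ℕ) : ℝ) := by exact_mod_cast e0
    refine e0'.trans ?_
    rw [Nat.cast_sum]
    refine (sum_le_sum e1).trans ?_
    rw [sum_const, nsmul_eq_mul, Nat.card_Ioc, Nat.sub_zero]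
    apply le_of_eq
    ring
  have hc3 : ((U3.card : ℕ) : ℝ) ≤ 4 * (Nat.primeCounting P2) := by
    have e0 : U3.card ≤ ∑ p ∈ T3, (A p).card := card_biUnion_le
    have e1 : ∑ p ∈ T3, (A p).card ≤ ∑ _p ∈ T3, 4 := by
      apply sum_le_sum
      intro p hp
      rw [hT3, mem_filter, mem_Ioc] at hp
      obtain ⟨⟨hp1, hp2⟩, hpp, hyp⟩ := hp
      apply large_card hpp (by omega) (S := S) (Q := Q) _ (A p) _ hQ
      · calc 3 * Q ^ 2 * S ^ 2 ≤ P1 ^ 2 := by rw [hP1]; nlinarith [Nat.zero_le (Q ^ 2 * S ^ 2)]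
          _ < p ^ 2 := Nat.pow_lt_pow_left hp1 (by norm_num)
      · intro a ha
        rw [hA, mem_filter, mem_product, mem_Ioc, mem_Ioc] at ha
        exact ⟨ha.1.1, ha.1.2, ha.2.1, ha.2.2.1, ha.2.2.2⟩
    rw [sum_const, smul_eq_mul] at e1
    have e2 : ((U3.card : ℕ) : ℝ) ≤ (T3.card : ℝ) * 4 := by exact_mod_cast e0.trans e1
    linarith
  have hc : ((BadQ Q y P1 P2 S).card : ℝ) ≤ U1.card + (U2.card + U3.card) := by
    exact_mod_cast (card_le_card hsub).trans ((card_union_le _ _).trans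
      (Nat.add_le_add_left (card_union_le _ _) _))
  have e : (S : ℝ) * S * (10 / (y + 1)) = S * S * (2 / (y + 1)) + S * S * (8 / (y + 1)) := by
    ring
  linarith

/-- the value -/
def FN (Q s k : ℕ) : ℕ := (Q * s + 1) ^ 4 + 6 * (Q * s + 1) ^ 2 * (Q * k) ^ 2 + (Q * k) ^ 4

lemma FN_cast (Q s k : ℕ) : ((FN Q s k : ℕ) : ℤ) = FF ((Q : ℤ) * s + 1) ((Q : ℤ) * k) := by
  unfold FN FF; push_cast; ring

lemma FN_small {Q s k p : ℕ} (hp : p.Prime) (hpQ : p ∣ Q) : ¬ p ∣ FN Q s k := by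
  intro h
  have h1 : (p : ℤ) ∣ FF ((Q : ℤ) * s + 1) ((Q : ℤ) * k) := by
    rw [← FN_cast]; exact_mod_cast h
  have hQ : (p : ℤ) ∣ (Q : ℤ) := by exact_mod_cast hpQ
  have h5 : (p : ℤ) ∣ 1 := by
    have e : (1 : ℤ) = FF ((Q : ℤ) * s + 1) ((Q : ℤ) * k) - Q * (Q ^ 3 * s ^ 4 + 4 * Q ^ 2 * s ^ 3 +
      6 * Q * s ^ 2 + 4 * s + 6 * (Q * s + 1) ^ 2 * Q * k ^ 2 + Q ^ 3 * k ^ 4) := by
      unfold FF; ring
    rw [e]
    exact dvd_sub h1 (hQ.mul_right _)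
  have h6 : p ∣ 1 := by exact_mod_cast h5
  exact absurd (Nat.dvd_one.1 h6) hp.one_lt.ne'

lemma FN_facts {Q y S s k : ℕ} (hQ : 0 < Q)
    (hsm : ∀ p : ℕ, p.Prime → p ≤ y → p ∣ Q) (hs : S < s ∧ s ≤ 2 * S) (hk : 0 < k ∧ k ≤ S)
    (hB : ¬ B4 Q y (4 * Q * S) (12 * Q ^ 2 * S ^ 2) (s, k)) :
    Nat.Coprime (Q * s + 1) (Q * k) ∧ Squarefree (FN Q s k) := by
  have hcop : Nat.Coprime (Q * s + 1) (Q * k) := by
    apply Nat.coprime_of_dvd
    intro p hp h1 h2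
    have hpQ : ¬ p ∣ Q := by
      intro h
      have h3 : p ∣ 1 := (Nat.dvd_add_right (h.mul_right s)).1 h1
      exact absurd (Nat.dvd_one.1 h3) hp.one_lt.ne'
    have hyp : y < p := by
      by_contra h
      exact hpQ (hsm p hp (by omega))
    rcases (hp.dvd_mul).1 h2 with h3 | h3
    · exact hpQ h3
    · exact hB ⟨p, hp, hyp, hpQ, Or.inl ⟨h1, h3⟩⟩
  refine ⟨hcop, ?_⟩
  rw [Nat.squarefree_iff_prime_squarefree]
  intro p hp hpp
  have hpd : p ∣ FN Q s k := (dvd_mul_right p p).trans hpp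
  have hpQ : ¬ p ∣ Q := fun h => FN_small hp h hpd
  have hyp : y < p := by
    by_contra h
    exact hpQ (hsm p hp (by omega))
  have hpz : Prime (p : ℤ) := Nat.prime_iff_prime_int.1 hp
  have h1 : (p : ℤ) ^ 2 ∣ FF ((Q : ℤ) * s + 1) ((Q : ℤ) * k) := by
    rw [← FN_cast]
    have : p ^ 2 ∣ FN Q s k := by rw [pow_two]; exact hpp
    exact_mod_cast this
  have hpk : ¬ p ∣ Q * k := by
    intro h
    have h2 : p ∣ Q * s + 1 := by
      have h3 : p ∣ (Q * s + 1) ^ 4 := by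
        have h4 : p ∣ 6 * (Q * s + 1) ^ 2 * (Q * k) ^ 2 + (Q * k) ^ 4 :=
          dvd_add ((dvd_pow h two_ne_zero).mul_left _) (dvd_pow h (by norm_num))
        have h5 : FN Q s k = (Q * s + 1) ^ 4 + (6 * (Q * s + 1) ^ 2 * (Q * k) ^ 2 + (Q * k) ^ 4) := by
          unfold FN; ring
        rw [h5] at hpd
        exact (Nat.dvd_add_left h4).1 hpd
      exact hp.dvd_of_dvd_pow h3
    have h3 : p ∣ Nat.gcd (Q * s + 1) (Q * k) := Nat.dvd_gcd h2 h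
    rw [hcop] at h3
    exact absurd (Nat.dvd_one.1 h3) hp.one_lt.ne'
  have hple : p ≤ 12 * Q ^ 2 * S ^ 2 := by
    have h2 : p ^ 2 ≤ FN Q s k := by
      rw [pow_two]
      exact Nat.le_of_dvd (by unfold FN; positivity) hpp
    have h3 : Q * s + 1 ≤ 3 * (Q * S) := by
      have g2 : Q * s ≤ Q * (2 * S) := Nat.mul_le_mul_left _ hs.2
      have g3 : 1 ≤ Q * S := Nat.mul_pos hQ (by omega)
      nlinarith
    have h4 : Q * k ≤ Q * S := Nat.mul_le_mul_left _ hk.2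
    have h5 : FN Q s k ≤ (12 * Q ^ 2 * S ^ 2) ^ 2 := by
      unfold FN
      calc (Q * s + 1) ^ 4 + 6 * (Q * s + 1) ^ 2 * (Q * k) ^ 2 + (Q * k) ^ 4
          ≤ (3 * (Q * S)) ^ 4 + 6 * (3 * (Q * S)) ^ 2 * (Q * S) ^ 2 + (Q * S) ^ 4 := by gcongr
        _ = 136 * (Q * S) ^ 4 := by ring
        _ ≤ 144 * (Q * S) ^ 4 := Nat.mul_le_mul_right _ (by norm_num)
        _ = _ := by ring
    exact (Nat.pow_le_pow_iff_left (by norm_num)).1 (h2.trans h5)
  apply hB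
  refine ⟨p, hp, hyp, hpQ, Or.inr ⟨hpk, h1, ?_⟩⟩
  rcases le_or_gt p (4 * Q * S) with h | h
  · exact Or.inl h
  · exact Or.inr ⟨h, hple, hcop⟩

/-- the prime factors -/
lemma FN_prime {Q s k p : ℕ} (hQ2 : 2 ∣ Q) (hcop : Nat.Coprime (Q * s + 1) (Q * k)) (hp : p.Prime)
    (hd : p ∣ FN Q s k) : p % 8 = 1 := by
  have : Fact p.Prime := ⟨hp⟩
  have hp2 : p ≠ 2 := by
    rintro rfl
    exact FN_small hp hQ2 hd
  have hpz : Prime (p : ℤ) := Nat.prime_iff_prime_int.1 hp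
  obtain ⟨x, hx⟩ : ∃ x : ℕ, x = Q * s + 1 := ⟨_, rfl⟩
  obtain ⟨y, hy⟩ : ∃ y : ℕ, y = Q * k := ⟨_, rfl⟩
  rw [← hx, ← hy] at hcop
  have hF : FN Q s k = x ^ 4 + 6 * x ^ 2 * y ^ 2 + y ^ 4 := by
    unfold FN; rw [← hx, ← hy]
  rw [hF] at hd
  have hpy : ¬ p ∣ y := by
    intro h
    have h4 : p ∣ 6 * x ^ 2 * y ^ 2 + y ^ 4 :=
      dvd_add ((dvd_pow h two_ne_zero).mul_left _) (dvd_pow h (by norm_num))
    rw [add_assoc] at hd
    have h3 : p ∣ x := hp.dvd_of_dvd_pow ((Nat.dvd_add_left h4).1 hd)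
    have h5 : p ∣ Nat.gcd x y := Nat.dvd_gcd h3 h
    rw [hcop] at h5
    exact absurd (Nat.dvd_one.1 h5) hp.one_lt.ne'
  have hpx : ¬ p ∣ x := by
    intro h
    have h4 : p ∣ x ^ 4 + 6 * x ^ 2 * y ^ 2 :=
      dvd_add (dvd_pow h (by norm_num)) (((dvd_pow h two_ne_zero).mul_left _).mul_right _)
    have h3 : p ∣ y := hp.dvd_of_dvd_pow ((Nat.dvd_add_right h4).1 hd)
    exact hpy h3
  have hy0 : (y : ZMod p) ≠ 0 := by
    intro h; exact hpy ((ZMod.natCast_eq_zero_iff y p).1 h)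
  have hx0 : (x : ZMod p) ≠ 0 := by
    intro h; exact hpx ((ZMod.natCast_eq_zero_iff x p).1 h)
  have h20 : (2 : ZMod p) ≠ 0 := by
    intro h
    have h1 : ((2 : ℕ) : ZMod p) = 0 := by exact_mod_cast h
    have := (ZMod.natCast_eq_zero_iff 2 p).1 h1
    exact hp2 ((Nat.prime_dvd_prime_iff_eq hp Nat.prime_two).1 this)
  have hF0 : (x : ZMod p) ^ 4 + 6 * (x : ZMod p) ^ 2 * (y : ZMod p) ^ 2 + (y : ZMod p) ^ 4 = 0 := by
    have := (ZMod.natCast_eq_zero_iff (x ^ 4 + 6 * x ^ 2 * y ^ 2 + y ^ 4) p).2 hd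
    push_cast at this
    exact this
  have hm1 : IsSquare (-1 : ZMod p) := by
    refine ⟨((x : ZMod p) ^ 2 + (y : ZMod p) ^ 2) / (2 * x * y), ?_⟩
    field_simp
    linear_combination (-1 : ZMod p) * hF0
  have hm2 : IsSquare (2 : ZMod p) := by
    refine ⟨((x : ZMod p) ^ 2 + 3 * (y : ZMod p) ^ 2) / (2 * y ^ 2), ?_⟩
    field_simp
    linear_combination (-1 : ZMod p) * hF0
  have h3 := ZMod.exists_sq_eq_neg_one_iff.1 hm1
  have h4 := (ZMod.exists_sq_eq_two_iff hp2).1 hm2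
  omega

end Pool.Agent.T2H56.CT
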