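import Mathlib
import Pool.Agent.T2H56.CT.QrB
import Pool.Agent.H383.Reps
import Pool.Agent.H510R2.Div

/-!
Squarefree congruent numbers all of whose prime factors are 1 modulo 8 (helper56).
-/

set_option autoImplicit false
set_option maxHeartbeats 4000000

namespace Pool.Agent.T2H56.CT

open Finset Filter

lemma FN_cong {Q s k : ℕ} (hQ : 0 < Q) (hk : 0 < k) (hks : k ≤ s) : Cong (FN Q s k) := by
  obtain ⟨x, hx⟩ : ∃ x : ℕ, x = Q * s + 1 := ⟨_, rfl⟩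
  obtain ⟨y, hy⟩ : ∃ y : ℕ, y = Q * k := ⟨_, rfl⟩
  have hy0 : 0 < y := by rw [hy]; exact Nat.mul_pos hQ hk
  have hyx : y < x := by
    rw [hx, hy]
    have := Nat.mul_le_mul_left Q hks
    omega
  have hF : FN Q s k = x ^ 4 + 6 * x ^ 2 * y ^ 2 + y ^ 4 := by
    unfold FN; rw [← hx, ← hy]
  have hyq : (0 : ℚ) < y := by exact_mod_cast hy0
  have hxq : (0 : ℚ) < x := by exact_mod_cast hy0.trans hyx
  have hlt : (y : ℚ) < x := by exact_mod_cast hyx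
  have hc : (0 : ℚ) < (x : ℚ) ^ 2 - y ^ 2 := by nlinarith
  have hn : ((FN Q s k : ℕ) : ℚ) = (x : ℚ) ^ 4 + 6 * x ^ 2 * y ^ 2 + y ^ 4 := by
    rw [hF]; push_cast; ring
  have hnp : (0 : ℚ) < (x : ℚ) ^ 4 + 6 * x ^ 2 * y ^ 2 + y ^ 4 := by positivity
  refine ⟨((x : ℚ) ^ 2 - y ^ 2) * ((x : ℚ) ^ 4 + 6 * x ^ 2 * y ^ 2 + y ^ 4) /
      ((x ^ 2 + y ^ 2) * (2 * x * y)), 2 * ((x ^ 2 + y ^ 2) * (2 * x * y)) / ((x : ℚ) ^ 2 - y ^ 2),
    (((x : ℚ) ^ 2 + y ^ 2) ^ 4 + (2 * x * y) ^ 4) /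
      ((x ^ 2 + y ^ 2) * (2 * x * y) * ((x : ℚ) ^ 2 - y ^ 2)), by positivity, by positivity,
    by positivity, ?_, ?_⟩
  · field_simp
    ring
  · rw [hn]
    field_simp

lemma FN_fiber {Q S : ℕ} (hQ : 0 < Q) (n : ℕ) (A : Finset (ℕ × ℕ))
    (hA : ∀ a ∈ A, (S < a.1 ∧ a.1 ≤ 2 * S) ∧ (0 < a.2 ∧ a.2 ≤ S) ∧ FN Q a.1 a.2 = n) :
    A.card ≤ (Pool.Agent.H383.Gauss.A n).ncard := by
  classical
  have hinj : Set.InjOn (fun a : ℕ × ℕ => (⟨(((Q * a.1 + 1) ^ 2 + (Q * a.2) ^ 2 : ℕ) : ℤ),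
      ((2 * (Q * a.1 + 1) * (Q * a.2) : ℕ) : ℤ)⟩ : GaussianInt)) (A : Set (ℕ × ℕ)) := by
    intro a ha b hb hab
    rw [mem_coe] at ha hb
    obtain ⟨⟨a1, a2⟩, ⟨a3, a4⟩, -⟩ := hA a ha
    obtain ⟨⟨b1, b2⟩, ⟨b3, b4⟩, -⟩ := hA b hb
    have h1 := congrArg Zsqrtd.re hab
    have h2 := congrArg Zsqrtd.im hab
    simp only at h1 h2
    obtain ⟨x1, hx1⟩ : ∃ x : ℕ, x = Q * a.1 + 1 := ⟨_, rfl⟩
    obtain ⟨y1, hy1⟩ : ∃ y : ℕ, y = Q * a.2 := ⟨_, rfl⟩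
    obtain ⟨x2, hx2⟩ : ∃ x : ℕ, x = Q * b.1 + 1 := ⟨_, rfl⟩
    obtain ⟨y2, hy2⟩ : ∃ y : ℕ, y = Q * b.2 := ⟨_, rfl⟩
    rw [← hx1, ← hy1, ← hx2, ← hy2] at h1 h2
    have l1 : y1 < x1 := by
      rw [hx1, hy1]
      have := Nat.mul_le_mul_left Q (show a.2 ≤ a.1 by omega)
      omega
    have l2 : y2 < x2 := by
      rw [hx2, hy2]
      have := Nat.mul_le_mul_left Q (show b.2 ≤ b.1 by omega)
      omega
    have h1' : (x1 : ℤ) ^ 2 + y1 ^ 2 = x2 ^ 2 + y2 ^ 2 := by exact_mod_cast h1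
    have h2' : 2 * (x1 : ℤ) * y1 = 2 * x2 * y2 := by exact_mod_cast h2
    have l1' : (y1 : ℤ) < x1 := by exact_mod_cast l1
    have l2' : (y2 : ℤ) < x2 := by exact_mod_cast l2
    have s1 : ((x1 : ℤ) + y1) ^ 2 = (x2 + y2) ^ 2 := by linear_combination h1' + h2'
    have s2 : ((x1 : ℤ) - y1) ^ 2 = (x2 - y2) ^ 2 := by linear_combination h1' - h2'
    have t1 : (x1 : ℤ) + y1 = x2 + y2 := (sq_eq_sq₀ (by positivity) (by positivity)).1 s1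
    have t2 : (x1 : ℤ) - y1 = x2 - y2 := (sq_eq_sq₀ (by linarith) (by linarith)).1 s2
    have u1 : (x1 : ℤ) = x2 := by linarith
    have u2 : (y1 : ℤ) = y2 := by linarith
    have v1 : x1 = x2 := by exact_mod_cast u1
    have v2 : y1 = y2 := by exact_mod_cast u2
    rw [hx1, hx2] at v1
    rw [hy1, hy2] at v2
    exact Prod.ext (Nat.eq_of_mul_eq_mul_left hQ (by omega)) (Nat.eq_of_mul_eq_mul_left hQ v2)
  rw [← card_image_of_injOn hinj, ← Set.ncard_coe_finset]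
  apply Set.ncard_le_ncard _ (Pool.Agent.H383.Gauss.A_finite n)
  intro z hz
  rw [mem_coe, mem_image] at hz
  obtain ⟨a, ha, rfl⟩ := hz
  obtain ⟨-, -, h3⟩ := hA a ha
  show Zsqrtd.norm _ = (n : ℤ)
  rw [Pool.Agent.H383.Gauss.norm_eq, ← h3]
  unfold FN
  push_cast
  ring

/-- the good numbers -/
def Good8 (M X n : ℕ) : Prop :=
  n ≤ X ∧ n ≡ 1 [MOD M] ∧ Squarefree n ∧ Cong n ∧ ∀ p : ℕ, p.Prime → p ∣ n → p % 8 = 1

theorem quartic (M : ℕ) (hM : 0 < M) (ε : ℝ) (hε : 0 < ε) : ∀ᶠ X : ℕ in atTop,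
    (X : ℝ) ^ (1 / 2 - ε) ≤ (({n : ℕ | Good8 M X n}.ncard : ℕ) : ℝ) := by
  classical
  obtain ⟨F, hF, hFp⟩ := ex_fac
  obtain ⟨Q, hQd⟩ : ∃ Q : ℕ, Q = 2 * M * F := ⟨_, rfl⟩
  have hQ : 0 < Q := by rw [hQd]; exact Nat.mul_pos (by omega) (by omega)
  have hQ2 : 2 ∣ Q := ⟨M * F, by rw [hQd]; ring⟩
  have hMQ : M ∣ Q := ⟨2 * F, by rw [hQd]; ring⟩
  have hsm : ∀ p : ℕ, p.Prime → p ≤ 200 → p ∣ Q := fun p hp hpk =>
    (hFp p hp hpk).trans ⟨2 * M, by rw [hQd]; ring⟩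
  clear hQd
  obtain ⟨C, hC, hdiv⟩ := Pool.Agent.H510R2.divisor_bound (ε / 2) (by positivity)
  obtain ⟨A, hA⟩ : ∃ A : ℕ, A = 12 * Q := ⟨_, rfl⟩
  have hA0 : 0 < A := by rw [hA]; positivity
  have hAr : (0 : ℝ) < A := by exact_mod_cast hA0
  have tX : Tendsto (fun X : ℕ => (X : ℝ)) atTop atTop := tendsto_natCast_atTop_atTop
  have t1 : Tendsto (fun X : ℕ => (X : ℝ) ^ (1 / 4 : ℝ) / A) atTop atTop :=
    ((tendsto_rpow_atTop (by norm_num)).comp tX).atTop_div_const hAr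
  have tS : Tendsto (fun X : ℕ => ⌊(X : ℝ) ^ (1 / 4 : ℝ) / A⌋₊) atTop atTop :=
    tendsto_nat_floor_atTop.comp t1
  have p1 := tS.eventually (pi_small (4 * Q) (by positivity) (1 / 128) (by norm_num))
  have tSq : Tendsto (fun S : ℕ => S ^ 2) atTop atTop := tendsto_pow_atTop (by norm_num)
  have p2 := tS.eventually (tSq.eventually
    (pi_small (12 * Q ^ 2) (by positivity) (1 / 128) (by norm_num)))
  have t3 : Tendsto (fun X : ℕ => (X : ℝ) ^ (ε / 2)) atTop atTop :=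
    (tendsto_rpow_atTop (by positivity)).comp tX
  filter_upwards [p1, p2, t1.eventually_ge_atTop 2, t3.eventually_ge_atTop (32 * C * A ^ 2),
    eventually_ge_atTop 1] with X h1 h2 h3 h4 hX1
  have hX0 : (0 : ℝ) < X := by exact_mod_cast hX1
  obtain ⟨S, hS⟩ : ∃ S : ℕ, S = ⌊(X : ℝ) ^ (1 / 4 : ℝ) / A⌋₊ := ⟨_, rfl⟩
  rw [← hS] at h1 h2
  set x : ℝ := (X : ℝ) ^ (1 / 4 : ℝ) with hx
  have hx0 : 0 < x := by positivity
  have hx4 : x ^ 4 = X := by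
    rw [hx, ← Real.rpow_natCast, ← Real.rpow_mul hX0.le]; norm_num
  have hSle : (S : ℝ) ≤ x / A := by rw [hS]; exact Nat.floor_le (by positivity)
  have hSgt : x / A < S + 1 := by rw [hS]; exact Nat.lt_floor_add_one _
  have hShalf : x / (2 * A) ≤ S := by
    have h : x / (2 * A) = (x / A) / 2 := by field_simp
    rw [h]
    linarith
  have hS0r : (0 : ℝ) < S := lt_of_lt_of_le (by positivity) hShalf
  have hS0 : 0 < S := by exact_mod_cast hS0r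
  -- the bad pairs
  have hbad := badQ_card Q 200 S (by norm_num) hQ
  have hb2 : ((BadQ Q 200 (4 * Q * S) (12 * Q ^ 2 * S ^ 2) S).card : ℝ) ≤ S * S / 8 := by
    have g1 : 4 * (S : ℝ) * (Nat.primeCounting (4 * Q * S)) ≤ 4 * S * (1 / 128 * S) :=
      mul_le_mul_of_nonneg_left h1 (by positivity)
    have g2 : 4 * ((Nat.primeCounting (12 * Q ^ 2 * S ^ 2) : ℕ) : ℝ) ≤ 4 * (1 / 128 * ((S ^ 2 : ℕ) : ℝ)) :=
      mul_le_mul_of_nonneg_left h2 (by norm_num)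
    have g3 : (S : ℝ) * S * (10 / ((200 : ℕ) + 1)) ≤ S * S * (1 / 20) := by
      apply mul_le_mul_of_nonneg_left _ (by positivity)
      norm_num
    push_cast at g2 g3 hbad
    nlinarith
  set box := (Ioc S (2 * S)) ×ˢ (Ioc 0 S) with hbox
  set 𝒢 := box.filter (fun a => ¬ B4 Q 200 (4 * Q * S) (12 * Q ^ 2 * S ^ 2) a) with h𝒢
  have h𝒢c : (S : ℝ) * S / 2 ≤ 𝒢.card := by
    have g1 : (BadQ Q 200 (4 * Q * S) (12 * Q ^ 2 * S ^ 2) S).card + 𝒢.card = S * S := by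
      unfold BadQ
      rw [h𝒢, hbox, card_filter_add_card_filter_not, card_product, Nat.card_Ioc, Nat.card_Ioc]
      congr 1
      omega
    have g2 : ((BadQ Q 200 (4 * Q * S) (12 * Q ^ 2 * S ^ 2) S).card : ℝ) + 𝒢.card = S * S := by
      exact_mod_cast g1
    have g3 : (0 : ℝ) < S * S := by positivity
    linarith
  have hmem : ∀ a ∈ 𝒢, (S < a.1 ∧ a.1 ≤ 2 * S) ∧ (0 < a.2 ∧ a.2 ≤ S) ∧
      ¬ B4 Q 200 (4 * Q * S) (12 * Q ^ 2 * S ^ 2) a := by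
    intro a ha
    rw [h𝒢, mem_filter, hbox, mem_product, mem_Ioc, mem_Ioc] at ha
    exact ⟨ha.1.1, ha.1.2, ha.2⟩
  have hsize : ∀ a ∈ 𝒢, FN Q a.1 a.2 ≤ X := by
    intro a ha
    obtain ⟨⟨g1, g2⟩, ⟨g3, g4⟩, -⟩ := hmem a ha
    have h3 : Q * a.1 + 1 ≤ 3 * (Q * S) := by
      have g2 : Q * a.1 ≤ Q * (2 * S) := Nat.mul_le_mul_left _ g2
      have g3 : 1 ≤ Q * S := Nat.mul_pos hQ hS0
      nlinarith
    have h4 : Q * a.2 ≤ Q * S := Nat.mul_le_mul_left _ g4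
    have h5 : FN Q a.1 a.2 ≤ (A * S) ^ 4 := by
      unfold FN
      calc (Q * a.1 + 1) ^ 4 + 6 * (Q * a.1 + 1) ^ 2 * (Q * a.2) ^ 2 + (Q * a.2) ^ 4
          ≤ (3 * (Q * S)) ^ 4 + 6 * (3 * (Q * S)) ^ 2 * (Q * S) ^ 2 + (Q * S) ^ 4 := by gcongr
        _ = 136 * (Q * S) ^ 4 := by ring
        _ ≤ 20736 * (Q * S) ^ 4 := Nat.mul_le_mul_right _ (by norm_num)
        _ = _ := by rw [hA]; ring
    have h6 : ((A : ℝ) * S) ^ 4 ≤ X := by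
      rw [← hx4]
      apply pow_le_pow_left₀ (by positivity)
      rw [mul_comm]
      exact (le_div_iff₀ hAr).1 hSle
    have h7 : (A * S) ^ 4 ≤ X := by exact_mod_cast h6
    exact h5.trans h7
  set f : ℕ × ℕ → ℕ := fun a => FN Q a.1 a.2 with hf
  have hsub : (𝒢.image f : Set ℕ) ⊆ {n : ℕ | Good8 M X n} := by
    intro n hn
    rw [mem_coe, mem_image] at hn
    obtain ⟨a, ha, rfl⟩ := hn
    obtain ⟨g1, g2, g3⟩ := hmem a ha
    obtain ⟨hcop, hsf⟩ := FN_facts hQ hsm g1 g2 (y := 200) g3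
    refine ⟨hsize a ha, ?_, hsf, FN_cong hQ g2.1 (by omega), fun p hp hd => FN_prime hQ2 hcop hp hd⟩
    apply Nat.modEq_iff_dvd.2
    show (M : ℤ) ∣ ((1 : ℕ) : ℤ) - ((FN Q a.1 a.2 : ℕ) : ℤ)
    rw [FN_cast]
    refine (Int.natCast_dvd_natCast.2 hMQ).trans ?_
    refine ⟨-(Q ^ 3 * a.1 ^ 4 + 4 * Q ^ 2 * a.1 ^ 3 +
      6 * Q * a.1 ^ 2 + 4 * a.1 + 6 * (Q * a.1 + 1) ^ 2 * Q * a.2 ^ 2 + Q ^ 3 * a.2 ^ 4), ?_⟩
    unfold FF
    push_cast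
    ring
  -- multiplicities
  obtain ⟨N, hN⟩ : ∃ N : ℕ, N = ⌊4 * (C * (X : ℝ) ^ (ε / 2))⌋₊ := ⟨_, rfl⟩
  have hfib : ∀ n ∈ 𝒢.image f, (𝒢.filter (fun a => f a = n)).card ≤ N := by
    intro n hn
    rw [mem_image] at hn
    obtain ⟨a0, ha0, rfl⟩ := hn
    have h5 := FN_fiber hQ (S := S) (f a0) (𝒢.filter (fun a => f a = f a0)) (by
      intro a ha
      rw [mem_filter] at ha
      obtain ⟨g1, g2, -⟩ := hmem a ha.1
      exact ⟨g1, g2, ha.2⟩)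
    have h6 : 1 ≤ f a0 := by
      show 1 ≤ FN Q a0.1 a0.2
      unfold FN
      have : 0 < (Q * a0.1 + 1) ^ 4 := by positivity
      omega
    have h7 := Pool.Agent.H383.Gauss.card_A_le (f a0) h6
    have h8 : ((𝒢.filter (fun a => f a = f a0)).card : ℝ) ≤ 4 * ((f a0).divisors.card : ℝ) := by
      exact_mod_cast h5.trans h7
    have h9 := hdiv (f a0) h6
    have h10 : ((f a0 : ℕ) : ℝ) ^ (ε / 2) ≤ (X : ℝ) ^ (ε / 2) := by
      apply Real.rpow_le_rpow (Nat.cast_nonneg _) _ (by positivity)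
      exact_mod_cast hsize a0 ha0
    rw [hN]
    apply Nat.le_floor
    have h11 : C * ((f a0 : ℕ) : ℝ) ^ (ε / 2) ≤ C * (X : ℝ) ^ (ε / 2) :=
      mul_le_mul_of_nonneg_left h10 hC.le
    linarith
  have hcard := card_le_mul_card_image (f := f) 𝒢 N hfib
  have hfin : {n : ℕ | Good8 M X n}.Finite := (Set.finite_Iic X).subset fun n hn => hn.1
  have himg : (𝒢.image f).card ≤ {n : ℕ | Good8 M X n}.ncard := by
    rw [← Set.ncard_coe_finset]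
    exact Set.ncard_le_ncard hsub hfin
  set Z : ℝ := (({n : ℕ | Good8 M X n}.ncard : ℕ) : ℝ) with hZ
  have hNle : (N : ℝ) ≤ 4 * (C * (X : ℝ) ^ (ε / 2)) := by
    rw [hN]; exact Nat.floor_le (by positivity)
  have hZ0 : 0 ≤ Z := Nat.cast_nonneg _
  have h5 : (S : ℝ) * S / 2 ≤ 4 * (C * (X : ℝ) ^ (ε / 2)) * Z := by
    refine h𝒢c.trans ?_
    have h6 : (𝒢.card : ℝ) ≤ N * ((𝒢.image f).card : ℝ) := by exact_mod_cast hcard
    have h7 : ((𝒢.image f).card : ℝ) ≤ Z := by rw [hZ]; exact_mod_cast himg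
    calc (𝒢.card : ℝ) ≤ N * ((𝒢.image f).card : ℝ) := h6
      _ ≤ N * Z := mul_le_mul_of_nonneg_left h7 (Nat.cast_nonneg _)
      _ ≤ _ := mul_le_mul_of_nonneg_right hNle hZ0
  have h6 : (X : ℝ) ^ (1 / 2 : ℝ) / (8 * A ^ 2) ≤ (S : ℝ) * S / 2 := by
    have g1 : (X : ℝ) ^ (1 / 2 : ℝ) = x ^ 2 := by
      rw [hx, ← Real.rpow_natCast, ← Real.rpow_mul hX0.le]; norm_num
    have g2 : (x / (2 * A)) ^ 2 ≤ (S : ℝ) ^ 2 := pow_le_pow_left₀ (by positivity) hShalf 2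
    have g3 : (x / (2 * A)) ^ 2 = x ^ 2 / (8 * A ^ 2) * 2 := by field_simp; norm_num
    rw [g1]
    nlinarith
  -- conclusion
  have e0 : (X : ℝ) ^ (1 / 2 : ℝ) = (X : ℝ) ^ (1 / 2 - ε) * ((X : ℝ) ^ (ε / 2) * (X : ℝ) ^ (ε / 2)) := by
    rw [← Real.rpow_add hX0, ← Real.rpow_add hX0]
    congr 1; ring
  obtain ⟨w, hw⟩ : ∃ w : ℝ, w = (X : ℝ) ^ (ε / 2) := ⟨_, rfl⟩
  rw [← hw] at e0 h4 h5
  have hw0 : 0 < w := by rw [hw]; positivity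
  set T : ℝ := (X : ℝ) ^ (1 / 2 - ε) with hT
  have hT0 : 0 < T := by positivity
  rw [e0] at h6
  have h7 : T * (w * w) / (8 * A ^ 2) ≤ 4 * (C * w) * Z := h6.trans h5
  rw [div_le_iff₀ (by positivity)] at h7
  have h8 : T * w ≤ 32 * C * A ^ 2 * Z := by
    have : (T * w) * w ≤ (32 * C * A ^ 2 * Z) * w := by linarith
    exact le_of_mul_le_mul_right this hw0
  have h9 : T * (32 * C * A ^ 2) ≤ 32 * C * A ^ 2 * Z :=
    (mul_le_mul_of_nonneg_left h4 hT0.le).trans h8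
  have h10 : (0 : ℝ) < 32 * C * A ^ 2 := by positivity
  have h11 : (32 * C * A ^ 2) * T ≤ (32 * C * A ^ 2) * Z := by linarith
  exact le_of_mul_le_mul_left h11 h10

end Pool.Agent.T2H56.CT
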