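import Mathlib
import Pool.Agent.Y887.QE.QSv
import Pool.Agent.T2H56.CT.Cg

/-!
Tuples of squarefree congruent numbers at bounded distances (helper56).

The numbers `b (t ^ 4 - b ^ 2 k ^ 4) = b (t ^ 2 - b k ^ 2) (t ^ 2 + b k ^ 2)` are congruent, and for
fixed `b` and different `k` they are at a bounded distance.
-/

set_option autoImplicit false
set_option maxHeartbeats 4000000

namespace Pool.Agent.T2H56.CT

open Finset Filter Pool.Agent.Y887.QE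

lemma not_sq {b k : ℕ} (hb : 2 ≤ b) (hs : Squarefree b) (hk : 0 < k) :
    ¬ IsSquare ((b * k ^ 2 : ℕ) : ℤ) := by
  rintro ⟨r, hr⟩
  have h1 : b * k ^ 2 = r.natAbs ^ 2 := by
    have := congrArg Int.natAbs hr
    rw [Int.natAbs_natCast, Int.natAbs_mul] at this
    rw [this, pow_two]
  have h2 : k ∣ r.natAbs := (Nat.pow_dvd_pow_iff (n := 2) (by norm_num)).1 ⟨b, by rw [← h1]; ring⟩
  obtain ⟨s, hs'⟩ := h2
  rw [hs', mul_pow, mul_comm] at h1
  have h3 : b = s ^ 2 := Nat.eq_of_mul_eq_mul_left (by positivity) h1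
  have h4 : IsUnit s := hs s ⟨1, by rw [h3]; ring⟩
  rw [Nat.isUnit_iff] at h4
  rw [h3, h4] at hb
  norm_num at hb

lemma not_sq_neg {b k : ℕ} (hb : 2 ≤ b) (hk : 0 < k) :
    ¬ IsSquare (-((b * k ^ 2 : ℕ) : ℤ)) := by
  intro h
  have h1 := h.nonneg
  have h2 : 0 < b * k ^ 2 := by positivity
  omega

lemma facts {b k t N : ℕ} (hbs : Squarefree b) (hb : 0 < b) (hk : 0 < k)
    (ht : 0 < t) (hlt : b * k ^ 2 < t ^ 2)
    (h2 : ∀ p : ℕ, p.Prime → p ∣ 2 * b * k →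
      ¬ p ∣ vq ((b * k ^ 2 : ℕ) : ℤ) t ∧ ¬ p ∣ vq (-((b * k ^ 2 : ℕ) : ℤ)) t)
    (hs1 : Squarefree (vq ((b * k ^ 2 : ℕ) : ℤ) t))
    (hs2 : Squarefree (vq (-((b * k ^ 2 : ℕ) : ℤ)) t))
    (hN : (N : ℤ) = b * ((t : ℤ) ^ 4 - b ^ 2 * k ^ 4)) :
    N = b * (vq ((b * k ^ 2 : ℕ) : ℤ) t * vq (-((b * k ^ 2 : ℕ) : ℤ)) t) ∧
      Squarefree N ∧ Cong N := by
  have hlt' : (b : ℤ) * k ^ 2 < t ^ 2 := by exact_mod_cast hlt
  have e1 : ((vq ((b * k ^ 2 : ℕ) : ℤ) t : ℕ) : ℤ) = t ^ 2 - b * k ^ 2 := by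
    unfold vq
    rw [Int.natAbs_of_nonneg (by push_cast; linarith)]
    push_cast; ring
  have e2 : ((vq (-((b * k ^ 2 : ℕ) : ℤ)) t : ℕ) : ℤ) = t ^ 2 + b * k ^ 2 := by
    unfold vq
    rw [Int.natAbs_of_nonneg (by rw [sub_neg_eq_add]; positivity)]
    push_cast; ring
  have hNe : N = b * (vq ((b * k ^ 2 : ℕ) : ℤ) t * vq (-((b * k ^ 2 : ℕ) : ℤ)) t) := by
    have h3 : (N : ℤ) =
        ((b * (vq ((b * k ^ 2 : ℕ) : ℤ) t * vq (-((b * k ^ 2 : ℕ) : ℤ)) t) : ℕ) : ℤ) := by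
      rw [Nat.cast_mul, Nat.cast_mul, e1, e2, hN]
      ring
    exact_mod_cast h3
  refine ⟨hNe, ?_, ?_⟩
  · rw [hNe]
    have c1 : Nat.Coprime (vq ((b * k ^ 2 : ℕ) : ℤ) t) (vq (-((b * k ^ 2 : ℕ) : ℤ)) t) := by
      apply Nat.coprime_of_dvd
      intro p hp h3 h4
      have h5 : (p : ℤ) ∣ t ^ 2 - b * k ^ 2 := by rw [← e1]; exact_mod_cast h3
      have h6 : (p : ℤ) ∣ t ^ 2 + b * k ^ 2 := by rw [← e2]; exact_mod_cast h4
      have h7 : (p : ℤ) ∣ ((2 * b * k * k : ℕ) : ℤ) := by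
        have := dvd_sub h6 h5
        refine (this.trans (dvd_of_eq ?_))
        push_cast; ring
      have h8 : p ∣ 2 * b * k * k := by exact_mod_cast h7
      have h9 : p ∣ 2 * b * k := by
        rcases (Nat.Prime.dvd_mul hp).1 h8 with h | h
        · exact h
        · exact h.mul_left _
      exact (h2 p hp h9).1 h3
    have c2 : Nat.Coprime b (vq ((b * k ^ 2 : ℕ) : ℤ) t * vq (-((b * k ^ 2 : ℕ) : ℤ)) t) := by
      apply Nat.coprime_of_dvd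
      intro p hp h3 h4
      have h9 : p ∣ 2 * b * k := (h3.mul_left 2).mul_right k
      rcases (Nat.Prime.dvd_mul hp).1 h4 with h | h
      · exact (h2 p hp h9).1 h
      · exact (h2 p hp h9).2 h
    rw [Nat.squarefree_mul c2, Nat.squarefree_mul c1]
    exact ⟨hbs, hs1, hs2⟩
  · apply cong_of (A := 1) (B := b) (t := t) (k := k) one_pos hb ht hk (by simpa using hlt)
    rw [hN]
    push_cast
    ring

end Pool.Agent.T2H56.CT
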