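import Mathlib
import Pool.Agent.T2H56.CT.Tup

set_option autoImplicit false
set_option maxHeartbeats 4000000

namespace Pool.Agent.T2H56.CT

open Finset Filter Pool.Agent.Y887.QE

/-- the conditions on the base point of a tuple -/
def TupleAt (K b M R C0 X : ℕ) (h : Fin K → ℕ) (n : ℕ) : Prop :=
  n ≤ X ∧ (∀ i, n + h i ≡ b [MOD M] ∧ Squarefree (n + h i) ∧ Cong (n + h i) ∧ b ∣ n + h i ∧
    ∀ p : ℕ, p.Prime → p ∣ (n + h i) / b → X < p ^ R) ∧
    ∑ i, ((n + h i) / b).primeFactors.card ≤ C0 * K * (Nat.log 2 K + 1)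

lemma log_two_mul {K : ℕ} (hK : 1 ≤ K) : Nat.log 2 (2 * K) = Nat.log 2 K + 1 := by
  rw [mul_comm, Nat.log_mul_base (by norm_num) (by omega)]

/-- elementary asymptotics -/
lemma asym (A m0 K1 : ℕ) (hA : 1 ≤ A) : ∀ᶠ X : ℕ in atTop,
    ∀ Y : ℕ, Y = ⌊(X : ℝ) ^ (1 / 4 : ℝ) / A⌋₊ →
      (X : ℝ) ^ (1 / 4 : ℝ) / Real.log X ^ (K1 + 1) + m0 ≤ (Y : ℝ) / Real.log Y ^ K1 ∧
      X ≤ Y ^ 5 ∧ (A * Y) ^ 4 ≤ X ∧ m0 ≤ Y := by
  have hA0 : (0 : ℝ) < A := by exact_mod_cast hA
  have tX : Tendsto (fun X : ℕ => (X : ℝ)) atTop atTop := tendsto_natCast_atTop_atTop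
  have t1 : Tendsto (fun X : ℕ => (X : ℝ) ^ (1 / 4 : ℝ)) atTop atTop :=
    (tendsto_rpow_atTop (by norm_num)).comp tX
  have t2 : Tendsto (fun X : ℕ => (X : ℝ) ^ (1 / 4 : ℝ) / A) atTop atTop :=
    t1.atTop_div_const hA0
  have t3 : Tendsto (fun X : ℕ => Real.log X) atTop atTop := Real.tendsto_log_atTop.comp tX
  -- X^(1/4) / log^(K1+1) tends to infinity
  have t4 : Tendsto (fun X : ℕ => (X : ℝ) ^ (1 / 4 : ℝ) / Real.log X ^ (K1 + 1)) atTop atTop := by
    have h1 : (fun x : ℝ => Real.log x ^ (K1 + 1)) =o[atTop] fun x => x ^ (1 / 4 : ℝ) :=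
      (isLittleO_log_rpow_rpow_atTop ((K1 + 1 : ℕ) : ℝ) (s := 1 / 4) (by norm_num)).congr_left
        fun x => Real.rpow_natCast _ _
    have h2 : Tendsto (fun x : ℝ => Real.log x ^ (K1 + 1) / x ^ (1 / 4 : ℝ)) atTop (nhds 0) :=
      h1.tendsto_div_nhds_zero
    have h3 : Tendsto (fun x : ℝ => (Real.log x ^ (K1 + 1) / x ^ (1 / 4 : ℝ))⁻¹) atTop atTop := by
      apply Tendsto.inv_tendsto_nhdsGT_zero
      rw [tendsto_nhdsWithin_iff]
      refine ⟨h2, ?_⟩
      filter_upwards [eventually_gt_atTop 1] with x hx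
      have : 0 < Real.log x := Real.log_pos hx
      show 0 < Real.log x ^ (K1 + 1) / x ^ (1 / 4 : ℝ)
      positivity
    refine (h3.comp tX).congr fun X => ?_
    simp only [Function.comp_apply, inv_div]
  filter_upwards [t2.eventually_ge_atTop (max 4 (m0 + 1)), t3.eventually_ge_atTop (4 * A + 4 : ℝ),
    t4.eventually_ge_atTop (m0 : ℝ), t1.eventually_ge_atTop (32 * (A : ℝ) ^ 5),
    eventually_ge_atTop 3] with X h2 h3 h4 h1 hX3
  intro Y hY
  have hX0 : (0 : ℝ) < X := by exact_mod_cast (by omega : 0 < X)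
  set x : ℝ := (X : ℝ) ^ (1 / 4 : ℝ) with hx
  have hx0 : 0 < x := by positivity
  have hx4 : x ^ 4 = X := by
    rw [hx, ← Real.rpow_natCast, ← Real.rpow_mul hX0.le]; norm_num
  have hYle : (Y : ℝ) ≤ x / A := by rw [hY]; exact Nat.floor_le (by positivity)
  have hYgt : x / A < Y + 1 := by rw [hY]; exact Nat.lt_floor_add_one _
  have h2a : (4 : ℝ) ≤ x / A := (le_max_left _ _).trans h2
  have h2b : (m0 + 1 : ℝ) ≤ x / A := (le_max_right _ _).trans h2
  have hYhalf : x / (2 * A) ≤ Y := by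
    have : x / (2 * A) = (x / A) / 2 := by field_simp
    rw [this]
    linarith
  have hY3 : (3 : ℝ) ≤ Y := by linarith
  have hm0Y : m0 ≤ Y := by
    have : (m0 : ℝ) ≤ Y := by linarith
    exact_mod_cast this
  have hA1 : (1 : ℝ) ≤ A := by exact_mod_cast hA
  have hYX : (Y : ℝ) ≤ X := by
    have h5 : x / A ≤ x := div_le_self hx0.le hA1
    have hx1 : 1 ≤ x := by
      have : x / A ≤ x := h5
      linarith
    have h6 : x ≤ x ^ 4 := le_self_pow₀ hx1 (by norm_num)
    linarith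
  have hlogY : 1 ≤ Real.log Y := by
    have : Real.exp 1 ≤ Y := by
      have := Real.exp_one_lt_d9
      linarith
    rw [Real.le_log_iff_exp_le (by linarith)]
    exact this
  have hlogle : Real.log Y ≤ Real.log X := Real.log_le_log (by linarith) hYX
  refine ⟨?_, ?_, ?_, hm0Y⟩
  · have hL : 0 < Real.log X := by linarith
    have e1 : (Y : ℝ) / Real.log X ^ K1 ≤ (Y : ℝ) / Real.log Y ^ K1 := by
      apply div_le_div_of_nonneg_left (by linarith) (by positivity)
      exact pow_le_pow_left₀ (by linarith) hlogle _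
    have e2 : 2 * (x / Real.log X ^ (K1 + 1)) ≤ (Y : ℝ) / Real.log X ^ K1 := by
      have e3 : 2 * (x / Real.log X ^ (K1 + 1)) = (2 * x / Real.log X) / Real.log X ^ K1 := by
        rw [pow_succ]
        field_simp
      rw [e3]
      apply div_le_div_of_nonneg_right _ (by positivity)
      refine le_trans ?_ hYhalf
      rw [div_le_div_iff₀ hL (by positivity)]
      nlinarith
    linarith
  · have e1 : (X : ℝ) ≤ (Y : ℝ) ^ 5 := by
      have e2 : (X : ℝ) ≤ (x / (2 * A)) ^ 5 := by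
        rw [← hx4, div_pow, le_div_iff₀ (by positivity)]
        have : x ^ 5 = x ^ 4 * x := by ring
        rw [this]
        apply mul_le_mul_of_nonneg_left _ (by positivity)
        rw [mul_pow]
        linarith
      exact e2.trans (pow_le_pow_left₀ (by positivity) hYhalf 5)
    exact_mod_cast e1
  · have e1 : ((A : ℝ) * Y) ^ 4 ≤ X := by
      rw [← hx4]
      apply pow_le_pow_left₀ (by positivity)
      rw [mul_comm]
      exact (le_div_iff₀ hA0).1 hYle
    exact_mod_cast e1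

/-- **Tuples** -/
theorem tuples : ∃ C0 : ℕ, 1 ≤ C0 ∧ ∀ K : ℕ, 1 ≤ K → ∃ R : ℕ, 1 ≤ R ∧
    ∀ b M : ℕ, 2 ≤ b → Squarefree b → 0 < M → ∃ h : Fin K → ℕ, StrictMono h ∧
      ∀ᶠ X : ℕ in atTop, (X : ℝ) ^ (1 / 4 : ℝ) / Real.log X ^ R ≤
        (({n : ℕ | TupleAt K b M R C0 X h n}.ncard : ℕ) : ℝ) := by
  classical
  obtain ⟨C1, hC1, hQS⟩ := quad_sieve
  refine ⟨4 * C1, by omega, fun K hK => ?_⟩
  obtain ⟨K1, hK1, hQS⟩ := hQS (2 * K) (by omega)
  refine ⟨5 * K1 + 1, by omega, ?_⟩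
  intro b M hb hbs hM
  obtain ⟨Q, hQd⟩ : ∃ Q : ℕ, Q = b * M * (8 * K).factorial := ⟨_, rfl⟩
  have hQ : 0 < Q := by
    rw [hQd]
    have := (8 * K).factorial_pos
    have : 0 < b := by omega
    positivity
  have hbQ : b ∣ Q := ⟨M * (8 * K).factorial, by rw [hQd]; ring⟩
  have hMQ : M ∣ Q := ⟨b * (8 * K).factorial, by rw [hQd]; ring⟩
  have hfQ : (8 * K).factorial ∣ Q := ⟨b * M, by rw [hQd]; ring⟩
  have hsmall : ∀ p : ℕ, p.Prime → p ≤ 8 * K → p ∣ Q := fun p hp hpk =>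
    ((Nat.Prime.dvd_factorial hp).2 hpk).trans hfQ
  set k : Fin K → ℕ := fun i => Q * (K - i) with hk
  have hk0 : ∀ i, 0 < k i := fun i => by
    have := i.2
    have h1 : 0 < K - i := by omega
    exact Nat.mul_pos hQ h1
  have hkle : ∀ i, k i ≤ Q * K := fun i => Nat.mul_le_mul_left _ (Nat.sub_le _ _)
  have hpk : ∀ i p, p.Prime → p ∣ 2 * b * k i → p ∣ Q := by
    intro i p hp hd
    rcases (Nat.Prime.dvd_mul hp).1 hd with h | h
    · rcases (Nat.Prime.dvd_mul hp).1 h with h | h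
      · have : p = 2 := (Nat.prime_dvd_prime_iff_eq hp Nat.prime_two).1 h
        exact hsmall p hp (by omega)
      · exact h.trans hbQ
    · rcases (Nat.Prime.dvd_mul hp).1 h with h | h
      · exact h
      · have h1 : p ≤ K - i := Nat.le_of_dvd (by have := i.2; omega) h
        exact hsmall p hp (by omega)
  set D : Fin K × Bool → ℤ := fun h => if h.2 then ((b * k h.1 ^ 2 : ℕ) : ℤ) else
    -((b * k h.1 ^ 2 : ℕ) : ℤ) with hD
  have hE := hQS (Fin K × Bool) (by simp [mul_comm]) D Q (fun _ => 1) (fun _ => 1) (by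
      rintro ⟨i, s⟩
      cases s
      · simpa [hD] using not_sq_neg hb (hk0 i)
      · simpa [hD] using not_sq hb hbs (hk0 i)) hQ (fun _ _ => one_dvd _) (by
      intro _ p hp h1
      exact absurd (Nat.dvd_one.1 h1) hp.one_lt.ne') (by
      rintro ⟨i, s⟩ m p hp hpQ
      rw [Nat.div_one, dvd_vq]
      intro h1
      have h2 : (p : ℤ) ∣ (Q : ℤ) := by exact_mod_cast hpQ
      have h3 : (p : ℤ) ∣ D (i, s) := by
        have h4 : (p : ℤ) ∣ ((b * k i ^ 2 : ℕ) : ℤ) := by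
          have : p ∣ b * k i ^ 2 := by
            rw [hk]
            simp only [pow_two, mul_assoc]
            exact (hpQ.mul_right _).mul_left _
          exact_mod_cast this
        cases s
        · simpa [hD] using h4
        · simpa [hD] using h4
      have h5 : (p : ℤ) ∣ 1 := by
        have h6 : (1 : ℤ) = (((Q * m + 1 : ℕ) : ℤ) ^ 2 - D (i, s)) + D (i, s) -
            Q * (Q * m ^ 2 + 2 * m) := by push_cast; ring
        rw [h6]
        exact dvd_sub (dvd_add h1 h3) (h2.mul_right _)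
      have h7 : p ∣ 1 := by exact_mod_cast h5
      exact absurd (Nat.dvd_one.1 h7) hp.one_lt.ne') (by
      intro p hp hp4
      exact hsmall p hp (by omega))
  obtain ⟨Y0, hY0⟩ := eventually_atTop.1 hE
  set h : Fin K → ℕ := fun i => b ^ 3 * Q ^ 4 * (K ^ 4 - (K - i) ^ 4) with hh
  have hKi : ∀ i : Fin K, (K - (i : ℕ)) ^ 4 ≤ K ^ 4 := fun i => Nat.pow_le_pow_left (Nat.sub_le _ _) 4
  refine ⟨h, ?_, ?_⟩
  · intro i j hij
    have h1 : (K - (j : ℕ)) < K - i := by
      have : (i : ℕ) < j := hij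
      have := i.2
      omega
    have h2 : (K - (j : ℕ)) ^ 4 < (K - i) ^ 4 := Nat.pow_lt_pow_left h1 (by norm_num)
    have h3 := hKi i
    have h4 : K ^ 4 - (K - (i : ℕ)) ^ 4 < K ^ 4 - (K - j) ^ 4 := by omega
    exact Nat.mul_lt_mul_of_pos_left h4 (by
      have : 0 < b := by omega
      positivity)
  obtain ⟨m0, hm0⟩ : ∃ m0 : ℕ, m0 = b * K + Y0 + 1 := ⟨_, rfl⟩
  filter_upwards [asym (b * (Q + 1)) m0 K1 (by
    have : 0 < b := by omega
    exact Nat.mul_pos this (by omega)), eventually_ge_atTop 3] with X hX hX3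
  obtain ⟨Y, hY⟩ : ∃ Y : ℕ, Y = ⌊(X : ℝ) ^ (1 / 4 : ℝ) / (b * (Q + 1) : ℕ)⌋₊ := ⟨_, rfl⟩
  obtain ⟨hX1, hX2, hX3', hX4⟩ := hX Y hY
  have hcnt := hY0 Y (by omega)
  set S := (Icc 1 Y).filter (fun m => (∀ h, Squarefree (vq (D h) (Q * m + 1) / 1)) ∧
        ∑ h, (vq (D h) (Q * m + 1) / 1).primeFactors.card ≤
          2 * K * (C1 * (Nat.log 2 (2 * K) + 1)) ∧
        ∀ h, ∀ p : ℕ, p.Prime → p ∣ vq (D h) (Q * m + 1) / 1 → Y < p ^ K1) with hS
  -- the map
  set f : ℕ → ℕ := fun m => b * (Q * m + 1) ^ 4 - b ^ 3 * (Q * K) ^ 4 with hf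
  have hbig : ∀ m, b * K ≤ m → b * Q * K < Q * m + 1 := by
    intro m hm
    have : Q * (b * K) ≤ Q * m := Nat.mul_le_mul_left _ hm
    calc b * Q * K = Q * (b * K) := by ring
      _ ≤ Q * m := this
      _ < _ := Nat.lt_succ_self _
  have hfle : ∀ m, b * K ≤ m → b ^ 3 * (Q * K) ^ 4 ≤ b * (Q * m + 1) ^ 4 := by
    intro m hm
    have h1 := Nat.pow_le_pow_left (hbig m hm).le 4
    calc b ^ 3 * (Q * K) ^ 4 ≤ b ^ 5 * (Q * K) ^ 4 := by
          apply Nat.mul_le_mul_right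
          exact Nat.pow_le_pow_right (by omega) (by norm_num)
      _ = b * (b * Q * K) ^ 4 := by ring
      _ ≤ _ := Nat.mul_le_mul_left _ h1
  have hfcast : ∀ m, b * K ≤ m → ((f m : ℕ) : ℤ) = b * (Q * m + 1) ^ 4 - b ^ 3 * (Q * K) ^ 4 := by
    intro m hm
    rw [hf]
    push_cast [Nat.cast_sub (hfle m hm)]
    ring
  have hfh : ∀ m, b * K ≤ m → ∀ i, ((f m + h i : ℕ) : ℤ) =
      b * (((Q * m + 1 : ℕ) : ℤ) ^ 4 - b ^ 2 * (k i : ℤ) ^ 4) := by
    intro m hm i
    have hi := i.2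
    rw [Nat.cast_add, hfcast m hm, hh, hk]
    push_cast [Nat.cast_sub (hKi i), Nat.cast_sub hi.le]
    ring
  have hsub : ((S.filter (fun m => m0 ≤ m)).image f : Set ℕ) ⊆
      {n : ℕ | TupleAt K b M (5 * K1 + 1) (4 * C1) X h n} := by
    intro n hn
    rw [mem_coe, mem_image] at hn
    obtain ⟨m, hm, rfl⟩ := hn
    rw [mem_filter, hS, mem_filter, mem_Icc] at hm
    obtain ⟨⟨⟨hm1, hmY⟩, hsq, hsum, hrough⟩, hmm0⟩ := hm
    have hmb : b * K ≤ m := by omega
    have hlt : ∀ i, b * k i ^ 2 < (Q * m + 1) ^ 2 := by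
      intro i
      calc b * k i ^ 2 ≤ b ^ 2 * (Q * K) ^ 2 := by
            apply Nat.mul_le_mul (Nat.le_self_pow (by norm_num) _)
            exact Nat.pow_le_pow_left (hkle i) 2
        _ = (b * Q * K) ^ 2 := by ring
        _ < _ := Nat.pow_lt_pow_left (hbig m hmb) (by norm_num)
    simp only [Nat.div_one] at hsq hsum hrough
    have hDt : ∀ i, D (i, true) = ((b * k i ^ 2 : ℕ) : ℤ) := fun i => by simp [hD]
    have hDf : ∀ i, D (i, false) = -((b * k i ^ 2 : ℕ) : ℤ) := fun i => by simp [hD]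
    have hno : ∀ i p, p.Prime → p ∣ 2 * b * k i →
        ¬ p ∣ vq ((b * k i ^ 2 : ℕ) : ℤ) (Q * m + 1) ∧
        ¬ p ∣ vq (-((b * k i ^ 2 : ℕ) : ℤ)) (Q * m + 1) := by
      intro i p hp hpd
      have hpQ := hpk i p hp hpd
      have key : ∀ E : ℤ, (p : ℤ) ∣ E → ¬ p ∣ vq E (Q * m + 1) := by
        intro E hE1 h1
        rw [dvd_vq] at h1
        have h2 : (p : ℤ) ∣ (Q : ℤ) := by exact_mod_cast hpQ
        have h5 : (p : ℤ) ∣ 1 := by
          have h6 : (1 : ℤ) = (((Q * m + 1 : ℕ) : ℤ) ^ 2 - E) + E -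
              Q * (Q * m ^ 2 + 2 * m) := by push_cast; ring
          rw [h6]
          exact dvd_sub (dvd_add h1 hE1) (h2.mul_right _)
        have h7 : p ∣ 1 := by exact_mod_cast h5
        exact absurd (Nat.dvd_one.1 h7) hp.one_lt.ne'
      have h4 : (p : ℤ) ∣ ((b * k i ^ 2 : ℕ) : ℤ) := by
        have : p ∣ b * k i ^ 2 := by
          rw [hk]
          simp only [pow_two, mul_assoc]
          exact (hpQ.mul_right _).mul_left _
        exact_mod_cast this
      exact ⟨key _ h4, key _ ((dvd_neg).2 h4)⟩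
    have hfa : ∀ i, _ := fun i => facts (N := f m + h i) (t := Q * m + 1) hbs (by omega) (hk0 i)
      (Nat.succ_pos _) (hlt i) (hno i) (by rw [← hDt]; exact hsq _) (by rw [← hDf]; exact hsq _)
      (hfh m hmb i)
    have hb0 : 0 < b := by omega
    have hdiv : ∀ i, (f m + h i) / b = vq ((b * k i ^ 2 : ℕ) : ℤ) (Q * m + 1) *
        vq (-((b * k i ^ 2 : ℕ) : ℤ)) (Q * m + 1) := by
      intro i
      rw [(hfa i).1, Nat.mul_div_cancel_left _ hb0]
    refine ⟨?_, fun i => ⟨?_, (hfa i).2.1, (hfa i).2.2, ⟨_, (hfa i).1⟩, ?_⟩, ?_⟩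
    · -- size
      calc f m ≤ b * (Q * m + 1) ^ 4 := Nat.sub_le _ _
        _ ≤ b ^ 4 * ((Q + 1) * Y) ^ 4 := by
            apply Nat.mul_le_mul (Nat.le_self_pow (by norm_num) _)
            apply Nat.pow_le_pow_left
            nlinarith
        _ = (b * (Q + 1) * Y) ^ 4 := by ring
        _ ≤ X := hX3'
    · -- the residue class
      have h1 : (M : ℤ) ∣ (b : ℤ) - ((f m + h i : ℕ) : ℤ) := by
        rw [hfh m hmb i]
        have h2 : (Q : ℤ) ∣ (b : ℤ) - b * (((Q * m + 1 : ℕ) : ℤ) ^ 4 - b ^ 2 * (k i : ℤ) ^ 4) := by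
          rw [hk]
          refine ⟨-(b * (Q ^ 3 * m ^ 4 + 4 * Q ^ 2 * m ^ 3 + 6 * Q * m ^ 2 + 4 * m)) +
            b ^ 3 * Q ^ 3 * ((K - i : ℕ) : ℤ) ^ 4, ?_⟩
          push_cast
          ring
        exact (Int.natCast_dvd_natCast.2 hMQ).trans h2
      exact (Nat.modEq_iff_dvd.2 h1)
    · intro p hp hpd
      rw [hdiv i] at hpd
      have h1 : Y < p ^ K1 := by
        rcases (Nat.Prime.dvd_mul hp).1 hpd with h2 | h2
        · exact hrough (i, true) p hp (by rw [hDt]; exact h2)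
        · exact hrough (i, false) p hp (by rw [hDf]; exact h2)
      calc X ≤ Y ^ 5 := hX2
        _ < (p ^ K1) ^ 5 := Nat.pow_lt_pow_left h1 (by norm_num)
        _ = p ^ (5 * K1) := by rw [← pow_mul, mul_comm]
        _ ≤ p ^ (5 * K1 + 1) := Nat.pow_le_pow_right hp.pos (by omega)
    · calc ∑ i, ((f m + h i) / b).primeFactors.card
          ≤ ∑ i, ((vq (D (i, true)) (Q * m + 1)).primeFactors.card +
            (vq (D (i, false)) (Q * m + 1)).primeFactors.card) := by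
            apply sum_le_sum
            intro i _
            rw [hdiv i, hDt, hDf]
            rw [Nat.primeFactors_mul (vq_pos (not_sq hb hbs (hk0 i)) _).ne'
              (vq_pos (not_sq_neg hb (hk0 i)) _).ne']
            exact card_union_le _ _
        _ = ∑ h, (vq (D h) (Q * m + 1)).primeFactors.card := by
            rw [Fintype.sum_prod_type]
            apply sum_congr rfl
            intro i _
            rw [Fintype.sum_bool]
        _ ≤ 2 * K * (C1 * (Nat.log 2 (2 * K) + 1)) := hsum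
        _ ≤ 4 * C1 * K * (Nat.log 2 K + 1) := by
            rw [log_two_mul hK]
            have : Nat.log 2 K + 1 + 1 ≤ 2 * (Nat.log 2 K + 1) := by omega
            calc 2 * K * (C1 * (Nat.log 2 K + 1 + 1)) ≤ 2 * K * (C1 * (2 * (Nat.log 2 K + 1))) := by
                  gcongr
              _ = _ := by ring
  -- counting
  have hinj : Set.InjOn f (S.filter (fun m => m0 ≤ m) : Set ℕ) := by
    intro m hm m' hm' hmm
    rw [mem_coe, mem_filter] at hm hm'
    have h1 := hfcast m (by omega)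
    have h2 := hfcast m' (by omega)
    have hmm' : f m = f m' := hmm
    rw [hmm', h2] at h1
    have h3 : (b : ℤ) * (Q * m' + 1) ^ 4 = b * (Q * m + 1) ^ 4 := by linarith
    have h4 : b * (Q * m' + 1) ^ 4 = b * (Q * m + 1) ^ 4 := by exact_mod_cast h3
    have h5 : (Q * m' + 1) ^ 4 = (Q * m + 1) ^ 4 := Nat.eq_of_mul_eq_mul_left (by omega) h4
    have h6 : Q * m' + 1 = Q * m + 1 := Nat.pow_left_injective (n := 4) (by norm_num) h5
    have h7 : Q * m' = Q * m := by omega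
    exact (Nat.eq_of_mul_eq_mul_left hQ h7).symm
  have hfin : {n : ℕ | TupleAt K b M (5 * K1 + 1) (4 * C1) X h n}.Finite :=
    (Set.finite_Iic X).subset fun n hn => hn.1
  have hc1 : (S.filter (fun m => m0 ≤ m)).card ≤
      {n : ℕ | TupleAt K b M (5 * K1 + 1) (4 * C1) X h n}.ncard := by
    rw [← card_image_of_injOn hinj, ← Set.ncard_coe_finset]
    exact Set.ncard_le_ncard hsub hfin
  have hc2 : S.card ≤ (S.filter (fun m => m0 ≤ m)).card + m0 := by
    rw [← card_filter_add_card_filter_not (s := S) (fun m => m0 ≤ m)]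
    apply Nat.add_le_add_left
    calc (S.filter (fun m => ¬ m0 ≤ m)).card ≤ (range m0).card := by
          apply card_le_card
          intro m hm
          rw [mem_filter] at hm
          rw [mem_range]
          omega
      _ = m0 := card_range _
  have hc3 : ((S.card : ℕ) : ℝ) ≤
      (({n : ℕ | TupleAt K b M (5 * K1 + 1) (4 * C1) X h n}.ncard : ℕ) : ℝ) + m0 := by
    exact_mod_cast hc2.trans (Nat.add_le_add_right hc1 _)
  have hlog : (1 : ℝ) ≤ Real.log X := by
    rw [Real.le_log_iff_exp_le (by exact_mod_cast (by omega : 0 < X))]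
    have h1 := Real.exp_one_lt_d9
    have : (3 : ℝ) ≤ X := by exact_mod_cast hX3
    linarith
  have hfin2 : (X : ℝ) ^ (1 / 4 : ℝ) / Real.log X ^ (5 * K1 + 1) ≤
      (X : ℝ) ^ (1 / 4 : ℝ) / Real.log X ^ (K1 + 1) := by
    apply div_le_div_of_nonneg_left (by positivity) (by positivity)
    exact pow_le_pow_right₀ hlog (by omega)
  linarith

end Pool.Agent.T2H56.CT
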